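import Mathlib

/-!
The addition-and-subtraction law on x-coordinates for short Weierstrass curves.
-/

namespace Pool.Agent.K3H

open WeierstrassCurve WeierstrassCurve.Affine MvPolynomial

variable {K : Type*} [Field K]

/-- The short Weierstrass curve `y^2 = x^3 + A x + B`. -/
def sw (A B : K) : WeierstrassCurve.Affine K := ⟨0, 0, 0, A, B⟩

@[simp] lemma sw_a1 (A B : K) : (sw A B).a₁ = 0 := rfl
@[simp] lemma sw_a2 (A B : K) : (sw A B).a₂ = 0 := rfl
@[simp] lemma sw_a3 (A B : K) : (sw A B).a₃ = 0 := rfl
@[simp] lemma sw_a4 (A B : K) : (sw A B).a₄ = A := rfl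
@[simp] lemma sw_a6 (A B : K) : (sw A B).a₆ = B := rfl

lemma sw_b2 (A B : K) : (sw A B).b₂ = 0 := by simp [WeierstrassCurve.b₂]
lemma sw_b4 (A B : K) : (sw A B).b₄ = 2 * A := by simp [WeierstrassCurve.b₄]
lemma sw_b6 (A B : K) : (sw A B).b₆ = 4 * B := by simp [WeierstrassCurve.b₆]
lemma sw_b8 (A B : K) : (sw A B).b₈ = -A ^ 2 := by simp [WeierstrassCurve.b₈]

lemma sw_eq {A B x y : K} (h : (sw A B).Nonsingular x y) : y ^ 2 = x ^ 3 + A * x + B := by
  have := (Affine.equation_iff (W := sw A B) x y).mp h.1
  simpa using this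

@[simp] lemma sw_negY (A B x y : K) : (sw A B).negY x y = -y := by simp [Affine.negY]

/-- The value of the addition-and-subtraction map. -/
def asm (A B : K) (v : Fin 3 → K) : Fin 3 → K :=
  ![v 0 ^ 2 - 2 * A * (v 0 * v 2) - 4 * B * (v 1 * v 2) + A ^ 2 * v 2 ^ 2,
    2 * (v 1 * v 0) + 2 * A * (v 1 * v 2) + 4 * B * v 2 ^ 2,
    v 1 ^ 2 - 4 * (v 0 * v 2)]

lemma asm_eq (A B : K) (v : Fin 3 → K) :
    (fun i => (addSubMap (sw A B) i).eval v) = asm A B v := by
  funext i
  fin_cases i
  · simp [addSubMap, asm, sw_b2, sw_b4, sw_b6, sw_b8]; ring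
  · simp [addSubMap, asm, sw_b2, sw_b4, sw_b6, sw_b8]; ring
  · simp [addSubMap, asm, sw_b2, sw_b4, sw_b6, sw_b8]; ring

variable [DecidableEq K]

open WeierstrassCurve.Affine.Point

lemma addSub_self {A B : K} (P : (sw A B).Point) :
    ∃ c : K, c ≠ 0 ∧ Point.sym2x (P + P) 0 = c • asm A B (Point.sym2x P P) := by
  cases P with
  | zero =>
    refine ⟨1, one_ne_zero, ?_⟩
    rw [← Point.zero_def, add_zero, sym2x_zero_zero]
    funext i
    fin_cases i <;> simp [asm]
  | some x y h =>
    have hy2 := sw_eq h
    by_cases hy : y = (sw A B).negY x y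
    · rw [add_self_of_Y_eq hy]
      have hy' : y = -y := by simpa using hy
      have h2y : 2 * y = 0 := by linear_combination hy'
      have hns := h
      rw [Affine.nonsingular_iff] at hns
      have hne : (3 * x ^ 2 + A) ≠ 0 := by
        rcases hns.2 with h1 | h1
        · intro h0
          apply h1
          simp
          linear_combination -h0
        · exact absurd (by simpa using hy') h1
      refine ⟨((3 * x ^ 2 + A) ^ 2)⁻¹, inv_ne_zero (pow_ne_zero 2 hne), ?_⟩
      rw [sym2x_zero_zero, sym2x_some_some]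
      funext i
      fin_cases i
      · simp only [asm, Pi.smul_apply, smul_eq_mul]
        simp
        field_simp
        linear_combination (-8 * x) * hy2 + (4 * x * y) * h2y
      · simp only [asm, Pi.smul_apply, smul_eq_mul]
        simp
        right
        linear_combination (-4 : K) * hy2 + (2 * y) * h2y
      · simp only [asm, Pi.smul_apply, smul_eq_mul]
        simp
        right
        ring
    · have hyne : y ≠ -y := by simpa using hy
      have h2y : 2 * y ≠ 0 := by
        intro h0
        apply hyne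
        linear_combination h0
      have hy0 : y ≠ 0 := right_ne_zero_of_mul h2y
      have h20 : (2 : K) ≠ 0 := left_ne_zero_of_mul h2y
      have h40 : (4 : K) ≠ 0 := by
        have := mul_ne_zero h20 h20
        norm_num at this
        exact this
      rw [add_self_of_Y_ne hy]
      refine ⟨((2 * y) ^ 2)⁻¹, inv_ne_zero (pow_ne_zero 2 h2y), ?_⟩
      rw [sym2x_some_zero, sym2x_some_some]
      have hsl : (sw A B).slope x x y y = (3 * x ^ 2 + A) / (2 * y) := by
        rw [slope_of_Y_ne rfl hy]
        simp
        ring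
      funext i
      fin_cases i
      · simp only [asm, Pi.smul_apply, smul_eq_mul, hsl, Affine.addX]
        simp
        field_simp
        linear_combination (-8 * x) * hy2
      · simp only [asm, Pi.smul_apply, smul_eq_mul]
        simp
        field_simp
        linear_combination (4 : K) * hy2
      · simp only [asm, Pi.smul_apply, smul_eq_mul]
        simp
        right
        ring

lemma addSub {A B : K} (P Q : (sw A B).Point) :
    ∃ c : K, c ≠ 0 ∧ Point.sym2x (P + Q) (P - Q) = c • asm A B (Point.sym2x P Q) := by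
  by_cases hPQ : P = Q
  · subst hPQ
    rw [sub_self]
    exact addSub_self P
  by_cases hPQ' : P = -Q
  · subst hPQ'
    have := addSub_self (-Q)
    rw [show -Q + Q = 0 by abel, show -Q - Q = -Q + -Q by abel, sym2x_comm]
    rwa [sym2x_neg_right] at this
  cases P with
  | zero =>
    rw [← Point.zero_def, zero_add, zero_sub, sym2x_neg_right]
    cases Q with
    | zero => exact absurd rfl hPQ
    | some x y h =>
      refine ⟨1, one_ne_zero, ?_⟩
      rw [sym2x_zero_some, sym2x_some_some]
      funext i
      fin_cases i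
      · simp [asm]; ring
      · simp [asm]; ring
      · simp [asm]
  | some x₁ y₁ h₁ =>
    cases Q with
    | zero =>
      rw [← Point.zero_def, add_zero, sub_zero]
      refine ⟨1, one_ne_zero, ?_⟩
      rw [sym2x_some_zero, sym2x_some_some]
      funext i
      fin_cases i
      · simp [asm]; ring
      · simp [asm]; ring
      · simp [asm]
    | some x₂ y₂ h₂ =>
      have hx : x₁ ≠ x₂ := by
        intro hx
        rcases X_eq_iff.mp hx with h | h
        · exact hPQ h
        · exact hPQ' h
      have e1 := sw_eq h₁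
      have e2 := sw_eq h₂
      have hd : x₁ - x₂ ≠ 0 := sub_ne_zero.mpr hx
      rw [sub_eq_add_neg, neg_some, add_of_X_ne hx, add_of_X_ne hx, sym2x_some_some,
        sym2x_some_some]
      refine ⟨((x₁ - x₂) ^ 2)⁻¹, inv_ne_zero (pow_ne_zero 2 hd), ?_⟩
      funext i
      fin_cases i
      · simp only [asm, Pi.smul_apply, smul_eq_mul, slope_of_X_ne hx, Affine.addX, sw_negY]
        simp
        field_simp
        linear_combination ((y₁ ^ 2 - y₂ ^ 2 + (x₁ ^ 3 + A * x₁ + B) - (x₂ ^ 3 + A * x₂ + B)) -
          2 * (x₁ + x₂) * (x₁ - x₂) ^ 2) * e1 +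
          (-(y₁ ^ 2 - y₂ ^ 2 + (x₁ ^ 3 + A * x₁ + B) - (x₂ ^ 3 + A * x₂ + B)) -
          2 * (x₁ + x₂) * (x₁ - x₂) ^ 2) * e2
      · simp only [asm, Pi.smul_apply, smul_eq_mul, slope_of_X_ne hx, Affine.addX, sw_negY]
        simp
        field_simp
        linear_combination (2 : K) * e1 + 2 * e2
      · simp only [asm, Pi.smul_apply, smul_eq_mul]
        simp
        field_simp
        ring

end Pool.Agent.K3H
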