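import Mathlib

/-!
Tate's construction: a function on an abelian group satisfying the parallelogram law up to a
constant `C` is within `C` of a function satisfying it exactly.
-/

namespace Pool.Agent.K3H

open Filter Topology

variable {A : Type*} [AddCommGroup A]

/-- `q` satisfies the parallelogram law. -/
def IsPara (q : A → ℝ) : Prop := ∀ P Q : A, q (P + Q) + q (P - Q) = 2 * q P + 2 * q Q

theorem exists_canon (h : A → ℝ) (C : ℝ)
    (hC : ∀ P Q : A, |h (P + Q) + h (P - Q) - 2 * h P - 2 * h Q| ≤ C) :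
    ∃ q : A → ℝ, IsPara q ∧ ∀ P, |q P - h P| ≤ C := by
  have hC0 : 0 ≤ C := (abs_nonneg _).trans (hC 0 0)
  have h0 : |h 0| ≤ C / 2 := by
    have := hC 0 0
    rw [add_zero, sub_zero] at this
    rw [abs_le] at this ⊢
    constructor <;> linarith [this.1, this.2]
  have hdb : ∀ P, |h (2 • P) - 4 * h P| ≤ 3 * C / 2 := by
    intro P
    have h1 := hC P P
    rw [sub_self, ← two_nsmul] at h1
    rw [abs_le] at h0 h1 ⊢
    constructor <;> linarith [h1.1, h1.2, h0.1, h0.2]
  let s : A → ℕ → ℝ := fun P n => h (2 ^ n • P) / 4 ^ n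
  have hs : ∀ P n, dist (s P n) (s P (n + 1)) ≤ (3 * C / 8) * (1 / 4) ^ n := by
    intro P n
    have h1 := hdb (2 ^ n • P)
    rw [← mul_smul, ← pow_succ'] at h1
    rw [Real.dist_eq]
    have e : s P n - s P (n + 1) = -(h (2 ^ (n + 1) • P) - 4 * h (2 ^ n • P)) / 4 ^ (n + 1) := by
      simp only [s]
      field_simp
      ring
    rw [e, abs_div, abs_neg, abs_of_pos (by positivity : (0 : ℝ) < 4 ^ (n + 1)), div_le_iff₀ (by positivity)]
    calc _ ≤ 3 * C / 2 := h1
      _ = _ := by
        rw [pow_succ, one_div, inv_pow]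
        field_simp
        ring
  have hlim : ∀ P, ∃ l, Tendsto (s P) atTop (𝓝 l) := fun P =>
    cauchySeq_tendsto_of_complete (cauchySeq_of_le_geometric _ _ (by norm_num) (hs P))
  choose q hq using hlim
  refine ⟨q, ?_, ?_⟩
  · intro P Q
    have t1 : Tendsto (fun n => s (P + Q) n + s (P - Q) n - 2 * s P n - 2 * s Q n) atTop
        (𝓝 (q (P + Q) + q (P - Q) - 2 * q P - 2 * q Q)) :=
      (((hq _).add (hq _)).sub ((hq P).const_mul 2)).sub ((hq Q).const_mul 2)
    have t2 : Tendsto (fun n => s (P + Q) n + s (P - Q) n - 2 * s P n - 2 * s Q n) atTop (𝓝 0) := by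
      have hb : ∀ n, |s (P + Q) n + s (P - Q) n - 2 * s P n - 2 * s Q n| ≤ C * (1 / 4) ^ n := by
        intro n
        have h1 := hC (2 ^ n • P) (2 ^ n • Q)
        rw [← smul_add, ← smul_sub] at h1
        have e : s (P + Q) n + s (P - Q) n - 2 * s P n - 2 * s Q n =
            (h (2 ^ n • (P + Q)) + h (2 ^ n • (P - Q)) - 2 * h (2 ^ n • P) - 2 * h (2 ^ n • Q)) /
              4 ^ n := by
          simp only [s]; ring
        rw [e, abs_div, abs_of_pos (by positivity : (0 : ℝ) < 4 ^ n), div_le_iff₀ (by positivity)]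
        calc _ ≤ C := h1
          _ = _ := by rw [one_div, inv_pow]; field_simp
      have t3 : Tendsto (fun n : ℕ => C * (1 / 4 : ℝ) ^ n) atTop (𝓝 0) := by
        have := (tendsto_pow_atTop_nhds_zero_of_lt_one (by norm_num : (0 : ℝ) ≤ 1 / 4)
          (by norm_num)).const_mul C
        simpa using this
      exact squeeze_zero_norm hb t3
    have := tendsto_nhds_unique t1 t2
    linarith
  · intro P
    have h1 := dist_le_of_le_geometric_of_tendsto₀ (1 / 4) (3 * C / 8) (by norm_num) (hs P) (hq P)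
    rw [Real.dist_eq] at h1
    have e : s P 0 = h P := by simp [s]
    rw [e, abs_sub_comm] at h1
    refine h1.trans ?_
    rw [div_le_iff₀ (by norm_num)]
    linarith

namespace IsPara

variable {q : A → ℝ} (hq : IsPara q)

include hq

lemma zero : q 0 = 0 := by
  have := hq 0 0
  rw [add_zero, sub_zero] at this
  linarith

lemma neg (P : A) : q (-P) = q P := by
  have := hq 0 P
  rw [zero_add, zero_sub, hq.zero] at this
  linarith

lemma nsmul (n : ℕ) (P : A) : q (n • P) = (n : ℝ) ^ 2 * q P := by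
  have key : ∀ n : ℕ, q (n • P) = (n : ℝ) ^ 2 * q P ∧ q ((n + 1) • P) = ((n : ℝ) + 1) ^ 2 * q P := by
    intro n
    induction n with
    | zero => simp [hq.zero]
    | succ n ih =>
      refine ⟨by rw [ih.2]; push_cast; ring, ?_⟩
      have h1 := hq ((n + 1) • P) P
      have e1 : (n + 1) • P + P = (n + 1 + 1) • P := by rw [← succ_nsmul]
      have e2 : (n + 1) • P - P = n • P := by rw [succ_nsmul, add_sub_cancel_right]
      rw [e1, e2, ih.1, ih.2] at h1
      push_cast
      linarith
  exact (key n).1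

lemma zsmul (n : ℤ) (P : A) : q (n • P) = (n : ℝ) ^ 2 * q P := by
  rcases n.eq_nat_or_neg with ⟨m, rfl | rfl⟩
  · rw [natCast_zsmul, hq.nsmul]; simp
  · rw [neg_smul, hq.neg, natCast_zsmul, hq.nsmul]; simp

lemma torsion {k : ℕ} (hk : k ≠ 0) {T : A} (hT : k • T = 0) : q T = 0 := by
  have h1 := hq.nsmul k T
  rw [hT, hq.zero] at h1
  have : (k : ℝ) ^ 2 ≠ 0 := by positivity
  rcases mul_eq_zero.mp h1.symm with h | h
  · exact absurd h this
  · exact h

lemma add_torsion {k : ℕ} (hk : k ≠ 0) {T : A} (hT : k • T = 0) (P : A) : q (P + T) = q P := by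
  have h1 := hq.nsmul k (P + T)
  rw [smul_add, hT, add_zero, hq.nsmul] at h1
  have : (k : ℝ) ^ 2 ≠ 0 := by positivity
  exact (mul_left_cancel₀ this h1).symm

lemma nonneg_of_bdd {c : ℝ} (hb : ∀ P, -c ≤ q P) (P : A) : 0 ≤ q P := by
  by_contra hneg
  push Not at hneg
  obtain ⟨n, hn⟩ := exists_nat_gt ((|c| + 1) / (-q P))
  have hq0 : 0 < -q P := by linarith
  rw [div_lt_iff₀ hq0] at hn
  have hn1 : 1 ≤ n := by
    rcases Nat.eq_zero_or_pos n with h | h
    · subst h
      have := abs_nonneg c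
      simp at hn
      linarith
    · exact h
  have hn1' : (1 : ℝ) ≤ n := by exact_mod_cast hn1
  have h1 := hb (n • P)
  rw [hq.nsmul] at h1
  have h2 : (n : ℝ) * (-q P) ≤ (n : ℝ) ^ 2 * (-q P) := by
    apply mul_le_mul_of_nonneg_right _ hq0.le
    nlinarith
  have := le_abs_self c
  linarith

end IsPara

end Pool.Agent.K3H
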