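import Mathlib

/-!
Polynomial bound for the number of elements of bounded height in a number field.
-/

namespace Pool.Agent.K3H

open NumberField Height Module

variable (K : Type*) [Field K] [NumberField K]

/-- Coordinates of an algebraic integer with respect to an integral basis are bounded by a
constant times its largest conjugate. -/
lemma coord_bound : ∃ c : ℝ, 0 ≤ c ∧ ∀ (x : 𝓞 K) (R : ℝ),
    (∀ φ : K →+* ℂ, ‖φ x‖ ≤ R) → ∀ i, |(((RingOfIntegers.basis K).repr x i : ℤ) : ℝ)| ≤ c * R := by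
  classical
  set b := integralBasis K with hb
  have hnd := traceForm_nondegenerate ℚ K
  have hsy : (Algebra.traceForm ℚ K).IsSymm := Algebra.traceForm_isSymm ℚ
  set b' := (Algebra.traceForm ℚ K).dualBasis hnd b with hb'
  let c : ℝ := ∑ i, ∑ φ : K →ₐ[ℚ] ℂ, ‖φ (b' i)‖
  refine ⟨c, Finset.sum_nonneg (fun i _ => Finset.sum_nonneg (fun φ _ => norm_nonneg _)), ?_⟩
  intro x R hR i
  have hR0 : 0 ≤ R := by
    obtain ⟨φ⟩ := (inferInstance : Nonempty (K →+* ℂ))
    exact (norm_nonneg _).trans (hR φ)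
  have h1 : b.repr (x : K) i = Algebra.trace ℚ K ((x : K) * b' i) := by
    have e : b = (Algebra.traceForm ℚ K).dualBasis hnd b' := by
      rw [hb', LinearMap.BilinForm.dualBasis_dualBasis hnd hsy]
    calc b.repr (x : K) i = ((Algebra.traceForm ℚ K).dualBasis hnd b').repr (x : K) i := by rw [← e]
      _ = _ := by rw [LinearMap.BilinForm.dualBasis_repr_apply, Algebra.traceForm_apply]
  have h2 : ((Algebra.trace ℚ K ((x : K) * b' i) : ℚ) : ℂ) =
      ∑ φ : K →ₐ[ℚ] ℂ, φ (x : K) * φ (b' i) := by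
    have := trace_eq_sum_embeddings (K := ℚ) (L := K) ℂ (x := (x : K) * b' i)
    simp only [map_mul] at this
    rw [← this]
    rfl
  have h3 : (((RingOfIntegers.basis K).repr x i : ℤ) : ℚ) = b.repr (x : K) i := by
    have := integralBasis_repr_apply (K := K) x i
    rw [hb]
    rw [show ((x : 𝓞 K) : K) = algebraMap (𝓞 K) K x from rfl, this]
    simp
  have h4 : |(((RingOfIntegers.basis K).repr x i : ℤ) : ℝ)| =
      ‖((Algebra.trace ℚ K ((x : K) * b' i) : ℚ) : ℂ)‖ := by
    rw [← h1, ← h3]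
    simp
  rw [h4, h2]
  calc _ ≤ ∑ φ : K →ₐ[ℚ] ℂ, ‖φ (x : K) * φ (b' i)‖ := norm_sum_le _ _
    _ ≤ ∑ φ : K →ₐ[ℚ] ℂ, R * ‖φ (b' i)‖ := by
        apply Finset.sum_le_sum
        intro φ _
        rw [norm_mul]
        exact mul_le_mul_of_nonneg_right (hR φ.toRingHom) (norm_nonneg _)
    _ = R * ∑ φ : K →ₐ[ℚ] ℂ, ‖φ (b' i)‖ := by rw [Finset.mul_sum]
    _ ≤ R * c := by
        apply mul_le_mul_of_nonneg_left _ hR0
        exact Finset.single_le_sum (f := fun i => ∑ φ : K →ₐ[ℚ] ℂ, ‖φ (b' i)‖)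
          (fun i _ => Finset.sum_nonneg (fun φ _ => norm_nonneg _)) (Finset.mem_univ i)
    _ = c * R := mul_comm _ _

lemma one_le_finpart (x : K) : 1 ≤ ∏ᶠ v : FinitePlace K, max (v x) 1 :=
  one_le_finprod (fun v => le_max_right _ _)

lemma place_le_height (x : K) (v : InfinitePlace K) : v x ≤ mulHeight₁ x := by
  classical
  rw [NumberField.mulHeight₁_eq]
  have h1 : v x ≤ ∏ v : InfinitePlace K, max (v x) 1 ^ v.mult := by
    rw [← Finset.prod_erase_mul _ _ (Finset.mem_univ v)]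
    have h2 : 1 ≤ ∏ w ∈ Finset.univ.erase v, max (w x) 1 ^ w.mult := by
      calc (1 : ℝ) = ∏ w ∈ Finset.univ.erase v, (1 : ℝ) := by rw [Finset.prod_const_one]
        _ ≤ _ := Finset.prod_le_prod (fun _ _ => zero_le_one)
          (fun w _ => one_le_pow₀ (le_max_right _ _))
    have h3 : v x ≤ max (v x) 1 ^ v.mult :=
      (le_max_left _ _).trans (le_self_pow₀ (le_max_right _ _) v.mult_ne_zero)
    calc v x ≤ max (v x) 1 ^ v.mult := h3
      _ = 1 * max (v x) 1 ^ v.mult := by rw [one_mul]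
      _ ≤ _ := mul_le_mul_of_nonneg_right h2 (by positivity)
  calc v x ≤ (∏ v : InfinitePlace K, max (v x) 1 ^ v.mult) * 1 := by rw [mul_one]; exact h1
    _ ≤ _ := mul_le_mul_of_nonneg_left (one_le_finpart K x) (Finset.prod_nonneg (fun w _ => by positivity))

lemma embed_le_height (x : K) (φ : K →+* ℂ) : ‖φ x‖ ≤ mulHeight₁ x := by
  have := place_le_height K x (InfinitePlace.mk φ)
  rwa [InfinitePlace.apply] at this

/-- There are at most `C T^k` elements of multiplicative height at most `T`. -/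
theorem count_height : ∃ (C : ℝ) (k : ℕ), 0 ≤ C ∧ ∀ T : ℝ, 1 ≤ T → ∀ s : Finset K,
    (∀ x ∈ s, mulHeight₁ x ≤ T) → (s.card : ℝ) ≤ C * T ^ k := by
  classical
  obtain ⟨c, hc0, hc⟩ := coord_bound K
  set ι := Free.ChooseBasisIndex ℤ (𝓞 K)
  set d := Fintype.card ι
  refine ⟨(2 * c + 3) ^ d, 2 * d + 1, by positivity, ?_⟩
  intro T hT s hs
  set M : ℕ := ⌊c * T ^ 2⌋₊ with hM
  let box : Finset (ι → ℤ) := Fintype.piFinset (fun _ => Finset.Icc (-(M : ℤ)) M)
  let g : ℕ × (ι → ℤ) → K := fun p => (∑ i, (p.2 i : K) * (RingOfIntegers.basis K i : K)) / p.1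
  have hsub : s ⊆ ((Finset.Icc 1 ⌊T⌋₊) ×ˢ box).image g := by
    intro x hx
    obtain ⟨n, hn0, hn1, hn2⟩ := exists_nat_le_mulHeight₁ x
    have hxT := hs x hx
    have hnT : (n : ℝ) ≤ T := hn1.trans hxT
    rw [Finset.mem_image]
    let a : 𝓞 K := ⟨(n : K) * x, hn2⟩
    have ha : (a : K) = n * x := rfl
    refine ⟨(n, fun i => (RingOfIntegers.basis K).repr a i), ?_, ?_⟩
    · rw [Finset.mem_product, Finset.mem_Icc]
      refine ⟨⟨Nat.one_le_iff_ne_zero.mpr hn0, Nat.le_floor hnT⟩, ?_⟩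
      rw [Fintype.mem_piFinset]
      intro i
      have h1 := hc a (T ^ 2) (by
        intro φ
        rw [ha, map_mul, norm_mul, map_natCast, Complex.norm_natCast, pow_two]
        exact mul_le_mul hnT ((embed_le_height K x φ).trans hxT) (norm_nonneg _) (by linarith)) i
      rw [Finset.mem_Icc, ← abs_le]
      have h2 : ((|(RingOfIntegers.basis K).repr a i|).toNat : ℝ) ≤ c * T ^ 2 := by
        have h3 : (((|(RingOfIntegers.basis K).repr a i|).toNat : ℤ) : ℝ) =
            |(((RingOfIntegers.basis K).repr a i : ℤ) : ℝ)| := by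
          rw [Int.toNat_of_nonneg (abs_nonneg _)]
          push_cast
          rfl
        rw [← h3] at h1
        exact_mod_cast h1
      have h4 := Nat.le_floor h2
      show |(RingOfIntegers.basis K).repr a i| ≤ (M : ℤ)
      omega
    · simp only [g]
      have h1 : (∑ i, (((RingOfIntegers.basis K).repr a i : ℤ) : K) * (RingOfIntegers.basis K i : K)) = (a : K) := by
        have := (RingOfIntegers.basis K).sum_repr a
        conv_rhs => rw [← this]
        rw [show ((∑ i, (RingOfIntegers.basis K).repr a i • (RingOfIntegers.basis K) i : 𝓞 K) : K) =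
          algebraMap (𝓞 K) K (∑ i, (RingOfIntegers.basis K).repr a i • (RingOfIntegers.basis K) i) from rfl,
          map_sum]
        apply Finset.sum_congr rfl
        intro i _
        rw [zsmul_eq_mul, map_mul, map_intCast]
      rw [h1, ha]
      have : (n : K) ≠ 0 := by exact_mod_cast hn0
      field_simp
  have h1 := Finset.card_le_card hsub
  have h2 := h1.trans Finset.card_image_le
  rw [Finset.card_product, Nat.card_Icc, Fintype.card_piFinset] at h2
  simp only [Finset.prod_const, Finset.card_univ, Int.card_Icc] at h2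
  have h3 : ((M : ℤ) + 1 - -(M : ℤ)).toNat = 2 * M + 1 := by omega
  rw [h3] at h2
  have h4 : (s.card : ℝ) ≤ ((⌊T⌋₊ + 1 - 1 : ℕ) : ℝ) * (2 * M + 1) ^ d := by
    exact_mod_cast h2
  have h5 : ((⌊T⌋₊ + 1 - 1 : ℕ) : ℝ) ≤ T := by
    rw [Nat.add_sub_cancel]
    exact Nat.floor_le (by linarith)
  have h6 : (M : ℝ) ≤ c * T ^ 2 := Nat.floor_le (by positivity)
  have hT2 : 1 ≤ T ^ 2 := one_le_pow₀ hT
  have h7 : (2 * (M : ℝ) + 1) ≤ (2 * c + 3) * T ^ 2 := by nlinarith
  calc (s.card : ℝ) ≤ T * ((2 * c + 3) * T ^ 2) ^ d := by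
        refine h4.trans (mul_le_mul h5 (pow_le_pow_left₀ (by positivity) h7 d) (by positivity) (by linarith))
    _ = (2 * c + 3) ^ d * T ^ (2 * d + 1) := by rw [mul_pow, ← pow_mul]; ring

end Pool.Agent.K3H
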