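import Pool.Agent.K3H.Scale

/-!
Division by two on `y^2 = (x - r1)(x - r2)(x - r3)` (complete 2-descent, local-free part).
-/

namespace Pool.Agent.K3H

open WeierstrassCurve WeierstrassCurve.Affine

variable {K : Type*} [Field K] [CharZero K] [DecidableEq K]

lemma sw_ns_of_ne {A B x y : K} (hy : y ≠ 0) (h : y ^ 2 = x ^ 3 + A * x + B) :
    (sw A B).Nonsingular x y := by
  rw [Affine.nonsingular_iff, Affine.equation_iff]
  simp only [sw_a1, sw_a2, sw_a3, sw_a4, sw_a6, zero_mul, mul_zero, add_zero, sub_zero]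
  refine ⟨h, Or.inr ?_⟩
  intro h0
  apply hy
  have : 2 * y = 0 := by linear_combination h0
  simpa using this

/-- A point all of whose `x - r_i` are squares is divisible by two. -/
lemma halve {A B r₁ r₂ r₃ x y t₁ t₂ t₃ : K} (hs : r₁ + r₂ + r₃ = 0)
    (hA : A = r₁ * r₂ + r₁ * r₃ + r₂ * r₃) (hB : B = -(r₁ * r₂ * r₃))
    (h12 : r₁ ≠ r₂) (h13 : r₁ ≠ r₃) (h23 : r₂ ≠ r₃)
    (h : (sw A B).Nonsingular x y) (e₁ : x - r₁ = t₁ ^ 2) (e₂ : x - r₂ = t₂ ^ 2)
    (e₃ : x - r₃ = t₃ ^ 2) (hy : y = t₁ * t₂ * t₃) :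
    ∃ Q : (sw A B).Point, Point.some x y h = 2 • Q := by
  have n12 : t₁ + t₂ ≠ 0 := by
    intro h0
    apply h12
    have : t₁ = -t₂ := eq_neg_of_add_eq_zero_left h0
    rw [this] at e₁
    linear_combination e₂ - e₁
  have n13 : t₁ + t₃ ≠ 0 := by
    intro h0
    apply h13
    have : t₁ = -t₃ := eq_neg_of_add_eq_zero_left h0
    rw [this] at e₁
    linear_combination e₃ - e₁
  have n23 : t₂ + t₃ ≠ 0 := by
    intro h0
    apply h23
    have : t₂ = -t₃ := eq_neg_of_add_eq_zero_left h0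
    rw [this] at e₂
    linear_combination e₃ - e₂
  have R1 : r₁ = x - t₁ ^ 2 := by linear_combination -e₁
  have R2 : r₂ = x - t₂ ^ 2 := by linear_combination -e₂
  have R3 : r₃ = x - t₃ ^ 2 := by linear_combination -e₃
  have hx3 : 3 * x = t₁ ^ 2 + t₂ ^ 2 + t₃ ^ 2 := by
    rw [R1, R2, R3] at hs
    linear_combination hs
  have hx : x = (t₁ ^ 2 + t₂ ^ 2 + t₃ ^ 2) / 3 := by
    field_simp
    linear_combination hx3
  set x₀ := x + t₁ * t₂ + t₁ * t₃ + t₂ * t₃ with hx₀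
  set y₀ := (t₁ + t₂) * (t₁ + t₃) * (t₂ + t₃) with hy₀
  have hy0 : y₀ ≠ 0 := mul_ne_zero (mul_ne_zero n12 n13) n23
  have heq : y₀ ^ 2 = x₀ ^ 3 + A * x₀ + B := by
    have : x₀ ^ 3 + A * x₀ + B = (x₀ - r₁) * (x₀ - r₂) * (x₀ - r₃) + (r₁ + r₂ + r₃) * x₀ ^ 2 := by
      rw [hA, hB]; ring
    rw [this, hs, R1, R2, R3, hx₀, hy₀]
    ring
  have hns := sw_ns_of_ne hy0 heq
  refine ⟨Point.some x₀ y₀ hns, ?_⟩
  have hyne : y₀ ≠ (sw A B).negY x₀ y₀ := by
    rw [sw_negY]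
    intro h0
    apply hy0
    have : 2 * y₀ = 0 := by linear_combination h0
    simpa using this
  have hslope : (sw A B).slope x₀ x₀ y₀ y₀ = t₁ + t₂ + t₃ := by
    rw [slope_of_Y_ne rfl hyne]
    simp only [sw_a1, sw_a2, sw_a4, sw_negY, mul_zero, zero_mul, add_zero, sub_zero]
    have e2 : y₀ - -y₀ = 2 * y₀ := by ring
    have h2y : 2 * y₀ ≠ 0 := mul_ne_zero two_ne_zero hy0
    rw [e2, div_eq_iff h2y, hA, R1, R2, R3, hx₀, hy₀, hx]
    ring
  rw [two_nsmul, Point.add_self_of_Y_ne hyne]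
  congr 1
  · rw [hslope]
    simp only [Affine.addX, sw_a1, sw_a2, zero_mul, add_zero, sub_zero]
    rw [hx₀, hx]
    ring
  · rw [hslope]
    simp only [Affine.addY, Affine.negAddY, Affine.addX, sw_a1, sw_a2, sw_negY, zero_mul,
      add_zero, sub_zero]
    rw [hy, hx₀, hy₀, hx]
    ring

/-- Two points with the same square classes differ by twice a point. -/
lemma descent {A B r₁ r₂ r₃ : K} (hs : r₁ + r₂ + r₃ = 0)
    (hA : A = r₁ * r₂ + r₁ * r₃ + r₂ * r₃) (hB : B = -(r₁ * r₂ * r₃))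
    (h12 : r₁ ≠ r₂) (h13 : r₁ ≠ r₃) (h23 : r₂ ≠ r₃) {x y x' y' : K}
    (h : (sw A B).Nonsingular x y) (h' : (sw A B).Nonsingular x' y') (hy : y ≠ 0) (hy' : y' ≠ 0)
    (e₁ : IsSquare ((x - r₁) * (x' - r₁))) (e₂ : IsSquare ((x - r₂) * (x' - r₂)))
    (e₃ : IsSquare ((x - r₃) * (x' - r₃))) :
    ∃ R : (sw A B).Point, Point.some x y h - Point.some x' y' h' = 2 • R := by
  have hE := sw_eq h
  have hE' := sw_eq h'
  have hfac : y ^ 2 = (x - r₁) * (x - r₂) * (x - r₃) := by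
    rw [hE, hA, hB]; linear_combination (x ^ 2) * hs
  have hfac' : y' ^ 2 = (x' - r₁) * (x' - r₂) * (x' - r₃) := by
    rw [hE', hA, hB]; linear_combination (x' ^ 2) * hs
  have hne : (x - r₁) * (x - r₂) * (x - r₃) ≠ 0 := by rw [← hfac]; exact pow_ne_zero 2 hy
  have hne' : (x' - r₁) * (x' - r₂) * (x' - r₃) ≠ 0 := by rw [← hfac']; exact pow_ne_zero 2 hy'
  have g1 : x - r₁ ≠ 0 := fun h0 => hne (by rw [h0]; ring)
  have g2 : x - r₂ ≠ 0 := fun h0 => hne (by rw [h0]; ring)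
  have g3 : x - r₃ ≠ 0 := fun h0 => hne (by rw [h0]; ring)
  have g1' : x' - r₁ ≠ 0 := fun h0 => hne' (by rw [h0]; ring)
  have g2' : x' - r₂ ≠ 0 := fun h0 => hne' (by rw [h0]; ring)
  have g3' : x' - r₃ ≠ 0 := fun h0 => hne' (by rw [h0]; ring)
  by_cases hx : x = x'
  · rcases Point.X_eq_iff (h₁ := h) (h₂ := h') |>.mp hx with h0 | h0
    · exact ⟨0, by rw [h0]; simp⟩
    · refine ⟨Point.some x y h, ?_⟩
      have : Point.some x' y' h' = -Point.some x y h := by rw [h0, neg_neg]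
      rw [this, sub_neg_eq_add, two_nsmul]
  · -- the sum of the two points
    have hxd : x - x' ≠ 0 := sub_ne_zero.mpr hx
    obtain ⟨s₁, e₁⟩ := e₁
    obtain ⟨s₂, e₂⟩ := e₂
    obtain ⟨s₃, e₃⟩ := e₃
    have k1 : s₁ ≠ 0 := fun h0 => (mul_ne_zero g1 g1') (by rw [e₁, h0]; ring)
    have k2 : s₂ ≠ 0 := fun h0 => (mul_ne_zero g2 g2') (by rw [e₂, h0]; ring)
    have k3 : s₃ ≠ 0 := fun h0 => (mul_ne_zero g3 g3') (by rw [e₃, h0]; ring)
    set l := (y - y') / (x - x') with hl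
    have hld : l * (x - x') = y - y' := by rw [hl]; field_simp
    have hsum : ∃ (x'' y'' : K) (h'' : (sw A B).Nonsingular x'' y''),
        Point.some x y h + Point.some x' y' h' = Point.some x'' y'' h'' ∧
        x'' = l ^ 2 - x - x' ∧ y'' = -(l * (x'' - x) + y) := by
      refine ⟨_, _, _, Point.add_of_X_ne hx, ?_, ?_⟩
      · rw [slope_of_X_ne hx, ← hl]
        simp [Affine.addX]
      · rw [slope_of_X_ne hx, ← hl]
        simp [Affine.addX, Affine.addY, Affine.negAddY]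
    obtain ⟨x'', y'', h'', hadd, hx'', hy''⟩ := hsum
    -- the key identity at a root
    have key : ∀ r : K, r ^ 3 + A * r + B = 0 →
        (x'' - r) * ((x - r) * (x' - r)) = (l * (r - x) + y) ^ 2 := by
      intro r hr
      rw [hx'']
      -- the cubic X^3 + A X + B - (l (X - x) + y)^2 has roots x, x', x''
      have c1 : y ^ 2 - (x ^ 3 + A * x + B) = 0 := by rw [hE]; ring
      have c2 : y' ^ 2 - (x' ^ 3 + A * x' + B) = 0 := by rw [hE']; ring
      have y'eq : y' = y - l * (x - x') := by rw [hld]; ring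
      rw [y'eq] at c2
      have c3 : (x - x') * (2 * y * l - l ^ 2 * (x - x') - (x ^ 2 + x * x' + x' ^ 2 + A)) = 0 := by
        linear_combination c1 - c2
      have c4 : 2 * y * l - l ^ 2 * (x - x') - (x ^ 2 + x * x' + x' ^ 2 + A) = 0 := by
        rcases mul_eq_zero.mp c3 with h0 | h0
        · exact absurd h0 hxd
        · exact h0
      linear_combination -(r - x) * c4 - c1 - hr
    have root : ∀ r : K, (r = r₁ ∨ r = r₂ ∨ r = r₃) → r ^ 3 + A * r + B = 0 := by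
      intro r hr
      have : r ^ 3 + A * r + B = (r - r₁) * (r - r₂) * (r - r₃) + (r₁ + r₂ + r₃) * r ^ 2 := by
        rw [hA, hB]; ring
      rw [this, hs]
      rcases hr with rfl | rfl | rfl <;> ring
    have q1 := key r₁ (root r₁ (Or.inl rfl))
    have q2 := key r₂ (root r₂ (Or.inr (Or.inl rfl)))
    have q3 := key r₃ (root r₃ (Or.inr (Or.inr rfl)))
    rw [e₁] at q1
    rw [e₂] at q2
    rw [e₃] at q3
    have w1 : x'' - r₁ = ((l * (r₁ - x) + y) / s₁) ^ 2 := by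
      field_simp; linear_combination q1
    have w2 : x'' - r₂ = ((l * (r₂ - x) + y) / s₂) ^ 2 := by
      field_simp; linear_combination q2
    have w3 : x'' - r₃ = ((l * (r₃ - x) + y) / s₃) ^ 2 := by
      field_simp; linear_combination q3
    set t₁ := (l * (r₁ - x) + y) / s₁
    set t₂ := (l * (r₂ - x) + y) / s₂
    set t₃ := (l * (r₃ - x) + y) / s₃
    have hE'' := sw_eq h''
    have hfac'' : y'' ^ 2 = (t₁ * t₂ * t₃) ^ 2 := by
      have : y'' ^ 2 = (x'' - r₁) * (x'' - r₂) * (x'' - r₃) := by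
        rw [hE'', hA, hB]; linear_combination (x'' ^ 2) * hs
      rw [this, w1, w2, w3]; ring
    have hQ : ∃ Q : (sw A B).Point, Point.some x'' y'' h'' = 2 • Q := by
      rcases sq_eq_sq_iff_eq_or_eq_neg.mp hfac'' with h0 | h0
      · exact halve hs hA hB h12 h13 h23 h'' w1 w2 w3 h0
      · refine halve (t₃ := -t₃) hs hA hB h12 h13 h23 h'' w1 w2 (by rw [w3]; ring) ?_
        rw [h0]; ring
    obtain ⟨Q, hQ⟩ := hQ
    refine ⟨Q - Point.some x' y' h', ?_⟩
    rw [smul_sub, ← hQ, ← hadd, two_nsmul]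
    abel

end Pool.Agent.K3H
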