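import Pool.Agent.K3H.Canon

/-!
Counting elements of bounded height in an abelian group from a bound for `A / 2A`.
-/

namespace Pool.Agent.K3H

variable {A : Type*} [AddCommGroup A]

/-- `A / 2A` has at most `M` elements (in the form of a classifying map). -/
def HalfBound (A : Type*) [AddCommGroup A] (M : ℕ) : Prop :=
  ∃ cl : A → Fin M, ∀ P Q : A, cl P = cl Q → ∃ R : A, P - Q = 2 • R

lemma HalfBound.pow {M : ℕ} (h : HalfBound A M) (j : ℕ) :
    ∃ cl : A → (Fin j → Fin M), ∀ P Q : A, cl P = cl Q → ∃ R : A, P - Q = 2 ^ j • R := by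
  classical
  obtain ⟨cl, hcl⟩ := h
  induction j with
  | zero =>
    refine ⟨fun _ => Fin.elim0, fun P Q _ => ⟨P - Q, by simp⟩⟩
  | succ j ih =>
    obtain ⟨clj, hclj⟩ := ih
    -- representatives of the classes
    let rep : Fin M → A := fun c => if h : ∃ P, cl P = c then h.choose else 0
    have hrep : ∀ P, cl (rep (cl P)) = cl P := by
      intro P
      have h : ∃ Q, cl Q = cl P := ⟨P, rfl⟩
      simp only [rep, dif_pos h]
      exact h.choose_spec
    have hR : ∀ P : A, ∃ R : A, P - rep (cl P) = 2 • R := fun P => hcl _ _ (hrep P).symm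
    choose r hr using hR
    refine ⟨fun P => Fin.cons (cl P) (clj (r P)), ?_⟩
    intro P Q hPQ
    have h1 : cl P = cl Q := by
      have := congrFun hPQ 0
      simpa using this
    have h2 : clj (r P) = clj (r Q) := by
      funext i
      have := congrFun hPQ i.succ
      simpa using this
    obtain ⟨R, hR⟩ := hclj _ _ h2
    refine ⟨R, ?_⟩
    have h3 := hr P
    have h4 := hr Q
    rw [h1] at h3
    calc P - Q = (P - rep (cl Q)) - (Q - rep (cl Q)) := by abel
      _ = 2 • (r P - r Q) := by rw [h3, h4, smul_sub]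
      _ = _ := by rw [hR, ← mul_smul, pow_succ']

theorem card_le_of_half {q : A → ℝ} (hq : IsPara q) {M n₀ j : ℕ} (h : HalfBound A M)
    {lam H : ℝ} (hlam : ∀ P : A, q P < lam → ∃ k : ℕ, k ≠ 0 ∧ k • P = 0)
    (hn₀ : ∀ s : Finset A, (∀ P ∈ s, ∃ k : ℕ, k ≠ 0 ∧ k • P = 0) → s.card ≤ n₀)
    (hq0 : ∀ P, 0 ≤ q P)
    (hj : 4 * H < 4 ^ j * lam) (s : Finset A) (hs : ∀ P ∈ s, q P ≤ H) :
    s.card ≤ n₀ * M ^ j := by
  classical
  obtain ⟨cl, hcl⟩ := h.pow j
  have h1 : s.card ≤ n₀ * (s.image cl).card := by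
    apply Finset.card_le_mul_card_image
    intro c hc
    obtain ⟨P₀, hP₀, rfl⟩ := Finset.mem_image.mp hc
    have h2 : (({x ∈ s | cl x = cl P₀}).image (fun P => P - P₀)).card ≤ n₀ := by
      apply hn₀
      intro T hT
      obtain ⟨P, hP, rfl⟩ := Finset.mem_image.mp hT
      rw [Finset.mem_filter] at hP
      obtain ⟨R, hR⟩ := hcl _ _ hP.2
      have h3 := hq P P₀
      have h4 := hq0 (P + P₀)
      have h5 := hs P hP.1
      have h6 := hs P₀ hP₀
      have h7 : q (P - P₀) = 4 ^ j * q R := by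
        rw [hR, hq.nsmul]
        push_cast
        rw [← pow_mul, mul_comm j 2, pow_mul]
        norm_num
      have h8 : q R < lam := by
        by_contra hge
        push Not at hge
        have h9 : (4 : ℝ) ^ j * lam ≤ 4 ^ j * q R := mul_le_mul_of_nonneg_left hge (by positivity)
        linarith
      obtain ⟨k, hk, hkR⟩ := hlam R h8
      refine ⟨k, hk, ?_⟩
      rw [hR, smul_comm, hkR, smul_zero]
    rwa [Finset.card_image_of_injective _ (sub_left_injective)] at h2
  have h2 : (s.image cl).card ≤ M ^ j := by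
    calc _ ≤ Fintype.card (Fin j → Fin M) := Finset.card_le_univ _
      _ = M ^ j := by simp
  exact h1.trans (Nat.mul_le_mul_left _ h2)

end Pool.Agent.K3H
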