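import Pool.Agent.K3H.Sel
import Pool.Agent.K3H.Halve
import Pool.Agent.K3H.Pigeon

/-!
Bound for `E_D(K) / 2 E_D(K)` in terms of the primes where `D` has odd valuation
(elliptic curves with full rational 2-torsion).
-/

namespace Pool.Agent.K3H

open IsDedekindDomain NumberField WithZero WeierstrassCurve WeierstrassCurve.Affine

variable (K : Type*) [Field K] [NumberField K]

/-- Square classes unramified outside a finite set `S`: at most `2^|S| N` of them. -/
theorem selS : ∃ N : ℕ, ∀ S : Finset (HeightOneSpectrum (𝓞 K)), ∃ κ : K → Fin (2 ^ S.card * N),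
    ∀ x y : K, x ≠ 0 → y ≠ 0 → EvenOutside (S : Set _) x → EvenOutside (S : Set _) y →
    κ x = κ y → IsSquare (x * y) := by
  classical
  obtain ⟨N, κ₀, h₀⟩ := sel0 K
  refine ⟨N, fun S => ?_⟩
  let par : K → (S → Bool) := fun x v => decide (IsSquare ((v : HeightOneSpectrum (𝓞 K)).valuation K x))
  have hpar : ∀ x y : K, x ≠ 0 → y ≠ 0 → EvenOutside (S : Set _) x → EvenOutside (S : Set _) y →
      par x = par y → EvenOutside ∅ (x * y) := by
    intro x y hx hy hx2 hy2 hp v _
    rw [map_mul]
    by_cases hv : v ∈ S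
    · have h1 := congrFun hp ⟨v, hv⟩
      simp only [par, decide_eq_decide] at h1
      by_cases h2 : IsSquare (v.valuation K x)
      · exact h2.mul (h1.mp h2)
      · exact isSquare_mul_of_not ((Valuation.ne_zero_iff _).mpr hx)
          ((Valuation.ne_zero_iff _).mpr hy) h2 (fun h3 => h2 (h1.mpr h3))
    · exact (hx2 v (by exact_mod_cast hv)).mul (hy2 v (by exact_mod_cast hv))
  let rep : (S → Bool) → K := fun c =>
    if h : ∃ x : K, x ≠ 0 ∧ EvenOutside (S : Set _) x ∧ par x = c then h.choose else 1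
  have hrep : ∀ x : K, x ≠ 0 → EvenOutside (S : Set _) x →
      rep (par x) ≠ 0 ∧ EvenOutside (S : Set _) (rep (par x)) ∧ par (rep (par x)) = par x := by
    intro x hx hx2
    have h : ∃ y : K, y ≠ 0 ∧ EvenOutside (S : Set _) y ∧ par y = par x := ⟨x, hx, hx2, rfl⟩
    simp only [rep, dif_pos h]
    exact h.choose_spec
  let e : ((S → Bool) × Fin N) ≃ Fin (2 ^ S.card * N) :=
    Fintype.equivFinOfCardEq (by simp)
  refine ⟨fun x => e (par x, κ₀ (x * rep (par x))), ?_⟩
  intro x y hx hy hx2 hy2 hxy
  have h2 := e.injective hxy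
  rw [Prod.mk.injEq] at h2
  obtain ⟨g1, g2, g3⟩ := hrep x hx hx2
  have e1 := hpar x _ hx g1 hx2 g2 g3.symm
  have e2 := hpar y _ hy g1 hy2 g2 (h2.1.symm.trans g3.symm)
  have h3 := h2.2
  rw [← h2.1] at h3
  have h4 := h₀ _ _ (mul_ne_zero hx g1) (mul_ne_zero hy g1) e1 e2 h3
  obtain ⟨w, hw⟩ := h4
  refine ⟨w / rep (par x), ?_⟩
  field_simp
  linear_combination hw

variable {K}

/-- Local analysis: outside the bad primes the valuations of `x - D e_i` are even. -/
lemma even_local {v : HeightOneSpectrum (𝓞 K)} {D e₁ e₂ e₃ x y : K} (hD : D ≠ 0)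
    (d12 : v.valuation K (e₁ - e₂) = 1)
    (d13 : v.valuation K (e₁ - e₃) = 1)
    (hsq : IsSquare (v.valuation K D)) (hy : y ≠ 0)
    (h : y ^ 2 = (x - D * e₁) * (x - D * e₂) * (x - D * e₃)) :
    IsSquare (v.valuation K (x - D * e₁)) := by
  set w := v.valuation K with hw
  have hDv : w D ≠ 0 := (Valuation.ne_zero_iff _).mpr hD
  have hyv : w y ≠ 0 := (Valuation.ne_zero_iff _).mpr hy
  have hv := congrArg w h
  rw [map_pow, map_mul, map_mul] at hv
  -- differences
  have k2 : x - D * e₂ = (x - D * e₁) + D * (e₁ - e₂) := by ring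
  have k3 : x - D * e₃ = (x - D * e₁) + D * (e₁ - e₃) := by ring
  have v2 : w (D * (e₁ - e₂)) = w D := by rw [map_mul, d12, mul_one]
  have v3 : w (D * (e₁ - e₃)) = w D := by rw [map_mul, d13, mul_one]
  rcases lt_trichotomy (w (x - D * e₁)) (w D) with hlt | heq | hgt
  · -- the factor is small, the other two have valuation `w D`
    have h2 : w (x - D * e₂) = w D := by
      rw [k2, Valuation.map_add_eq_of_lt_right _ (by rw [v2]; exact hlt), v2]
    have h3 : w (x - D * e₃) = w D := by
      rw [k3, Valuation.map_add_eq_of_lt_right _ (by rw [v3]; exact hlt), v3]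
    rw [h2, h3] at hv
    refine ⟨w y / w D, ?_⟩
    field_simp
    rw [mul_assoc] at hv
    rw [hv, sq]
  · rw [heq]; exact hsq
  · have h2 : w (x - D * e₂) = w (x - D * e₁) := by
      rw [k2, Valuation.map_add_eq_of_lt_left _ (by rw [v2]; exact hgt)]
    have h3 : w (x - D * e₃) = w (x - D * e₁) := by
      rw [k3, Valuation.map_add_eq_of_lt_left _ (by rw [v3]; exact hgt)]
    rw [h2, h3] at hv
    have h0 : w (x - D * e₁) ≠ 0 := fun h0 => by
      rw [h0] at hgt
      exact absurd hgt not_lt_zero
    refine ⟨w y / w (x - D * e₁), ?_⟩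
    field_simp
    rw [hv, pow_succ, sq]

/-- The bound for `E_D(K) / 2 E_D(K)`. -/
theorem half_bound [DecidableEq K] : ∃ N : ℕ, ∀ (e₁ e₂ e₃ : K), e₁ + e₂ + e₃ = 0 →
    e₁ ≠ e₂ → e₁ ≠ e₃ → e₂ ≠ e₃ → ∀ (D : K), D ≠ 0 →
    ∀ S : Finset (HeightOneSpectrum (𝓞 K)),
    (∀ v ∉ S, IsSquare (v.valuation K D) ∧ v.valuation K (e₁ - e₂) = 1 ∧
      v.valuation K (e₁ - e₃) = 1 ∧ v.valuation K (e₂ - e₃) = 1) →
    HalfBound (tw (e₁ * e₂ + e₁ * e₃ + e₂ * e₃) (-(e₁ * e₂ * e₃)) D).Point
      (4 + (2 ^ S.card * N) ^ 2) := by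
  obtain ⟨N, hN⟩ := selS K
  refine ⟨N, ?_⟩
  intro e₁ e₂ e₃ hs h12 h13 h23 D hD S hS
  have hNS := hN S
  generalize 2 ^ S.card * N = M at hNS ⊢
  obtain ⟨κ, hκ⟩ := hNS
  set a := e₁ * e₂ + e₁ * e₃ + e₂ * e₃ with ha
  set b := -(e₁ * e₂ * e₃) with hb
  have hA : a * D ^ 2 = (D * e₁) * (D * e₂) + (D * e₁) * (D * e₃) + (D * e₂) * (D * e₃) := by
    rw [ha]; ring
  have hB : b * D ^ 3 = -((D * e₁) * (D * e₂) * (D * e₃)) := by rw [hb]; ring
  have hs' : D * e₁ + D * e₂ + D * e₃ = 0 := by rw [← mul_add, ← mul_add, hs, mul_zero]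
  have n12 : D * e₁ ≠ D * e₂ := fun h => h12 (mul_left_cancel₀ hD h)
  have n13 : D * e₁ ≠ D * e₃ := fun h => h13 (mul_left_cancel₀ hD h)
  have n23 : D * e₂ ≠ D * e₃ := fun h => h23 (mul_left_cancel₀ hD h)
  let e : (Fin 4 ⊕ (Fin M × Fin M)) ≃ Fin (4 + M ^ 2) :=
    Fintype.equivFinOfCardEq (by simp [sq])
  let cl : (tw a b D).Point → Fin 4 ⊕ (Fin M × Fin M) := fun P =>
    match P with
    | .zero => Sum.inl 0
    | .some x y _ =>
      if y = 0 then
        if x = D * e₁ then Sum.inl 1 else if x = D * e₂ then Sum.inl 2 else Sum.inl 3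
      else Sum.inr (κ (x - D * e₁), κ (x - D * e₂))
  have fac : ∀ {x y : K}, (tw a b D).Nonsingular x y →
      y ^ 2 = (x - D * e₁) * (x - D * e₂) * (x - D * e₃) := by
    intro x y h
    rw [sw_eq h, hA, hB]
    linear_combination (x ^ 2) * hs'
  refine ⟨fun P => e (cl P), ?_⟩
  intro P Q hPQ
  have hcl : cl P = cl Q := e.injective hPQ
  cases P with
  | zero =>
    cases Q with
    | zero => exact ⟨0, by simp⟩
    | some x y h =>
      exfalso
      simp only [cl] at hcl
      split_ifs at hcl <;> simp at hcl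
  | some x y h =>
    cases Q with
    | zero =>
      exfalso
      simp only [cl] at hcl
      split_ifs at hcl <;> simp at hcl
    | some x' y' h' =>
      by_cases hy : y = 0
      · by_cases hy' : y' = 0
        · -- both 2-torsion
          have f1 := fac h
          have f2 := fac h'
          rw [hy] at f1
          rw [hy'] at f2
          have hx : x = x' := by
            simp only [cl, hy, hy', if_true] at hcl
            have g1 : x = D * e₁ ∨ x = D * e₂ ∨ x = D * e₃ := by
              have : (x - D * e₁) * (x - D * e₂) * (x - D * e₃) = 0 := by rw [← f1]; ring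
              rcases mul_eq_zero.mp this with h0 | h0
              · rcases mul_eq_zero.mp h0 with h0 | h0
                · exact Or.inl (sub_eq_zero.mp h0)
                · exact Or.inr (Or.inl (sub_eq_zero.mp h0))
              · exact Or.inr (Or.inr (sub_eq_zero.mp h0))
            have g2 : x' = D * e₁ ∨ x' = D * e₂ ∨ x' = D * e₃ := by
              have : (x' - D * e₁) * (x' - D * e₂) * (x' - D * e₃) = 0 := by rw [← f2]; ring
              rcases mul_eq_zero.mp this with h0 | h0
              · rcases mul_eq_zero.mp h0 with h0 | h0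
                · exact Or.inl (sub_eq_zero.mp h0)
                · exact Or.inr (Or.inl (sub_eq_zero.mp h0))
              · exact Or.inr (Or.inr (sub_eq_zero.mp h0))
            rcases g1 with g1 | g1 | g1 <;> rcases g2 with g2 | g2 | g2 <;>
              simp [g1, g2, n12.symm, n13.symm, n23.symm] at hcl ⊢
          subst hx
          subst hy
          subst hy'
          exact ⟨0, by simp⟩
        · exfalso
          simp only [cl, hy, hy', if_true, if_false] at hcl
          split_ifs at hcl
      · by_cases hy' : y' = 0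
        · exfalso
          simp only [cl, hy, hy', if_true, if_false] at hcl
          split_ifs at hcl
        · simp only [cl, hy, hy', if_false, Sum.inr.injEq, Prod.mk.injEq] at hcl
          have f1 := fac h
          have f2 := fac h'
          have hne : (x - D * e₁) * (x - D * e₂) * (x - D * e₃) ≠ 0 := by
            rw [← f1]; exact pow_ne_zero 2 hy
          have hne' : (x' - D * e₁) * (x' - D * e₂) * (x' - D * e₃) ≠ 0 := by
            rw [← f2]; exact pow_ne_zero 2 hy'
          have g1 : x - D * e₁ ≠ 0 := left_ne_zero_of_mul (left_ne_zero_of_mul hne)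
          have g2 : x - D * e₂ ≠ 0 := right_ne_zero_of_mul (left_ne_zero_of_mul hne)
          have g3 : x - D * e₃ ≠ 0 := right_ne_zero_of_mul hne
          have g1' : x' - D * e₁ ≠ 0 := left_ne_zero_of_mul (left_ne_zero_of_mul hne')
          have g2' : x' - D * e₂ ≠ 0 := right_ne_zero_of_mul (left_ne_zero_of_mul hne')
          have g3' : x' - D * e₃ ≠ 0 := right_ne_zero_of_mul hne'
          have val_sub : ∀ (v : HeightOneSpectrum (𝓞 K)) (s t : K),
              v.valuation K (s - t) = v.valuation K (t - s) := fun v s t =>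
            Valuation.map_sub_swap _ _ _
          have ev : ∀ {x y : K}, y ≠ 0 → y ^ 2 = (x - D * e₁) * (x - D * e₂) * (x - D * e₃) →
              EvenOutside (S : Set _) (x - D * e₁) ∧ EvenOutside (S : Set _) (x - D * e₂) := by
            intro x y hy f
            constructor
            · intro v hv
              obtain ⟨s1, s2, s3, s4⟩ := hS v (by exact_mod_cast hv)
              exact even_local hD s2 s3 s1 hy f
            · intro v hv
              obtain ⟨s1, s2, s3, s4⟩ := hS v (by exact_mod_cast hv)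
              refine even_local (e₁ := e₂) (e₂ := e₁) (e₃ := e₃) hD (by rw [val_sub]; exact s2) s4 s1
                hy (by rw [f]; ring)
          have E := ev hy f1
          have E' := ev hy' f2
          have q1 := hκ _ _ g1 g1' E.1 E'.1 hcl.1
          have q2 := hκ _ _ g2 g2' E.2 E'.2 hcl.2
          have q3 : IsSquare ((x - D * e₃) * (x' - D * e₃)) := by
            obtain ⟨w1, hw1⟩ := q1
            obtain ⟨w2, hw2⟩ := q2
            have k1 : w1 ≠ 0 := fun h0 => (mul_ne_zero g1 g1') (by rw [hw1, h0]; ring)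
            have k2 : w2 ≠ 0 := fun h0 => (mul_ne_zero g2 g2') (by rw [hw2, h0]; ring)
            refine ⟨y * y' / (w1 * w2), ?_⟩
            have k3 : (y * y') ^ 2 = (w1 * w2) ^ 2 * ((x - D * e₃) * (x' - D * e₃)) := by
              calc (y * y') ^ 2 = y ^ 2 * y' ^ 2 := by ring
                _ = ((x - D * e₁) * (x' - D * e₁)) * ((x - D * e₂) * (x' - D * e₂)) *
                    ((x - D * e₃) * (x' - D * e₃)) := by rw [f1, f2]; ring
                _ = _ := by rw [hw1, hw2]; ring
            field_simp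
            linear_combination -k3
          exact descent hs' hA hB n12 n13 n23 h h' hy hy' q1 q2 q3

end Pool.Agent.K3H
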