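import Pool.Agent.K3H.TwCount

/-!
Heights under field extension (crude comparison), and the uniform count of points on twists for
an arbitrary elliptic curve.
-/

namespace Pool.Agent.K3H

open IsDedekindDomain NumberField Height WeierstrassCurve WeierstrassCurve.Affine Polynomial

variable {K : Type*} [Field K] [NumberField K] {L : Type*} [Field L] [NumberField L] [Algebra K L]

/-- Height of an algebraic integer from its conjugates. -/
lemma height_int_le (y : 𝓞 L) {R : ℝ} (hR : 1 ≤ R) (h : ∀ φ : L →+* ℂ, ‖φ y‖ ≤ R) :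
    mulHeight₁ (y : L) ≤ R ^ Module.finrank ℚ L := by
  rw [NumberField.mulHeight₁_eq]
  have h1 : ∏ᶠ v : FinitePlace L, max (v (y : L)) 1 = 1 := by
    apply finprod_eq_one_of_forall_eq_one
    intro v
    have h2 : v (y : L) ≤ 1 := by
      have := FinitePlace.norm_le_one L (FinitePlace.maximalIdeal v) y
      rw [← FinitePlace.norm_embedding_eq]
      exact this
    rw [max_eq_right h2]
  rw [h1, mul_one]
  calc ∏ v : InfinitePlace L, max (v (y : L)) 1 ^ v.mult ≤ ∏ v : InfinitePlace L, R ^ v.mult := by
        apply Finset.prod_le_prod (fun _ _ => by positivity)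
        intro v _
        apply pow_le_pow_left₀ (by positivity)
        apply max_le _ hR
        have := h v.embedding
        rwa [InfinitePlace.norm_embedding_eq] at this
    _ = R ^ Module.finrank ℚ L := by
        rw [Finset.prod_pow_eq_pow_sum, InfinitePlace.sum_mult_eq]

variable (K L) in
theorem height_ext : ∀ x : K, logHeight₁ (algebraMap K L x) ≤
    (3 * Module.finrank ℚ L : ℝ) * logHeight₁ x := by
  intro x
  set d := Module.finrank ℚ L with hd
  obtain ⟨n, hn0, hn1, hn2⟩ := exists_nat_le_mulHeight₁ x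
  set T := mulHeight₁ x with hT
  have hT1 : 1 ≤ T := one_le_mulHeight₁ x
  have hn1' : (1 : ℝ) ≤ n := by
    have : 1 ≤ n := Nat.one_le_iff_ne_zero.mpr hn0
    exact_mod_cast this
  let a : 𝓞 K := ⟨(n : K) * x, hn2⟩
  have hint : IsIntegral ℤ (algebraMap K L ((n : K) * x)) := hn2.map (algebraMap K L).toIntAlgHom
  let y : 𝓞 L := ⟨algebraMap K L ((n : K) * x), hint⟩
  have hy : (y : L) = n * algebraMap K L x := by
    show algebraMap K L ((n : K) * x) = _
    rw [map_mul, map_natCast]
  have h1 : mulHeight₁ (y : L) ≤ (T ^ 2) ^ d := by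
    apply height_int_le y (one_le_pow₀ hT1)
    intro φ
    rw [hy, map_mul, norm_mul, map_natCast, Complex.norm_natCast, sq]
    apply mul_le_mul hn1 _ (norm_nonneg _) (by linarith)
    exact embed_le_height K x (φ.comp (algebraMap K L))
  have h2 : mulHeight₁ ((n : L)) ≤ T ^ d := by
    have h3 : mulHeight₁ (((n : 𝓞 L)) : L) ≤ T ^ d := by
      apply height_int_le (n : 𝓞 L) hT1
      intro φ
      have : φ ((n : 𝓞 L) : L) = n := by simp
      rw [this, Complex.norm_natCast]
      exact hn1
    simpa using h3
  have hnL : (n : L) ≠ 0 := by exact_mod_cast hn0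
  have h3 : algebraMap K L x = (y : L) * (n : L)⁻¹ := by rw [hy]; field_simp
  have h4 : mulHeight₁ (algebraMap K L x) ≤ (T ^ 2) ^ d * T ^ d := by
    rw [h3]
    calc _ ≤ mulHeight₁ (y : L) * mulHeight₁ ((n : L)⁻¹) := mulHeight₁_mul_le _ _
      _ = mulHeight₁ (y : L) * mulHeight₁ (n : L) := by rw [mulHeight₁_inv]
      _ ≤ _ := mul_le_mul h1 h2 (by positivity) (by positivity)
  rw [logHeight₁_eq_log_mulHeight₁, logHeight₁_eq_log_mulHeight₁]
  calc Real.log (mulHeight₁ (algebraMap K L x)) ≤ Real.log ((T ^ 2) ^ d * T ^ d) :=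
        Real.log_le_log (by positivity) h4
    _ = 3 * d * Real.log T := by
        rw [← pow_mul, ← pow_add, Real.log_pow]
        push_cast
        ring

/-- The map on points under field extension. -/
lemma exists_ext_map (A B : K) {A' B' : L} (hA : algebraMap K L A = A')
    (hB : algebraMap K L B = B') : ∃ φ : (sw A B).Point → (sw A' B').Point,
    Function.Injective φ ∧ ∀ (D : K) (P : (sw A B).Point),
      xi (algebraMap K L D) (φ P) = (xi D P).map (algebraMap K L) := by
  subst hA
  subst hB
  have hns : ∀ {x y : K}, (sw A B).Nonsingular x y →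
      (sw (algebraMap K L A) (algebraMap K L B)).Nonsingular (algebraMap K L x) (algebraMap K L y) := by
    intro x y h
    rw [Affine.nonsingular_iff, Affine.equation_iff] at h ⊢
    simp only [sw_a1, sw_a2, sw_a3, sw_a4, sw_a6, zero_mul, mul_zero, add_zero, sub_zero] at h ⊢
    refine ⟨?_, ?_⟩
    · rw [← map_pow, h.1]; simp
    · rcases h.2 with h2 | h2
      · left
        intro h0
        apply h2
        apply (algebraMap K L).injective
        rw [map_zero, h0, map_add, map_mul, map_pow, map_ofNat]
      · right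
        intro h0
        apply h2
        apply (algebraMap K L).injective
        rw [map_neg]
        exact h0
  let φ : (sw A B).Point → (sw (algebraMap K L A) (algebraMap K L B)).Point := fun P =>
    match P with
    | .zero => .zero
    | .some x y h => .some _ _ (hns h)
  refine ⟨φ, ?_, ?_⟩
  · intro P Q h
    cases P with
    | zero =>
      cases Q with
      | zero => rfl
      | some x y h2 => simp [φ] at h
    | some x y h1 =>
      cases Q with
      | zero => simp [φ] at h
      | some x₂ y₂ h2 =>
        simp only [φ, Point.some.injEq] at h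
        have e1 := (algebraMap K L).injective h.1
        have e2 := (algebraMap K L).injective h.2
        simp [e1, e2]
  · intro D P
    cases P with
    | zero => rfl
    | some x y h1 =>
      show xi _ (Point.some _ _ _) = _
      rw [xi_some, xi_some, Option.map_some, map_div₀]

theorem count_points [DecidableEq K] {a b : K} (hd : 4 * a ^ 3 + 27 * b ^ 2 ≠ 0) (η : ℝ)
    (hη : 0 < η) : ∃ Cη : ℝ, 0 ≤ Cη ∧ ∀ D : K, D ≠ 0 → ∀ H : ℝ, 0 ≤ H →
      ∀ s : Finset (tw a b D).Point,
      (∀ P ∈ s, ht D P ≤ H) → (s.card : ℝ) ≤ Cη * Real.exp (η * H) := by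
  classical
  let L := (fp a b).SplittingField
  have : CharZero L := charZero_of_injective_algebraMap (algebraMap K L).injective
  have : NumberField L := NumberField.of_module_finite K L
  have hsp : ((fp a b).map (algebraMap K L)).Splits := SplittingField.splits _
  have hmon : (fp a b).Monic := by
    unfold fp
    monicity!
  have hdeg : (fp a b).natDegree = 3 := by
    unfold fp
    compute_degree!
  have hcard : ((fp a b).map (algebraMap K L)).roots.card = 3 := by
    rw [← hsp.natDegree_eq_card_roots, hmon.natDegree_map, hdeg]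
  obtain ⟨e₁, e₂, e₃, he⟩ := Multiset.card_eq_three.mp hcard
  have hprod : (fp a b).map (algebraMap K L) = (X - C e₁) * (X - C e₂) * (X - C e₃) := by
    have := hsp.eq_prod_roots_of_monic (hmon.map _)
    rw [he] at this
    rw [this]
    simp
    ring
  set a' := algebraMap K L a with ha'
  set b' := algebraMap K L b with hb'
  have hev : ∀ t : L, t ^ 3 + a' * t + b' = (t - e₁) * (t - e₂) * (t - e₃) := by
    intro t
    have := congrArg (fun p => p.eval t) hprod
    simpa [fp] using this
  have t0 := hev 0
  have t1 := hev 1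
  have t2 := hev (-1)
  have c2 : e₁ + e₂ + e₃ = 0 := by
    have h2 : (2 : L) ≠ 0 := two_ne_zero
    apply mul_left_cancel₀ h2
    linear_combination t1 + t2 - 2 * t0
  have c0 : b' = -(e₁ * e₂ * e₃) := by linear_combination t0
  have c1 : a' = e₁ * e₂ + e₁ * e₃ + e₂ * e₃ := by
    linear_combination t1 - c2 - t0
  have hd' : 4 * a' ^ 3 + 27 * b' ^ 2 ≠ 0 := by
    intro h0
    apply hd
    apply (algebraMap K L).injective
    rw [map_zero, ← h0, ha', hb', map_add, map_mul, map_mul, map_pow, map_pow, map_ofNat,
      map_ofNat]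
  have hdisc : 4 * a' ^ 3 + 27 * b' ^ 2 = -((e₁ - e₂) * (e₁ - e₃) * (e₂ - e₃)) ^ 2 := by
    have h3 : e₃ = -e₁ - e₂ := by linear_combination c2
    rw [c1, c0, h3]; ring
  have h12 : e₁ ≠ e₂ := by
    rintro rfl; apply hd'; rw [hdisc]; ring
  have h13 : e₁ ≠ e₃ := by
    rintro rfl; apply hd'; rw [hdisc]; ring
  have h23 : e₂ ≠ e₃ := by
    rintro rfl; apply hd'; rw [hdisc]; ring
  set dL : ℝ := 3 * Module.finrank ℚ L with hdL
  have hdL0 : 0 ≤ dL := by positivity
  obtain ⟨Cη, hC0, hC⟩ := count_full c2 h12 h13 h23 (η / (dL + 1)) (by positivity)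
  refine ⟨Cη, hC0, ?_⟩
  intro D hD H hH s hsH
  rw [← c1, ← c0] at hC
  have hDL : algebraMap K L D ≠ 0 := by
    rw [Ne, FaithfulSMul.algebraMap_eq_zero_iff]; exact hD
  have hA : algebraMap K L (a * D ^ 2) = a' * (algebraMap K L D) ^ 2 := by
    rw [ha', map_mul, map_pow]
  have hB : algebraMap K L (b * D ^ 3) = b' * (algebraMap K L D) ^ 3 := by
    rw [hb', map_mul, map_pow]
  obtain ⟨φ, hφ, hφ2⟩ := exists_ext_map (L := L) (a * D ^ 2) (b * D ^ 3) hA hB
  have h1 := hC (algebraMap K L D) hDL (dL * H) (by positivity) (s.image φ) (by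
    intro Q hQ
    obtain ⟨P, hP, rfl⟩ := Finset.mem_image.mp hQ
    rw [ht_eq_oh, hφ2]
    have h2 := hsH P hP
    rw [ht_eq_oh] at h2
    cases hxi : xi D P with
    | none =>
      simp only [Option.map_none, oh]
      positivity
    | some x =>
      rw [hxi] at h2
      simp only [Option.map_some, oh] at h2 ⊢
      exact (height_ext K L x).trans (mul_le_mul_of_nonneg_left h2 hdL0))
  rw [Finset.card_image_of_injective _ hφ] at h1
  refine h1.trans (mul_le_mul_of_nonneg_left (Real.exp_le_exp.mpr ?_) hC0)
  rw [div_mul_eq_mul_div, div_le_iff₀ (by positivity)]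
  nlinarith [mul_nonneg hη.le hH]

end Pool.Agent.K3H
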