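import Pool.Agent.K3H.Schan

/-!
Lower bound, of order the square of the bound, for the number of elements of a number field
of bounded relative height.
-/

namespace Pool.Agent.K3H

open NumberField Height Module

variable (K : Type*) [Field K] [NumberField K]

omit [NumberField K] in
lemma coe_mul_int (p q : 𝓞 K) : ((p * q : 𝓞 K) : K) = (p : K) * (q : K) :=
  map_mul (algebraMap (𝓞 K) K) p q

/-- Number of algebraic integers all of whose conjugates are bounded. -/
lemma int_count : ∃ c : ℝ, 0 ≤ c ∧ ∀ (Y : ℝ) (s : Finset (𝓞 K)), 0 ≤ Y →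
    (∀ x ∈ s, ∀ φ : K →+* ℂ, ‖φ x‖ ≤ Y) → (s.card : ℝ) ≤ (c * Y + 1) ^ (finrank ℚ K) := by
  classical
  obtain ⟨c, hc0, hc⟩ := coord_bound K
  set ι := Free.ChooseBasisIndex ℤ (𝓞 K)
  have hcard : Fintype.card ι = finrank ℚ K := by
    rw [← RingOfIntegers.rank K, finrank_eq_card_chooseBasisIndex]
  refine ⟨2 * c, by positivity, ?_⟩
  intro Y s hY hs
  set M : ℕ := ⌊c * Y⌋₊ with hM
  let box : Finset (ι → ℤ) := Fintype.piFinset (fun _ => Finset.Icc (-(M : ℤ)) M)
  have hmem : ∀ a ∈ s, (fun i => (RingOfIntegers.basis K).repr a i) ∈ box := by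
    intro a ha
    rw [Fintype.mem_piFinset]
    intro i
    have h1 := hc a Y (hs a ha) i
    rw [Finset.mem_Icc, ← abs_le]
    have h2 : ((|(RingOfIntegers.basis K).repr a i|).toNat : ℝ) ≤ c * Y := by
      have h3 : (((|(RingOfIntegers.basis K).repr a i|).toNat : ℤ) : ℝ) =
          |(((RingOfIntegers.basis K).repr a i : ℤ) : ℝ)| := by
        rw [Int.toNat_of_nonneg (abs_nonneg _)]
        push_cast
        rfl
      rw [← h3] at h1
      exact_mod_cast h1
    have h4 := Nat.le_floor h2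
    show |(RingOfIntegers.basis K).repr a i| ≤ (M : ℤ)
    omega
  have h1 : s.card ≤ box.card := by
    apply Finset.card_le_card_of_injOn (fun a => fun i => (RingOfIntegers.basis K).repr a i)
    · intro a ha
      exact hmem a ha
    · intro a _ b _ hab
      apply (RingOfIntegers.basis K).repr.injective
      ext i
      exact congrFun hab i
  rw [Fintype.card_piFinset] at h1
  simp only [Finset.prod_const, Finset.card_univ, Int.card_Icc] at h1
  have h3 : ((M : ℤ) + 1 - -(M : ℤ)).toNat = 2 * M + 1 := by omega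
  rw [h3, hcard] at h1
  have h4 : (s.card : ℝ) ≤ (2 * M + 1) ^ (finrank ℚ K) := by exact_mod_cast h1
  have h6 : (M : ℝ) ≤ c * Y := Nat.floor_le (by positivity)
  exact h4.trans (pow_le_pow_left₀ (by positivity) (by linarith) _)

/-- Balanced representatives: every element is a quotient of integers with all the local
maxima comparable to the right power of the height. -/
lemma balanced : ∃ (N0 : ℕ) (C : ℝ), 1 ≤ N0 ∧ 1 ≤ C ∧ ∀ x : K, ∃ α β : 𝓞 K, β ≠ 0 ∧
    x = (α : K) / (β : K) ∧ (Ideal.span (Set.range ![α, β])).absNorm ≤ N0 ∧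
    (∀ v : InfinitePlace K, mulHeight₁ x ^ ((finrank ℚ K : ℝ)⁻¹) ≤
      C * max (v (α : K)) (v (β : K))) := by
  classical
  obtain ⟨C1, hC1, hU⟩ := unit_scale K
  obtain ⟨N0, hN0, hR⟩ := exists_rep_frac K
  set d := finrank ℚ K with hd
  have hdpos : (0 : ℝ) < d := by exact_mod_cast (finrank_pos (R := ℚ) (M := K))
  set e : ℝ := (d : ℝ)⁻¹ with he
  have he0 : 0 < e := inv_pos.mpr hdpos
  set A : ℝ := max 1 (C1 * N0 ^ e) with hA
  have hA1 : 1 ≤ A := le_max_left _ _
  refine ⟨⌈N0⌉₊, A ^ d, ?_, one_le_pow₀ hA1, ?_⟩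
  · exact Nat.one_le_iff_ne_zero.mpr (by positivity)
  intro x
  obtain ⟨α, β, hβ, hxe, hN⟩ := hR x
  have hβK : (β : K) ≠ 0 := by exact_mod_cast hβ
  have hm : ∀ v : InfinitePlace K, 0 < max (v (α : K)) (v (β : K)) := fun v =>
    lt_max_of_lt_right (v.pos_iff.mpr hβK)
  obtain ⟨u, hu⟩ := hU _ hm
  have hprod := arch_part K (α := α) hβ
  rw [← hxe] at hprod
  have hH1 : 1 ≤ mulHeight₁ x := one_le_mulHeight₁ x
  have hH0 : 0 < mulHeight₁ x := by linarith
  have hnorm1 : (1 : ℝ) ≤ (Ideal.span (Set.range ![α, β])).absNorm := by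
    have : (Ideal.span (Set.range ![α, β])).absNorm ≠ 0 := by
      rw [Ne, Ideal.absNorm_eq_zero_iff]
      intro h
      apply hβ
      have : β ∈ Ideal.span (Set.range ![α, β]) := Ideal.subset_span ⟨1, rfl⟩
      rw [h] at this
      simpa using this
    exact_mod_cast Nat.one_le_iff_ne_zero.mpr this
  have huK : algebraMap (𝓞 K) K (u : 𝓞 K) ≠ 0 := (u.isUnit.map (algebraMap (𝓞 K) K)).ne_zero
  set β' : 𝓞 K := (u : 𝓞 K) * β with hβ'
  set α' : 𝓞 K := (u : 𝓞 K) * α with hα'
  have hβ'0 : β' ≠ 0 := mul_ne_zero (Units.ne_zero u) hβ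
  have hspan : Ideal.span (Set.range ![α', β']) = Ideal.span (Set.range ![α, β]) := by
    have hr : ∀ p q : 𝓞 K, Set.range ![p, q] = {p, q} := by
      intro p q
      ext t
      simp [eq_comm, or_comm]
    rw [hr, hr]
    apply le_antisymm
    · rw [Ideal.span_le]
      intro t ht
      rcases ht with rfl | ht
      · exact Ideal.mul_mem_left _ _ (Ideal.subset_span (by simp))
      · rw [Set.mem_singleton_iff] at ht
        rw [ht]
        exact Ideal.mul_mem_left _ _ (Ideal.subset_span (by simp))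
    · rw [Ideal.span_le]
      intro t ht
      rcases ht with rfl | ht
      · have : t = (↑(u⁻¹) : 𝓞 K) * α' := by rw [hα', ← mul_assoc, Units.inv_mul, one_mul]
        rw [this]
        exact Ideal.mul_mem_left _ _ (Ideal.subset_span (by simp))
      · rw [Set.mem_singleton_iff] at ht
        have : t = (↑(u⁻¹) : 𝓞 K) * β' := by rw [ht, hβ', ← mul_assoc, Units.inv_mul, one_mul]
        rw [this]
        exact Ideal.mul_mem_left _ _ (Ideal.subset_span (by simp))
  refine ⟨α', β', hβ'0, ?_, ?_, ?_⟩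
  · rw [hxe, hα', hβ', coe_mul_int, coe_mul_int]
    exact (mul_div_mul_left _ _ huK).symm
  · rw [hspan]
    exact_mod_cast hN.trans (Nat.le_ceil N0)
  · intro v
    set m : InfinitePlace K → ℝ := fun w => max (w (α' : K)) (w (β' : K)) with hmdef
    have hmw : ∀ w : InfinitePlace K, m w = w (u : K) * max (w (α : K)) (w (β : K)) := by
      intro w
      simp only [hmdef, hα', hβ']
      rw [coe_mul_int, coe_mul_int, map_mul, map_mul, ← mul_max_of_nonneg _ _ (apply_nonneg w _)]
    set Mx : ℝ := A * mulHeight₁ x ^ e with hMx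
    have hMx0 : 0 < Mx := by positivity
    have hle : ∀ w, m w ≤ Mx := by
      intro w
      rw [hmw, hMx]
      refine (hu w).trans ?_
      have h1 : (∏ v : InfinitePlace K, (max (v (α : K)) (v (β : K))) ^ v.mult) ^ e ≤
          N0 ^ e * mulHeight₁ x ^ e := by
        rw [hprod, mul_comm, ← Real.mul_rpow (by linarith) hH0.le]
        apply Real.rpow_le_rpow (by positivity) _ he0.le
        exact mul_le_mul_of_nonneg_right hN hH0.le
      calc _ ≤ C1 * (N0 ^ e * mulHeight₁ x ^ e) := mul_le_mul_of_nonneg_left h1 hC1.le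
        _ = (C1 * N0 ^ e) * mulHeight₁ x ^ e := by ring
        _ ≤ A * mulHeight₁ x ^ e := mul_le_mul_of_nonneg_right (le_max_right _ _) (by positivity)
    have hm0 : ∀ w, 0 < m w := by
      intro w
      rw [hmw]
      exact mul_pos (w.pos_iff.mpr huK) (hm w)
    have hprod2 : mulHeight₁ x ≤ ∏ w : InfinitePlace K, m w ^ w.mult := by
      have h2 := arch_part K (α := α') hβ'0
      have h3 : (α' : K) / (β' : K) = x := by
        rw [hxe, hα', hβ', coe_mul_int, coe_mul_int]
        exact mul_div_mul_left _ _ huK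
      rw [h3, hspan] at h2
      show _ ≤ ∏ w : InfinitePlace K, (max (w (α' : K)) (w (β' : K))) ^ w.mult
      rw [h2]
      nlinarith
    have hsplit : ∏ w : InfinitePlace K, (m w / Mx) ^ w.mult ≤ m v / Mx := by
      rw [← Finset.mul_prod_erase _ _ (Finset.mem_univ v)]
      have h1 : (m v / Mx) ^ v.mult ≤ m v / Mx := by
        have h2 : m v / Mx ≤ 1 := (div_le_one hMx0).mpr (hle v)
        calc (m v / Mx) ^ v.mult ≤ (m v / Mx) ^ 1 :=
              pow_le_pow_of_le_one (by have := hm0 v; positivity) h2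
                (Nat.one_le_iff_ne_zero.mpr v.mult_ne_zero)
          _ = _ := pow_one _
      have h3 : ∏ w ∈ Finset.univ.erase v, (m w / Mx) ^ w.mult ≤ 1 := by
        apply Finset.prod_le_one
        · intro w _
          have := hm0 w
          positivity
        · intro w _
          apply pow_le_one₀ (by have := hm0 w; positivity)
          exact (div_le_one hMx0).mpr (hle w)
      have h4 : 0 ≤ m v / Mx := by have := hm0 v; positivity
      calc _ ≤ (m v / Mx) * 1 := mul_le_mul h1 h3 (Finset.prod_nonneg (fun w _ => by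
              have := hm0 w; positivity)) h4
        _ = _ := mul_one _
    have hdiv : ∏ w : InfinitePlace K, (m w / Mx) ^ w.mult =
        (∏ w : InfinitePlace K, m w ^ w.mult) / Mx ^ d := by
      simp_rw [div_pow]
      rw [Finset.prod_div_distrib, Finset.prod_pow_eq_pow_sum, InfinitePlace.sum_mult_eq]
    rw [hdiv] at hsplit
    have hMxd : Mx ^ d = A ^ d * mulHeight₁ x := by
      rw [hMx, mul_pow, ← Real.rpow_natCast (mulHeight₁ x ^ e), ← Real.rpow_mul hH0.le, he,
        inv_mul_cancel₀ hdpos.ne', Real.rpow_one]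
    have h5 : 1 / A ^ d ≤ m v / Mx := by
      refine le_trans ?_ hsplit
      rw [hMxd, div_le_div_iff₀ (by positivity) (by positivity)]
      nlinarith [pow_pos (by linarith : 0 < A) d]
    rw [div_le_div_iff₀ (by positivity) hMx0, one_mul] at h5
    have h6 : mulHeight₁ x ^ e ≤ Mx := by
      rw [hMx]
      exact le_mul_of_one_le_left (by positivity) hA1
    calc _ ≤ Mx := h6
      _ ≤ m v * A ^ d := h5
      _ = A ^ d * m v := mul_comm _ _

/-- Number of ways to write an element as a quotient of bounded integers. -/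
lemma fiber_count : ∃ A : ℝ, 0 ≤ A ∧ ∀ (x : K) (Y : ℝ) (s : Finset (𝓞 K × 𝓞 K)), 0 ≤ Y →
    (∀ p ∈ s, p.2 ≠ 0 ∧ (p.1 : K) / (p.2 : K) = x ∧
      ∀ v : InfinitePlace K, v (p.1 : K) ≤ Y ∧ v (p.2 : K) ≤ Y) →
    (s.card : ℝ) ≤ (A * (Y / mulHeight₁ x ^ ((finrank ℚ K : ℝ)⁻¹)) + 1) ^ (finrank ℚ K) := by
  classical
  obtain ⟨c, hc0, hc⟩ := int_count K
  obtain ⟨N0, C, hN0, hC, hB⟩ := balanced K
  refine ⟨c * (N0 * C), by positivity, ?_⟩
  intro x Y s hY hs
  obtain ⟨α, β, hβ, hxe, hN, hm⟩ := hB x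
  have hβK : (β : K) ≠ 0 := by exact_mod_cast hβ
  set N := (Ideal.span (Set.range ![α, β])).absNorm with hNdef
  have hNne : N ≠ 0 := by
    rw [hNdef, Ne, Ideal.absNorm_eq_zero_iff]
    intro h
    apply hβ
    have : β ∈ Ideal.span (Set.range ![α, β]) := Ideal.subset_span ⟨1, rfl⟩
    rw [h] at this
    simpa using this
  have hNK : (N : K) ≠ 0 := by exact_mod_cast hNne
  have hmemN : ((N : ℕ) : 𝓞 K) ∈ Ideal.span (Set.range ![α, β]) := Ideal.absNorm_mem _
  have hr : Set.range ![α, β] = {α, β} := by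
    ext t
    simp [eq_comm, or_comm]
  rw [hr, Ideal.mem_span_pair] at hmemN
  obtain ⟨p, q, hpq⟩ := hmemN
  have hpqK : (p : K) * α + q * β = N := by
    have := congrArg (algebraMap (𝓞 K) K) hpq
    rw [map_add, map_mul, map_mul, map_natCast] at this
    exact this
  set h : ℝ := mulHeight₁ x ^ ((finrank ℚ K : ℝ)⁻¹) with hh
  have hh0 : 0 < h := Real.rpow_pos_of_pos (by have := one_le_mulHeight₁ x; linarith) _
  -- the integer attached to a pair
  let g : 𝓞 K × 𝓞 K → 𝓞 K := fun t => p * t.1 + q * t.2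
  have hg : ∀ t ∈ s, (g t : K) = N * ((t.2 : K) / β) ∧ (t.1 : K) * β = t.2 * α := by
    intro t ht
    obtain ⟨h1, h2, h3⟩ := hs t ht
    have h1K : (t.2 : K) ≠ 0 := by exact_mod_cast h1
    have h4 : (t.1 : K) * β = t.2 * α := by
      rw [hxe, div_eq_div_iff h1K hβK] at h2
      linear_combination h2
    refine ⟨?_, h4⟩
    have h5 : (g t : K) = (p : K) * t.1 + q * t.2 := by
      show algebraMap (𝓞 K) K (p * t.1 + q * t.2) = _
      rw [map_add, map_mul, map_mul]
    rw [h5, ← hpqK]
    field_simp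
    linear_combination (p : K) * h4
  have hinj : Set.InjOn g s := by
    intro t ht t' ht' htt
    have h1 := hg t ht
    have h2 := hg t' ht'
    have h3 : (t.2 : K) = t'.2 := by
      have : (N : K) * ((t.2 : K) / β) = N * ((t'.2 : K) / β) := by rw [← h1.1, ← h2.1, htt]
      have := mul_left_cancel₀ hNK this
      field_simp at this
      exact this
    have h4 : (t.1 : K) = t'.1 := by
      apply mul_right_cancel₀ hβK
      rw [h1.2, h2.2, h3]
    exact Prod.ext (RingOfIntegers.ext h4) (RingOfIntegers.ext h3)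
  have hcard := hc (N0 * C * (Y / h)) (s.image g) (by positivity) (by
    intro t' ht' φ
    obtain ⟨t, ht, rfl⟩ := Finset.mem_image.mp ht'
    have h1 := hg t ht
    obtain ⟨h2, h3, h4⟩ := hs t ht
    rw [← InfinitePlace.apply φ, h1.1]
    set v := InfinitePlace.mk φ
    rw [map_mul, map_div₀]
    have h5 : v (N : K) = N := by
      rw [← InfinitePlace.norm_embedding_eq, map_natCast, Complex.norm_natCast]
    rw [h5]
    have h6 : v (t.2 : K) / v (β : K) * max (v (α : K)) (v (β : K)) ≤ Y := by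
      rw [mul_max_of_nonneg _ _ (by positivity)]
      apply max_le
      · have h7 : v (t.2 : K) / v (β : K) * v (α : K) = v (t.1 : K) := by
          have hb : v (β : K) ≠ 0 := (v.pos_iff.mpr hβK).ne'
          rw [div_mul_eq_mul_div, div_eq_iff hb]
          have h12 : v ((t.2 : K) * α) = v ((t.1 : K) * β) := by rw [h1.2]
          rw [map_mul v, map_mul v] at h12
          exact h12
        rw [h7]
        exact (h4 v).1
      · have hb : v (β : K) ≠ 0 := (v.pos_iff.mpr hβK).ne'
        rw [div_mul_cancel₀ _ hb]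
        exact (h4 v).2
    have h8 := hm v
    have h9 : v (t.2 : K) / v (β : K) * h ≤ C * Y := by
      have h10 : 0 ≤ v (t.2 : K) / v (β : K) := by positivity
      calc v (t.2 : K) / v (β : K) * h ≤ v (t.2 : K) / v (β : K) * (C * max (v (α : K)) (v (β : K))) :=
            mul_le_mul_of_nonneg_left h8 h10
        _ = C * (v (t.2 : K) / v (β : K) * max (v (α : K)) (v (β : K))) := by ring
        _ ≤ C * Y := mul_le_mul_of_nonneg_left h6 (by linarith)
    have h11 : v (t.2 : K) / v (β : K) ≤ C * Y / h := by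
      rw [le_div_iff₀ hh0]
      exact h9
    have hNN : (N : ℝ) ≤ N0 := by exact_mod_cast hN
    calc (N : ℝ) * (v (t.2 : K) / v (β : K)) ≤ N0 * (C * Y / h) :=
          mul_le_mul hNN h11 (by positivity) (by positivity)
      _ = N0 * C * (Y / h) := by ring)
  rw [Finset.card_image_of_injOn hinj] at hcard
  calc _ ≤ _ := hcard
    _ = _ := by ring_nf

/-- The sum of inverse heights. -/
lemma sum_inv_height : ∃ C : ℝ, 0 < C ∧ ∀ (t : ℝ) (s : Finset K), 0 ≤ t →
    (∀ x ∈ s, mulHeight₁ x ≤ t) → ∑ x ∈ s, (mulHeight₁ x)⁻¹ ≤ C * t := by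
  classical
  obtain ⟨C, hC0, hC⟩ := count_height2 K
  refine ⟨4 * C + 1, by positivity, ?_⟩
  have key : ∀ n : ℕ, ∀ (t : ℝ) (s : Finset K), 0 ≤ t → t < 2 ^ n →
      (∀ x ∈ s, mulHeight₁ x ≤ t) → ∑ x ∈ s, (mulHeight₁ x)⁻¹ ≤ 4 * C * t := by
    intro n
    induction n with
    | zero =>
      intro t s ht ht1 hs
      have : s = ∅ := by
        apply Finset.eq_empty_of_forall_notMem
        intro x hx
        have h1 := hs x hx
        have h2 := one_le_mulHeight₁ x
        simp at ht1
        linarith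
      rw [this, Finset.sum_empty]
      positivity
    | succ n ih =>
      intro t s ht ht1 hs
      by_cases ht2 : t < 1
      · have : s = ∅ := by
          apply Finset.eq_empty_of_forall_notMem
          intro x hx
          have h1 := hs x hx
          have h2 := one_le_mulHeight₁ x
          linarith
        rw [this, Finset.sum_empty]
        positivity
      · push Not at ht2
        rw [← Finset.sum_filter_add_sum_filter_not s (fun x => mulHeight₁ x ≤ t / 2)]
        have h1 := ih (t / 2) (s.filter (fun x => mulHeight₁ x ≤ t / 2)) (by positivity)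
          (by rw [pow_succ] at ht1; linarith) (by
            intro x hx
            exact (Finset.mem_filter.mp hx).2)
        have h2 : ∑ x ∈ s.filter (fun x => ¬ mulHeight₁ x ≤ t / 2), (mulHeight₁ x)⁻¹ ≤
            ∑ x ∈ s.filter (fun x => ¬ mulHeight₁ x ≤ t / 2), (t / 2)⁻¹ := by
          apply Finset.sum_le_sum
          intro x hx
          have := (Finset.mem_filter.mp hx).2
          push Not at this
          exact inv_anti₀ (by positivity) this.le
        rw [Finset.sum_const, nsmul_eq_mul] at h2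
        have h3 := hC t ht2 (s.filter (fun x => ¬ mulHeight₁ x ≤ t / 2)) (by
          intro x hx
          exact hs x (Finset.mem_filter.mp hx).1)
        have h4 : ((s.filter (fun x => ¬ mulHeight₁ x ≤ t / 2)).card : ℝ) * (t / 2)⁻¹ ≤
            2 * C * t := by
          calc _ ≤ (C * t ^ 2) * (t / 2)⁻¹ := mul_le_mul_of_nonneg_right h3 (by positivity)
            _ = 2 * C * t := by field_simp
        linarith
  intro t s ht hs
  obtain ⟨n, hn⟩ := pow_unbounded_of_one_lt t (by norm_num : (1 : ℝ) < 2)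
  have := key n t s ht hn hs
  nlinarith

/-- Lower bound of the order of Schanuel's theorem, along boxes. -/
lemma box_lower : ∃ (c c2 : ℝ), 0 < c ∧ 1 ≤ c2 ∧ ∀ X : ℕ, 1 ≤ X → ∃ s : Finset K,
    (∀ x ∈ s, mulHeight₁ x ≤ (c2 * X) ^ (finrank ℚ K)) ∧
      c * ((X : ℝ) ^ (finrank ℚ K)) ^ 2 ≤ s.card := by
  classical
  obtain ⟨A, hA0, hA⟩ := fiber_count K
  obtain ⟨C, hC0, hC⟩ := sum_inv_height K
  set ι := Free.ChooseBasisIndex ℤ (𝓞 K)
  have hcard : Fintype.card ι = finrank ℚ K := by
    rw [← RingOfIntegers.rank K, finrank_eq_card_chooseBasisIndex]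
  set d := finrank ℚ K with hd
  have hdpos : (0 : ℝ) < d := by exact_mod_cast (finrank_pos (R := ℚ) (M := K))
  have hd1 : 1 ≤ d := finrank_pos (R := ℚ) (M := K)
  set e : ℝ := (d : ℝ)⁻¹ with he
  have he0 : 0 < e := inv_pos.mpr hdpos
  set c2 : ℝ := 1 + ∑ i, ∑ v : InfinitePlace K, v (RingOfIntegers.basis K i : K) with hc2
  have hc21 : 1 ≤ c2 := by
    have : 0 ≤ ∑ i, ∑ v : InfinitePlace K, v (RingOfIntegers.basis K i : K) :=
      Finset.sum_nonneg (fun i _ => Finset.sum_nonneg (fun v _ => apply_nonneg v _))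
    linarith
  have hc20 : 0 < c2 := by linarith
  set A2 : ℝ := ((A + 1) * c2) ^ d with hA2
  have hA20 : 0 < A2 := by positivity
  set δ : ℝ := 1 / (2 * A2 * C) with hδ
  have hδ0 : 0 < δ := by positivity
  refine ⟨δ / (2 * A2), c2, by positivity, hc21, ?_⟩
  intro X hX
  have hX1 : (1 : ℝ) ≤ X := by exact_mod_cast hX
  let box : Finset (ι → ℤ) := Fintype.piFinset (fun _ => Finset.Icc (-(X : ℤ)) X)
  let g0 : (ι → ℤ) → 𝓞 K := fun n => ∑ i, n i • RingOfIntegers.basis K i
  have hg0 : Function.Injective g0 := by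
    intro n m hnm
    have h1 : ∀ n : ι → ℤ, (RingOfIntegers.basis K).repr (g0 n) = Finsupp.equivFunOnFinite.symm n := by
      intro n
      ext i
      exact congrFun ((RingOfIntegers.basis K).repr_sum_self n) i
    have h2 := (h1 n).symm.trans ((congrArg _ hnm).trans (h1 m))
    exact Finsupp.equivFunOnFinite.symm.injective h2
  have hbound : ∀ n ∈ box, ∀ v : InfinitePlace K, v (g0 n : K) ≤ c2 * X := by
    intro n hn v
    have e1 : (g0 n : K) = ∑ i, (n i : K) * (RingOfIntegers.basis K i : K) := by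
      show algebraMap (𝓞 K) K (∑ i, n i • RingOfIntegers.basis K i) = _
      rw [map_sum]
      apply Finset.sum_congr rfl
      intro i _
      rw [zsmul_eq_mul, map_mul, map_intCast]
    rw [e1, ← InfinitePlace.norm_embedding_eq, map_sum]
    calc _ ≤ ∑ i, ‖v.embedding ((n i : K) * (RingOfIntegers.basis K i : K))‖ := norm_sum_le _ _
      _ ≤ ∑ i, (X : ℝ) * v (RingOfIntegers.basis K i : K) := by
          apply Finset.sum_le_sum
          intro i _
          rw [map_mul, norm_mul, map_intCast, InfinitePlace.norm_embedding_eq]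
          apply mul_le_mul_of_nonneg_right _ (apply_nonneg v _)
          have h2 := (Fintype.mem_piFinset.mp hn) i
          rw [Finset.mem_Icc, ← abs_le] at h2
          rw [Complex.norm_intCast]
          exact_mod_cast h2
      _ = X * ∑ i, v (RingOfIntegers.basis K i : K) := by rw [Finset.mul_sum]
      _ ≤ X * c2 := by
          apply mul_le_mul_of_nonneg_left _ (by linarith)
          have : ∑ i, v (RingOfIntegers.basis K i : K) ≤
              ∑ i, ∑ v : InfinitePlace K, v (RingOfIntegers.basis K i : K) := by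
            apply Finset.sum_le_sum
            intro i _
            exact Finset.single_le_sum (f := fun v : InfinitePlace K => v (RingOfIntegers.basis K i : K))
              (fun v _ => apply_nonneg v _) (Finset.mem_univ v)
          linarith
      _ = c2 * X := mul_comm _ _
  let B1 : Finset (𝓞 K) := box.image g0
  have hB1card : B1.card = (2 * X + 1) ^ d := by
    rw [Finset.card_image_of_injective _ hg0, Fintype.card_piFinset]
    simp only [Finset.prod_const, Finset.card_univ, Int.card_Icc]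
    rw [hcard]
    congr 1
    omega
  have hB1v : ∀ a ∈ B1, ∀ v : InfinitePlace K, v (a : K) ≤ c2 * X := by
    intro a ha v
    obtain ⟨n, hn, rfl⟩ := Finset.mem_image.mp ha
    exact hbound n hn v
  let S : Finset (𝓞 K × 𝓞 K) := B1 ×ˢ (B1.erase 0)
  have hScard : ((X : ℝ) ^ d) ^ 2 ≤ S.card := by
    rw [Finset.card_product, pow_two, Nat.cast_mul]
    have h1 : (X : ℝ) ^ d ≤ (B1.card : ℝ) := by
      rw [hB1card]
      push_cast
      apply pow_le_pow_left₀ (by positivity)
      linarith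
    have h2 : (X : ℝ) ^ d ≤ ((B1.erase 0).card : ℝ) := by
      have h3 : B1.card - 1 ≤ (B1.erase 0).card := Finset.pred_card_le_card_erase
      have h4 : X ^ d + 1 ≤ B1.card := by
        rw [hB1card]
        calc X ^ d + 1 ≤ (X + 1) ^ d := Nat.pow_lt_pow_left (by omega) (by omega)
          _ ≤ (2 * X + 1) ^ d := Nat.pow_le_pow_left (by omega) d
      have h5 : X ^ d ≤ (B1.erase 0).card := by omega
      exact_mod_cast h5
    exact mul_le_mul h1 h2 (by positivity) (by positivity)
  let g : 𝓞 K × 𝓞 K → K := fun p => (p.1 : K) / (p.2 : K)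
  have hY0 : 0 ≤ c2 * X := by positivity
  have hHle : ∀ x ∈ S.image g, mulHeight₁ x ≤ (c2 * X) ^ d := by
    intro x hx
    obtain ⟨p, hp, rfl⟩ := Finset.mem_image.mp hx
    obtain ⟨hp1, hp2⟩ := Finset.mem_product.mp hp
    have hp20 : p.2 ≠ 0 := (Finset.mem_erase.mp hp2).1
    have hp2' := (Finset.mem_erase.mp hp2).2
    have h1 := arch_part K (α := p.1) hp20
    have hnorm1 : (1 : ℝ) ≤ (Ideal.span (Set.range ![p.1, p.2])).absNorm := by
      have : (Ideal.span (Set.range ![p.1, p.2])).absNorm ≠ 0 := by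
        rw [Ne, Ideal.absNorm_eq_zero_iff]
        intro h
        apply hp20
        have : p.2 ∈ Ideal.span (Set.range ![p.1, p.2]) := Ideal.subset_span ⟨1, rfl⟩
        rw [h] at this
        simpa using this
      exact_mod_cast Nat.one_le_iff_ne_zero.mpr this
    calc mulHeight₁ (g p) ≤ mulHeight₁ (g p) * (Ideal.span (Set.range ![p.1, p.2])).absNorm :=
          le_mul_of_one_le_right (by have := one_le_mulHeight₁ (g p); linarith) hnorm1
      _ = ∏ v : InfinitePlace K, (max (v (p.1 : K)) (v (p.2 : K))) ^ v.mult := h1.symm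
      _ ≤ ∏ v : InfinitePlace K, (c2 * X) ^ v.mult := by
          apply Finset.prod_le_prod
          · intro v _
            exact pow_nonneg (le_max_of_le_left (apply_nonneg v _)) _
          · intro v _
            apply pow_le_pow_left₀ (le_max_of_le_left (apply_nonneg v _))
            exact max_le (hB1v _ hp1 v) (hB1v _ hp2' v)
      _ = (c2 * X) ^ d := by
          rw [Finset.prod_pow_eq_pow_sum, InfinitePlace.sum_mult_eq]
  refine ⟨S.image g, hHle, ?_⟩
  -- the main inequality
  have hmain : ((X : ℝ) ^ d) ^ 2 ≤ A2 * (X : ℝ) ^ d * ∑ x ∈ S.image g, (mulHeight₁ x)⁻¹ := by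
    refine hScard.trans ?_
    rw [Finset.card_eq_sum_card_image g S, Nat.cast_sum, Finset.mul_sum]
    apply Finset.sum_le_sum
    intro x hx
    have hx1 : 1 ≤ mulHeight₁ x := one_le_mulHeight₁ x
    have hx0 : 0 < mulHeight₁ x := by linarith
    have h1 := hA x (c2 * X) (S.filter (fun p => g p = x)) hY0 (by
      intro p hp
      obtain ⟨hpS, hpx⟩ := Finset.mem_filter.mp hp
      obtain ⟨hp1, hp2⟩ := Finset.mem_product.mp hpS
      refine ⟨(Finset.mem_erase.mp hp2).1, hpx, fun v => ⟨hB1v _ hp1 v, hB1v _ (Finset.mem_erase.mp hp2).2 v⟩⟩)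
    refine h1.trans ?_
    set h : ℝ := mulHeight₁ x ^ ((d : ℝ)⁻¹) with hh
    have hh0 : 0 < h := Real.rpow_pos_of_pos hx0 _
    have h2 : h ≤ c2 * X := by
      have h3 := hHle x hx
      calc h ≤ ((c2 * X) ^ d) ^ ((d : ℝ)⁻¹) := Real.rpow_le_rpow hx0.le h3 (by positivity)
        _ = c2 * X := by
          rw [← Real.rpow_natCast (c2 * X) d, ← Real.rpow_mul hY0, mul_inv_cancel₀ hdpos.ne',
            Real.rpow_one]
    have h3 : 1 ≤ c2 * X / h := (one_le_div hh0).mpr h2
    have h4 : A * (c2 * X / h) + 1 ≤ (A + 1) * c2 * (X / h) := by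
      have : (A + 1) * c2 * (X / h) = (A + 1) * (c2 * X / h) := by ring
      rw [this]
      linarith
    have h5 : h ^ d = mulHeight₁ x := by
      rw [hh, ← Real.rpow_natCast, ← Real.rpow_mul hx0.le, inv_mul_cancel₀ hdpos.ne',
        Real.rpow_one]
    calc (A * (c2 * X / h) + 1) ^ d ≤ ((A + 1) * c2 * (X / h)) ^ d :=
          pow_le_pow_left₀ (by positivity) h4 _
      _ = A2 * (X : ℝ) ^ d * (mulHeight₁ x)⁻¹ := by
          rw [mul_pow, div_pow, h5, hA2]
          ring
  have hXd : 0 < (X : ℝ) ^ d := by positivity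
  have hmain2 : (X : ℝ) ^ d ≤ A2 * ∑ x ∈ S.image g, (mulHeight₁ x)⁻¹ := by
    have : (X : ℝ) ^ d * (X : ℝ) ^ d ≤ (X : ℝ) ^ d * (A2 * ∑ x ∈ S.image g, (mulHeight₁ x)⁻¹) := by
      calc _ = ((X : ℝ) ^ d) ^ 2 := by ring
        _ ≤ _ := hmain
        _ = _ := by ring
    exact le_of_mul_le_mul_left this hXd
  rw [← Finset.sum_filter_add_sum_filter_not (S.image g) (fun x => mulHeight₁ x ≤ δ * (X : ℝ) ^ d)]
    at hmain2
  have h1 := hC (δ * (X : ℝ) ^ d) ((S.image g).filter (fun x => mulHeight₁ x ≤ δ * (X : ℝ) ^ d))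
    (by positivity) (fun x hx => (Finset.mem_filter.mp hx).2)
  have h2 : ∑ x ∈ (S.image g).filter (fun x => ¬ mulHeight₁ x ≤ δ * (X : ℝ) ^ d), (mulHeight₁ x)⁻¹ ≤
      ((S.image g).card : ℝ) * (δ * (X : ℝ) ^ d)⁻¹ := by
    calc _ ≤ ∑ x ∈ (S.image g).filter (fun x => ¬ mulHeight₁ x ≤ δ * (X : ℝ) ^ d),
          (δ * (X : ℝ) ^ d)⁻¹ := by
          apply Finset.sum_le_sum
          intro x hx
          have := (Finset.mem_filter.mp hx).2
          push Not at this
          exact inv_anti₀ (by positivity) this.le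
      _ = (((S.image g).filter (fun x => ¬ mulHeight₁ x ≤ δ * (X : ℝ) ^ d)).card : ℝ) *
          (δ * (X : ℝ) ^ d)⁻¹ := by rw [Finset.sum_const, nsmul_eq_mul]
      _ ≤ _ := by
          apply mul_le_mul_of_nonneg_right _ (by positivity)
          exact_mod_cast Finset.card_filter_le _ _
  have h3 : A2 * (C * (δ * (X : ℝ) ^ d)) = (X : ℝ) ^ d / 2 := by
    rw [hδ]
    field_simp
  have h4 : (X : ℝ) ^ d ≤ (X : ℝ) ^ d / 2 + A2 * (((S.image g).card : ℝ) * (δ * (X : ℝ) ^ d)⁻¹) := by
    calc (X : ℝ) ^ d ≤ _ := hmain2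
      _ ≤ A2 * (C * (δ * (X : ℝ) ^ d) + ((S.image g).card : ℝ) * (δ * (X : ℝ) ^ d)⁻¹) :=
          mul_le_mul_of_nonneg_left (add_le_add h1 h2) hA20.le
      _ = _ := by rw [mul_add, h3]
  have h5 : (X : ℝ) ^ d / 2 ≤ A2 * (((S.image g).card : ℝ) * (δ * (X : ℝ) ^ d)⁻¹) := by linarith
  calc δ / (2 * A2) * ((X : ℝ) ^ d) ^ 2 = (X : ℝ) ^ d / 2 * (δ * (X : ℝ) ^ d / A2) := by
        field_simp
    _ ≤ A2 * (((S.image g).card : ℝ) * (δ * (X : ℝ) ^ d)⁻¹) * (δ * (X : ℝ) ^ d / A2) :=
        mul_le_mul_of_nonneg_right h5 (by positivity)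
    _ = ((S.image g).card : ℝ) := by field_simp

/-- Lower bound of the order of Schanuel's theorem. -/
theorem count_height2_lower : ∃ (c T0 : ℝ), 0 < c ∧ 1 ≤ T0 ∧ ∀ T : ℝ, T0 ≤ T →
    ∃ s : Finset K, (∀ x ∈ s, mulHeight₁ x ≤ T) ∧ c * T ^ 2 ≤ s.card := by
  obtain ⟨c, c2, hc, hc2, h⟩ := box_lower K
  set d := finrank ℚ K with hd
  have hdpos : (0 : ℝ) < d := by exact_mod_cast (finrank_pos (R := ℚ) (M := K))
  have hc20 : 0 < c2 := by linarith
  refine ⟨c / (2 * c2) ^ (2 * d), (2 * c2) ^ d, by positivity, one_le_pow₀ (by linarith), ?_⟩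
  intro T hT
  have hT1 : 1 ≤ T := (one_le_pow₀ (by linarith : (1 : ℝ) ≤ 2 * c2)).trans hT
  set t : ℝ := T ^ ((d : ℝ)⁻¹) with ht
  have ht0 : 0 < t := Real.rpow_pos_of_pos (by linarith) _
  have htd : t ^ d = T := by
    rw [ht, ← Real.rpow_natCast, ← Real.rpow_mul (by linarith), inv_mul_cancel₀ hdpos.ne',
      Real.rpow_one]
  have ht2 : 2 * c2 ≤ t := by
    by_contra hlt
    push Not at hlt
    have : t ^ d < (2 * c2) ^ d := pow_lt_pow_left₀ hlt ht0.le (by
      have := finrank_pos (R := ℚ) (M := K)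
      omega)
    rw [htd] at this
    linarith
  set X : ℕ := ⌊t / c2⌋₊ with hX
  have hXle : (X : ℝ) ≤ t / c2 := Nat.floor_le (by positivity)
  have hXge : t / c2 - 1 < X := Nat.sub_one_lt_floor _
  have h2 : 2 ≤ t / c2 := by
    rw [le_div_iff₀ hc20]
    linarith
  have hX1 : 1 ≤ X := by
    rw [hX, Nat.one_le_floor_iff]
    linarith
  have hXge2 : t / (2 * c2) ≤ X := by
    have : t / (2 * c2) = (t / c2) / 2 := by field_simp
    rw [this]
    linarith
  obtain ⟨s, hs1, hs2⟩ := h X hX1
  refine ⟨s, ?_, ?_⟩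
  · intro x hx
    refine (hs1 x hx).trans ?_
    rw [← htd]
    apply pow_le_pow_left₀ (by positivity)
    rw [le_div_iff₀ hc20] at hXle
    linarith
  · refine le_trans ?_ hs2
    have h3 : (t / (2 * c2)) ^ d ≤ (X : ℝ) ^ d := pow_le_pow_left₀ (by positivity) hXge2 _
    calc c / (2 * c2) ^ (2 * d) * T ^ 2 = c * ((t / (2 * c2)) ^ d) ^ 2 := by
          rw [div_pow, htd, mul_comm 2 d, pow_mul]
          field_simp
      _ ≤ _ := by
          apply mul_le_mul_of_nonneg_left _ hc.le
          exact pow_le_pow_left₀ (by positivity) h3 2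

end Pool.Agent.K3H
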