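import Pool.Agent.K3H.MulG
import Pool.Agent.K3H.Ext
import Pool.Agent.K3H.SchanLow

/-!
Rational points on the Kummer surface `w^2 = f(x) f(z)` and pairs of points on twists.
-/

namespace Pool.Agent.K3H

open WeierstrassCurve WeierstrassCurve.Affine Height Polynomial

variable {K : Type*} [Field K] [DecidableEq K]

/-- The pair of points of the twist by `f(x)` attached to `(x, z, w)`. -/
def IsPair (a b x z w : K) (P Q : (tw a b (fc a b x)).Point) : Prop :=
  (∃ h, P = Point.some (fc a b x * x) (fc a b x ^ 2) h) ∧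
    (∃ h, Q = Point.some (fc a b x * z) (fc a b x * w) h)

omit [DecidableEq K] in
lemma isTors_iff {A : Type*} [AddCommGroup A] {P : A} : IsOfFinAddOrder P ↔ IsTors P := by
  rw [isOfFinAddOrder_iff_nsmul_eq_zero]
  constructor
  · rintro ⟨n, hn, h⟩
    exact ⟨n, by omega, h⟩
  · rintro ⟨n, hn, h⟩
    exact ⟨n, by omega, h⟩

omit [DecidableEq K] in
lemma fc_ne_of_w {a b x z w : K} (h : w ^ 2 = fc a b x * fc a b z) (hw : w ≠ 0) :
    fc a b x ≠ 0 ∧ fc a b z ≠ 0 := by
  have : w ^ 2 ≠ 0 := pow_ne_zero 2 hw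
  rw [h] at this
  exact ⟨left_ne_zero_of_mul this, right_ne_zero_of_mul this⟩

lemma pair_exists [CharZero K] {a b : K} (hd : 4 * a ^ 3 + 27 * b ^ 2 ≠ 0) {x z w : K}
    (h : w ^ 2 = fc a b x * fc a b z) (hw : w ≠ 0) : ∃ P Q, IsPair a b x z w P Q := by
  obtain ⟨hx, hz⟩ := fc_ne_of_w h hw
  have h1 : (tw a b (fc a b x)).Nonsingular (fc a b x * x) (fc a b x ^ 2) := by
    rw [sw_ns_iff (tw_disc hd hx)]
    simp only [fc]; ring
  have h2 : (tw a b (fc a b x)).Nonsingular (fc a b x * z) (fc a b x * w) := by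
    rw [sw_ns_iff (tw_disc hd hx), mul_pow, h]
    simp only [fc]; ring
  exact ⟨_, _, ⟨h1, rfl⟩, ⟨h2, rfl⟩⟩

omit [DecidableEq K] in
lemma pair_xi {a b x z w : K} (hx : fc a b x ≠ 0) {P Q : (tw a b (fc a b x)).Point}
    (h : IsPair a b x z w P Q) : xi (fc a b x) P = some x ∧ xi (fc a b x) Q = some z := by
  obtain ⟨⟨h1, rfl⟩, ⟨h2, rfl⟩⟩ := h
  rw [xi_some, xi_some]
  constructor
  · congr 1; field_simp
  · congr 1; field_simp

/-- Two points on any twist give a rational point of the surface. -/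
lemma pair_of [CharZero K] {a b D x z : K} (hD : D ≠ 0)
    {P Q : (tw a b D).Point} (hP : xi D P = some x) (hQ : xi D Q = some z)
    (hx : fc a b x ≠ 0) (hz : fc a b z ≠ 0) :
    ∃ w : K, w ≠ 0 ∧ w ^ 2 = fc a b x * fc a b z ∧
      ∃ φ : (tw a b D).Point →+ (tw a b (fc a b x)).Point, Function.Injective φ ∧
        (∀ R, xi (fc a b x) (φ R) = xi D R) ∧ IsPair a b x z w (φ P) (φ Q) := by
  obtain ⟨X, Y, hn, hPe, hX⟩ := xi_eq_some hP
  have hY := pt_y hD hn
  rw [hX] at hY
  have hY0 : Y ≠ 0 := by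
    intro h
    rw [h] at hY
    have : D ^ 3 * fc a b x = 0 := by rw [← hY]; ring
    exact (mul_ne_zero (pow_ne_zero 3 hD) hx) this
  have hl : Y / D ^ 2 ≠ 0 := div_ne_zero hY0 (pow_ne_zero 2 hD)
  have hDl : fc a b x = D * (Y / D ^ 2) ^ 2 := by
    rw [div_pow, hY]
    field_simp
  obtain ⟨φ, hφ, hφx⟩ := exists_scale a b hl hDl
  -- the sign
  have key : ∃ φ : (tw a b D).Point →+ (tw a b (fc a b x)).Point, Function.Injective φ ∧
      (∀ R, xi (fc a b x) (φ R) = xi D R) ∧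
      ∃ h, φ P = Point.some (fc a b x * x) (fc a b x ^ 2) h := by
    have h1 : xi (fc a b x) (φ P) = some x := by rw [hφx, hP]
    obtain ⟨X', Y', hn', hPe', hX'⟩ := xi_eq_some h1
    have hY' := pt_y hx hn'
    rw [hX'] at hY'
    have hXX : X' = fc a b x * x := by
      rw [div_eq_iff hx] at hX'
      rw [hX']; ring
    have hYY : Y' = fc a b x ^ 2 ∨ Y' = -fc a b x ^ 2 := by
      rw [← sq_eq_sq_iff_eq_or_eq_neg, hY']
      ring
    rcases hYY with h2 | h2
    · refine ⟨φ, hφ, hφx, ?_⟩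
      subst hXX h2
      exact ⟨hn', hPe'⟩
    · refine ⟨-φ, fun u v huv => hφ (neg_injective (by simpa using huv)), fun R => by
        rw [AddMonoidHom.neg_apply, xi_neg, hφx], ?_⟩
      rw [AddMonoidHom.neg_apply, hPe', Point.neg_some]
      have h3 : (tw a b (fc a b x)).negY X' Y' = fc a b x ^ 2 := by
        rw [sw_negY, h2]; ring
      have h4 : (tw a b (fc a b x)).Nonsingular (fc a b x * x) (fc a b x ^ 2) := by
        have := (nonsingular_neg (W' := tw a b (fc a b x)) X' Y').mpr hn'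
        rw [h3, hXX] at this
        exact this
      refine ⟨h4, ?_⟩
      rw [Point.some.injEq]
      exact ⟨hXX, h3⟩
  obtain ⟨φ, hφ, hφx, hφP⟩ := key
  have h1 : xi (fc a b x) (φ Q) = some z := by rw [hφx, hQ]
  obtain ⟨X', Y', hn', hQe', hX'⟩ := xi_eq_some h1
  have hY' := pt_y hx hn'
  rw [hX'] at hY'
  have hXX : X' = fc a b x * z := by
    rw [div_eq_iff hx] at hX'
    rw [hX']; ring
  have hw2 : (Y' / fc a b x) ^ 2 = fc a b x * fc a b z := by
    rw [div_pow, hY']; field_simp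
  refine ⟨Y' / fc a b x, ?_, hw2, φ, hφ, hφx, hφP, ?_⟩
  · intro h
    rw [h] at hw2
    have : fc a b x * fc a b z = 0 := by rw [← hw2]; ring
    exact (mul_ne_zero hx hz) this
  · have h4 : fc a b x * (Y' / fc a b x) = Y' := by field_simp
    rw [h4, hQe']
    subst hXX
    exact ⟨hn', rfl⟩

/-- Structure of dependent pairs of points of infinite order. -/
lemma dep_structure {A : Type*} [AddCommGroup A] {P Q : A} (hP : ¬ IsTors P) (hQ : ¬ IsTors Q)
    (hdep : ¬ LinearIndependent ℤ ![P, Q]) :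
    ∃ (m n u v : ℤ) (R T : A), IsCoprime m n ∧ m ≠ 0 ∧ n ≠ 0 ∧ T = m • P + n • Q ∧ IsTors T ∧
      P = n • R + u • T ∧ Q = (-m) • R + v • T ∧ ¬ IsTors R := by
  rw [LinearIndependent.pair_iff] at hdep
  push Not at hdep
  obtain ⟨s, t, hst, hne⟩ := hdep
  have hg : 0 < Int.gcd s t := by
    rw [Int.gcd_pos_iff]
    by_cases h : s = 0
    · exact Or.inr (hne h)
    · exact Or.inl h
  obtain ⟨g, m, n, hg0, hmn, hs, ht⟩ := Int.exists_gcd_one' hg
  obtain ⟨u, v, huv⟩ := Int.isCoprime_iff_gcd_eq_one.mpr hmn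
  have hT : IsTors (m • P + n • Q) := by
    refine ⟨g, by omega, ?_⟩
    have : (g : ℕ) • (m • P + n • Q) = s • P + t • Q := by
      rw [hs, ht, ← natCast_zsmul, smul_add, ← mul_smul, ← mul_smul, mul_comm (g : ℤ), mul_comm (g : ℤ)]
    rw [this, hst]
  have hTz : ∀ k : ℤ, IsTors (k • (m • P + n • Q)) := by
    intro k
    obtain ⟨r, hr, h⟩ := hT
    exact ⟨r, hr, by rw [smul_comm, h, smul_zero]⟩
  have e1 : P = n • (v • P - u • Q) + u • (m • P + n • Q) := by
    have : n • (v • P - u • Q) + u • (m • P + n • Q) = (u * m + v * n) • P := by module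
    rw [this, huv, one_smul]
  have e2 : Q = (-m) • (v • P - u • Q) + v • (m • P + n • Q) := by
    have : (-m) • (v • P - u • Q) + v • (m • P + n • Q) = (u * m + v * n) • Q := by module
    rw [this, huv, one_smul]
  refine ⟨m, n, u, v, v • P - u • Q, m • P + n • Q, ⟨u, v, huv⟩, ?_, ?_, rfl, hT, e1, e2, ?_⟩
  · intro h
    apply hQ
    rw [e2, h, neg_zero, zero_smul, zero_add]
    have := hTz v
    rw [h] at this
    exact this
  · intro h
    apply hP
    rw [e1, h, zero_smul, zero_add]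
    have := hTz u
    rw [h] at this
    exact this
  · rintro ⟨k, hk, h⟩
    apply hP
    obtain ⟨r, hr, h2⟩ := hTz u
    refine ⟨k * r, Nat.mul_ne_zero hk hr, ?_⟩
    rw [e1, smul_add, mul_smul _ _ (u • _), h2, smul_zero, add_zero, mul_comm, mul_smul,
      smul_comm k n, h, smul_zero, smul_zero]

end Pool.Agent.K3H
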