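import Pool.Agent.K3H.KumUp

/-!
Lower bounds for rational points on the special curves of the Kummer surface.
-/

namespace Pool.Agent.K3H

open WeierstrassCurve WeierstrassCurve.Affine Height Polynomial

section

variable {K : Type*} [Field K] [DecidableEq K]

lemma xi_zsmul_natAbs {D : K} {a b : K} (n : ℤ) {R T : (tw a b D).Point} (hT : 2 • T = 0) :
    xi D (n • R + T) = xi D (n.natAbs • R + T) := by
  have hneg : -T = T := by
    rw [two_nsmul] at hT
    exact (eq_neg_of_add_eq_zero_left hT).symm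
  rcases n.natAbs_eq with h | h
  · nth_rewrite 1 [h]
    rw [natCast_zsmul]
  · nth_rewrite 1 [h]
    rw [neg_smul, natCast_zsmul]
    have : -(n.natAbs • R) + T = -(n.natAbs • R + T) := by
      rw [neg_add, hneg]
    rw [this, xi_neg]

lemma two_tors_smul {A : Type*} [AddCommGroup A] {T : A} (hT : 2 • T = 0) (u : ℤ) :
    u • T = if Even u then 0 else T := by
  have h2 : (2 : ℤ) • T = 0 := by
    have : ((2 : ℕ) : ℤ) • T = 0 := by rw [natCast_zsmul]; exact hT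
    exact this
  split_ifs with h
  · obtain ⟨k, rfl⟩ := h
    rw [← two_mul, mul_comm, mul_smul, h2, smul_zero]
  · rw [Int.not_even_iff_odd] at h
    obtain ⟨k, rfl⟩ := h
    rw [add_smul, one_smul, mul_comm, mul_smul, h2, smul_zero, zero_add]

lemma xi_two_tors {a b D D' : K} {T : (tw a b D).Point} {T' : (tw a b D').Point}
    (hT : 2 • T = 0) (hT' : 2 • T' = 0) (h : xi D T = xi D' T') (u : ℤ) :
    xi D (u • T) = xi D' (u • T') := by
  rw [two_tors_smul hT, two_tors_smul hT']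
  split_ifs
  · rfl
  · exact h

lemma exists_two_tors [CharZero K] {a b : K} (hd : 4 * a ^ 3 + 27 * b ^ 2 ≠ 0) {D D' : K}
    (hD : D ≠ 0) (hD' : D' ≠ 0) {T : (tw a b D).Point} (hT : 2 • T = 0) :
    ∃ T' : (tw a b D').Point, 2 • T' = 0 ∧ xi D' T' = xi D T := by
  by_cases h0 : T = 0
  · exact ⟨0, smul_zero 2, by rw [h0]; rfl⟩
  · obtain ⟨e, he⟩ := xi_ne_none (D := D) h0
    have hfe := fc_of_two_smul hD he hT
    have hn : (tw a b D').Nonsingular (D' * e) 0 := by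
      rw [sw_ns_iff (tw_disc hd hD')]
      have : (D' * e) ^ 3 + a * D' ^ 2 * (D' * e) + b * D' ^ 3 = D' ^ 3 * fc a b e := by
        simp only [fc]; ring
      rw [this, hfe]; ring
    have hxi : xi D' (Point.some _ _ hn) = some e := by
      rw [xi_some]
      congr 1
      field_simp
    exact ⟨Point.some _ _ hn, two_smul_of_fc hD' hxi hfe, by rw [hxi, he]⟩

omit [DecidableEq K] in
lemma pair_unique {a b x z w : K} {P Q P' Q' : (tw a b (fc a b x)).Point}
    (h : IsPair a b x z w P Q) (h' : IsPair a b x z w P' Q') : P = P' ∧ Q = Q' := by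
  obtain ⟨⟨h1, rfl⟩, ⟨h2, rfl⟩⟩ := h
  obtain ⟨⟨h3, rfl⟩, ⟨h4, rfl⟩⟩ := h'
  exact ⟨rfl, rfl⟩

end

section

variable {K : Type*} [Field K] [NumberField K] [DecidableEq K]

theorem dep_lower {a b : K} (hd : 4 * a ^ 3 + 27 * b ^ 2 ≠ 0) (F : MvPolynomial (Fin 2) K)
    {x0 z0 w0 : K} (hw0 : w0 ≠ 0) (hs0 : w0 ^ 2 = fc a b x0 * fc a b z0)
    {P0 Q0 : (tw a b (fc a b x0)).Point} (hpair : IsPair a b x0 z0 w0 P0 Q0)
    (hP0 : ¬ IsTors P0) (hQ0 : ¬ IsTors Q0) {m n : ℤ} (hmn : IsCoprime m n)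
    (hrel : 2 • (m • P0 + n • Q0) = 0) (hF : MvPolynomial.eval ![x0, z0] F ≠ 0) {N : ℕ}
    (hN : (N : ℤ) = m ^ 2 + n ^ 2) :
    ∃ (c B0 : ℝ), 0 < c ∧ ∀ B : ℝ, B0 ≤ B → ∃ s : Finset (K × K × K),
      (∀ p ∈ s, p.2.2 ^ 2 = fc a b p.1 * fc a b p.2.1 ∧ p.2.2 ≠ 0 ∧
        mulHeight₁ p.1 * mulHeight₁ p.2.1 ≤ B ∧ MvPolynomial.eval ![p.1, p.2.1] F ≠ 0 ∧
        ∃ P Q, IsPair a b p.1 p.2.1 p.2.2 P Q ∧ ¬ LinearIndependent ℤ ![P, Q]) ∧
      c * B ^ ((2 : ℝ) / N) ≤ s.card := by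
  classical
  obtain ⟨u, v, huv⟩ := hmn
  obtain ⟨hx0, hz0⟩ := fc_ne_of_w hs0 hw0
  obtain ⟨hxiP0, hxiQ0⟩ := pair_xi hx0 hpair
  set T0 := m • P0 + n • Q0 with hT0
  set R0 := v • P0 - u • Q0 with hR0
  have hTz : ∀ k : ℤ, 2 • (k • T0) = 0 := by
    intro k
    rw [smul_comm, hrel, smul_zero]
  have eP0 : P0 = n • R0 + u • T0 := by
    have : n • R0 + u • T0 = (u * m + v * n) • P0 := by rw [hR0, hT0]; module
    rw [this, huv, one_smul]
  have eQ0 : Q0 = (-m) • R0 + v • T0 := by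
    have : (-m) • R0 + v • T0 = (u * m + v * n) • Q0 := by rw [hR0, hT0]; module
    rw [this, huv, one_smul]
  have hm0 : m ≠ 0 := by
    intro h
    apply hQ0
    rw [eQ0, h, neg_zero, zero_smul, zero_add]
    exact ⟨2, two_ne_zero, hTz v⟩
  have hn0 : n ≠ 0 := by
    intro h
    apply hP0
    rw [eP0, h, zero_smul, zero_add]
    exact ⟨2, two_ne_zero, hTz u⟩
  have hRt : ¬ IsTors R0 := by
    rintro ⟨k, hk, h⟩
    apply hP0
    refine ⟨k * 2, by omega, ?_⟩
    rw [eP0, smul_add, mul_smul _ _ (u • T0), hTz, smul_zero, add_zero, mul_comm, mul_smul,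
      smul_comm k n, h, smul_zero, smul_zero]
  have hR00 : R0 ≠ 0 := by
    intro h
    exact hRt ⟨1, one_ne_zero, by rw [h, smul_zero]⟩
  obtain ⟨ρ0, hρ0⟩ := xi_ne_none (D := fc a b x0) hR00
  have hna : 1 ≤ n.natAbs := Int.natAbs_pos.mpr hn0
  have hma : 1 ≤ m.natAbs := Int.natAbs_pos.mpr hm0
  obtain ⟨A₁, B₁, h₁⟩ := exists_mulT hd n.natAbs hna (xi (fc a b x0) (u • T0))
  obtain ⟨A₂, B₂, h₂⟩ := exists_mulT hd m.natAbs hma (xi (fc a b x0) (v • T0))
  obtain ⟨G, Ng, hG⟩ := exists_homog F A₁ B₁ A₂ B₂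
  have hGne : G ≠ 0 := by
    intro h
    obtain ⟨hb1, he1⟩ := h₁ (fc a b x0) hx0 R0 (u • T0) ρ0 hRt hρ0 (hTz u) rfl
    obtain ⟨hb2, he2⟩ := h₂ (fc a b x0) hx0 R0 (v • T0) ρ0 hRt hρ0 (hTz v) rfl
    rw [← xi_zsmul_natAbs n (hTz u), ← eP0, hxiP0] at he1
    have he2' : xi (fc a b x0) ((-m) • R0 + v • T0) = some (A₂.eval ρ0 / B₂.eval ρ0) := by
      rw [xi_zsmul_natAbs (-m) (hTz v), Int.natAbs_neg]
      exact he2
    rw [← eQ0, hxiQ0] at he2'
    have h3 := hG ρ0 hb1 hb2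
    rw [h, eval_zero, ← Option.some.inj he1, ← Option.some.inj he2'] at h3
    exact (mul_ne_zero (pow_ne_zero Ng (mul_ne_zero hb1 hb2)) hF) h3.symm
  obtain ⟨C, hC⟩ := exists_pack hd
  have hC0 := hC.nonneg
  -- the bad set
  let bad : Finset K := nset K C ∪ (G * fp a b).roots.toFinset
  have hN0 : (1 : ℝ) ≤ N := by
    have h1 : (1 : ℤ) ≤ N := by
      rw [hN]
      have : 0 < m ^ 2 := by positivity
      nlinarith [sq_nonneg n]
    exact_mod_cast h1
  have hNR : (N : ℝ) = (m : ℝ) ^ 2 + (n : ℝ) ^ 2 := by exact_mod_cast hN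
  have key : ∀ ρ : K, ρ ∉ bad → ∃ t : K × K × K, (t.2.2 ^ 2 = fc a b t.1 * fc a b t.2.1 ∧
      t.2.2 ≠ 0 ∧ MvPolynomial.eval ![t.1, t.2.1] F ≠ 0 ∧
      logHeight₁ t.1 + logHeight₁ t.2.1 ≤ N * logHeight₁ ρ + (N * C + 2 * C)) ∧
      ∃ P Q, IsPair a b t.1 t.2.1 t.2.2 P Q ∧ ¬ LinearIndependent ℤ ![P, Q] ∧
        xi (fc a b t.1) (v • P - u • Q) = some ρ := by
    intro ρ hρ
    simp only [bad, Finset.mem_union, not_or, mem_nset, not_le, Multiset.mem_toFinset] at hρ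
    obtain ⟨hρ1, hρ2⟩ := hρ
    rw [mem_roots (mul_ne_zero hGne (fp_ne_zero a b)), IsRoot, eval_mul, fp_eval] at hρ2
    have hGρ := left_ne_zero_of_mul hρ2
    have hfρ := right_ne_zero_of_mul hρ2
    obtain ⟨R, hR⟩ := std_point hd hfρ
    obtain ⟨q, hq, hqC⟩ := hC.ex (fc a b ρ) hfρ
    have hhtR : ht (fc a b ρ) R = logHeight₁ ρ := by rw [ht_eq_oh, hR]; rfl
    have hRnt : ¬ IsTors R := by
      intro h
      have := tors_ht_le hq hqC h
      rw [hhtR] at this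
      linarith
    obtain ⟨T, hT2, hTxi⟩ := exists_two_tors hd hx0 hfρ hrel
    have hTz' : ∀ k : ℤ, 2 • (k • T) = 0 := by
      intro k
      rw [smul_comm, hT2, smul_zero]
    obtain ⟨hb1, he1⟩ := h₁ (fc a b ρ) hfρ R (u • T) ρ hRnt hR (hTz' u) (xi_two_tors hT2 hrel hTxi u)
    obtain ⟨hb2, he2⟩ := h₂ (fc a b ρ) hfρ R (v • T) ρ hRnt hR (hTz' v) (xi_two_tors hT2 hrel hTxi v)
    set x := A₁.eval ρ / B₁.eval ρ with hx
    set z := A₂.eval ρ / B₂.eval ρ with hz
    set P := n • R + u • T with hP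
    set Q := (-m) • R + v • T with hQ
    have hxP : xi (fc a b ρ) P = some x := by
      rw [hP, xi_zsmul_natAbs n (hTz' u)]; exact he1
    have hxQ : xi (fc a b ρ) Q = some z := by
      rw [hQ, xi_zsmul_natAbs (-m) (hTz' v), Int.natAbs_neg]; exact he2
    have hnt : ∀ (k : ℤ) (S : (tw a b (fc a b ρ)).Point), k ≠ 0 → 2 • S = 0 → ¬ IsTors (k • R + S) := by
      intro k S hk hS
      apply nontors_add _ hS
      rintro ⟨l, hl, h⟩
      apply hRnt
      refine ⟨l * k.natAbs, Nat.mul_ne_zero hl (Int.natAbs_pos.mpr hk).ne', ?_⟩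
      rcases k.natAbs_eq with h' | h'
      · rw [h', natCast_zsmul] at h
        rw [mul_smul]
        exact h
      · rw [h', neg_smul, natCast_zsmul, smul_neg, neg_eq_zero] at h
        rw [mul_smul]
        exact h
    have hPnt : ¬ IsTors P := hnt n _ hn0 (hTz' u)
    have hQnt : ¬ IsTors Q := hnt (-m) _ (neg_ne_zero.mpr hm0) (hTz' v)
    have hfx : fc a b x ≠ 0 := fun h => hPnt ⟨2, two_ne_zero, two_smul_of_fc hfρ hxP h⟩
    have hfz : fc a b z ≠ 0 := fun h => hQnt ⟨2, two_ne_zero, two_smul_of_fc hfρ hxQ h⟩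
    obtain ⟨w, hw, hw2, φ, hφ, hφx, hφpair⟩ := pair_of hfρ hxP hxQ hfx hfz
    refine ⟨(x, z, w), ⟨hw2, hw, ?_, ?_⟩, φ P, φ Q, hφpair, ?_, ?_⟩
    · intro h
      have h3 := hG ρ hb1 hb2
      apply hGρ
      rw [h3]
      show _ * MvPolynomial.eval ![x, z] F = 0
      have h4 : MvPolynomial.eval ![x, z] F = 0 := h
      rw [h4, mul_zero]
    · have htP : ht (fc a b ρ) P = logHeight₁ x := by rw [ht_eq_oh, hxP]; rfl
      have htQ : ht (fc a b ρ) Q = logHeight₁ z := by rw [ht_eq_oh, hxQ]; rfl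
      have hPC := hqC P
      have hQC := hqC Q
      have hRC := hqC R
      rw [htP, abs_le] at hPC
      rw [htQ, abs_le] at hQC
      rw [hhtR, abs_le] at hRC
      have hqP : q P = (n : ℝ) ^ 2 * q R := by
        rw [hP, hq.add_torsion two_ne_zero (hTz' u), hq.zsmul]
      have hqQ : q Q = (m : ℝ) ^ 2 * q R := by
        rw [hQ, hq.add_torsion two_ne_zero (hTz' v), hq.zsmul]
        push_cast
        ring
      have hsum : q P + q Q = N * q R := by rw [hqP, hqQ, hNR]; ring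
      have hRle : q R ≤ logHeight₁ ρ + C := by linarith [hRC.2]
      have : (N : ℝ) * q R ≤ N * (logHeight₁ ρ + C) := mul_le_mul_of_nonneg_left hRle (by linarith)
      show logHeight₁ x + logHeight₁ z ≤ _
      linarith [hPC.1, hQC.1]
    · rw [LinearIndependent.pair_iff]
      push Not
      refine ⟨2 * m, 2 * n, ?_, fun h => absurd h (by omega)⟩
      have h3 : (2 * m) • P + (2 * n) • Q = (2 : ℤ) • T := by
        have : (2 * m) • P + (2 * n) • Q = (2 * (u * m + v * n)) • T := by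
          rw [hP, hQ]; module
        rw [this, huv, mul_one]
      rw [← map_zsmul, ← map_zsmul, ← map_add, h3]
      have h4 : (2 : ℤ) • T = 0 := by
        have : ((2 : ℕ) : ℤ) • T = 0 := by rw [natCast_zsmul]; exact hT2
        exact this
      rw [h4, map_zero]
    · show xi (fc a b x) (v • φ P - u • φ Q) = some ρ
      have h3 : v • P - u • Q = R := by
        have : v • P - u • Q = (u * m + v * n) • R := by
          rw [hP, hQ]; module
        rw [this, huv, one_smul]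
      rw [← map_zsmul, ← map_zsmul, ← map_sub, hφx, h3, hR]
  choose! f hf using key
  have hinj : ∀ ρ ∉ bad, ∀ ρ' ∉ bad, f ρ = f ρ' → ρ = ρ' := by
    intro ρ hρ ρ' hρ' h
    have hf' := hf ρ' hρ'
    rw [← h] at hf'
    obtain ⟨_, P, Q, h1, _, h2⟩ := hf ρ hρ
    obtain ⟨_, P', Q', h1', _, h2'⟩ := hf'
    obtain ⟨e1, e2⟩ := pair_unique h1 h1'
    rw [← e1, ← e2, h2] at h2'
    exact Option.some.inj h2'
  obtain ⟨c, T0', hc, hT0', hlow⟩ := count_height2_lower K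
  set E : ℝ := Real.exp (N * C + 2 * C) with hE
  have hE0 : 0 < E := Real.exp_pos _
  have hNpos : (0 : ℝ) < N := by linarith
  set Tb : ℝ := max T0' (Real.sqrt (2 * bad.card / c)) with hTb
  have hTb1 : 1 ≤ Tb := hT0'.trans (le_max_left _ _)
  refine ⟨c / 2 * (E⁻¹) ^ ((2 : ℝ) / N), E * Tb ^ N, by positivity, ?_⟩
  intro B hB
  have hB0 : 0 < B := lt_of_lt_of_le (by positivity) hB
  set T : ℝ := (B / E) ^ ((1 : ℝ) / N) with hT
  have hTT : Tb ≤ T := by
    have h1 : Tb ^ N ≤ B / E := by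
      rw [le_div_iff₀ hE0]
      linarith
    calc Tb = (Tb ^ N) ^ ((1 : ℝ) / N) := by
          rw [← Real.rpow_natCast, ← Real.rpow_mul (by linarith), mul_one_div_cancel hNpos.ne',
            Real.rpow_one]
      _ ≤ T := Real.rpow_le_rpow (by positivity) h1 (by positivity)
  have hT1 : 1 ≤ T := hTb1.trans hTT
  have hTN : E * T ^ N = B := by
    rw [hT, ← Real.rpow_natCast, ← Real.rpow_mul (by positivity), one_div_mul_cancel hNpos.ne',
      Real.rpow_one]
    field_simp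
  obtain ⟨s, hs1, hs2⟩ := hlow T ((le_max_left _ _).trans hTT)
  refine ⟨(s \ bad).image f, ?_, ?_⟩
  · intro p hp
    obtain ⟨ρ, hρ, rfl⟩ := Finset.mem_image.mp hp
    obtain ⟨hρ1, hρ2⟩ := Finset.mem_sdiff.mp hρ
    obtain ⟨⟨g1, g2, g3, g4⟩, P, Q, g5, g6, _⟩ := hf ρ hρ2
    refine ⟨g1, g2, ?_, g3, P, Q, g5, g6⟩
    have h1 := one_le_mulHeight₁ (f ρ).1
    have h2 := one_le_mulHeight₁ (f ρ).2.1
    have h3 := one_le_mulHeight₁ ρ
    rw [logHeight₁_eq_log_mulHeight₁, logHeight₁_eq_log_mulHeight₁, logHeight₁_eq_log_mulHeight₁,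
      ← Real.log_mul (by linarith) (by linarith)] at g4
    have h4 : mulHeight₁ (f ρ).1 * mulHeight₁ (f ρ).2.1 ≤
        Real.exp (N * Real.log (mulHeight₁ ρ) + (N * C + 2 * C)) := by
      rw [← Real.log_le_iff_le_exp (mul_pos (by linarith) (by linarith))]
      exact g4
    have h5 : Real.exp (N * Real.log (mulHeight₁ ρ) + (N * C + 2 * C)) = E * mulHeight₁ ρ ^ N := by
      rw [Real.exp_add, mul_comm, hE, Real.exp_nat_mul, Real.exp_log (by linarith)]
    calc _ ≤ _ := h4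
      _ = E * mulHeight₁ ρ ^ N := h5
      _ ≤ E * T ^ N := by
          apply mul_le_mul_of_nonneg_left _ hE0.le
          exact pow_le_pow_left₀ (by linarith) (hs1 ρ hρ1) _
      _ = B := hTN
  · rw [Finset.card_image_of_injOn (by
      intro ρ hρ ρ' hρ' h
      exact hinj ρ (Finset.mem_sdiff.mp hρ).2 ρ' (Finset.mem_sdiff.mp hρ').2 h)]
    have h1 : (s.card : ℝ) ≤ ((s \ bad).card : ℝ) + bad.card := by
      have := Finset.card_le_card_sdiff_add_card (s := s) (t := bad)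
      exact_mod_cast this
    have h2 : (bad.card : ℝ) ≤ c / 2 * T ^ 2 := by
      have h3 : Real.sqrt (2 * bad.card / c) ≤ T := (le_max_right _ _).trans hTT
      have h4 : 2 * bad.card / c ≤ T ^ 2 := by
        have := Real.sq_sqrt (show 0 ≤ 2 * (bad.card : ℝ) / c from
          div_nonneg (mul_nonneg (by norm_num) (Nat.cast_nonneg _)) hc.le)
        rw [← this]
        exact pow_le_pow_left₀ (Real.sqrt_nonneg _) h3 2
      rw [div_le_iff₀ hc] at h4
      linarith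
    have h5 : c / 2 * (E⁻¹) ^ ((2 : ℝ) / N) * B ^ ((2 : ℝ) / N) = c / 2 * T ^ 2 := by
      rw [mul_assoc, ← Real.mul_rpow (by positivity) hB0.le, hT, ← Real.rpow_natCast,
        ← Real.rpow_mul (by positivity)]
      congr 2
      · rw [div_eq_inv_mul]
      · push_cast; ring
    rw [h5]
    linarith

end

end Pool.Agent.K3H
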