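import Pool.Agent.K3H.KumUp

/-!
The bound `O(B^(2/N))` for dependent pairs without small relation.
-/

namespace Pool.Agent.K3H

open WeierstrassCurve WeierstrassCurve.Affine Height Polynomial

lemma poly_exp (a δ : ℝ) (ha : 0 ≤ a) (hδ : 0 < δ) :
    ∃ C : ℝ, 0 ≤ C ∧ ∀ x : ℝ, 0 ≤ x → (a * x + 1) ^ 2 ≤ C * Real.exp (δ * x) := by
  set M : ℝ := max 1 (2 * a / δ) with hM
  have hM1 : 1 ≤ M := le_max_left _ _
  refine ⟨M ^ 2, by positivity, ?_⟩
  intro x hx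
  have h1 : a ≤ M * (δ / 2) := by
    have : 2 * a / δ ≤ M := le_max_right _ _
    rw [div_le_iff₀ hδ] at this
    linarith
  have h2 : a * x + 1 ≤ M * (δ * x / 2 + 1) := by
    nlinarith
  have h3 : δ * x / 2 + 1 ≤ Real.exp (δ * x / 2) := Real.add_one_le_exp _
  have h4 : a * x + 1 ≤ M * Real.exp (δ * x / 2) :=
    h2.trans (mul_le_mul_of_nonneg_left h3 (by linarith))
  calc (a * x + 1) ^ 2 ≤ (M * Real.exp (δ * x / 2)) ^ 2 := pow_le_pow_left₀ (by positivity) h4 2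
    _ = M ^ 2 * (Real.exp (δ * x / 2) * Real.exp (δ * x / 2)) := by ring
    _ = M ^ 2 * Real.exp (δ * x) := by rw [← Real.exp_add]; ring_nf

section

variable {K : Type*} [Field K] [NumberField K]

lemma card_nset : ∃ C : ℝ, 0 ≤ C ∧ ∀ c : ℝ, 0 ≤ c →
    ((nset K c).card : ℝ) ≤ C * Real.exp (2 * c) := by
  obtain ⟨C, hC0, hC⟩ := count_height2 K
  refine ⟨C, hC0, ?_⟩
  intro c hc
  have h1 := hC (Real.exp c) (Real.one_le_exp hc) (nset K c) (by
    intro x hx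
    rw [mem_nset, logHeight₁_eq_log_mulHeight₁,
      Real.log_le_iff_le_exp (by have := one_le_mulHeight₁ x; linarith)] at hx
    exact hx)
  rwa [← Real.exp_nat_mul, Nat.cast_ofNat] at h1

/-- Sum over the pairs of integers. -/
lemma sum_pairs (N : ℕ) (hN : 1 ≤ N) (c0 : ℝ) (hc0 : 0 < c0) : ∃ C : ℝ, 0 ≤ C ∧ ∀ x : ℝ, 0 ≤ x →
    ∀ s : Finset (ℤ × ℤ), (∀ p ∈ s, (N : ℤ) ≤ p.1 ^ 2 + p.2 ^ 2 ∧
      c0 * ((p.1 : ℝ) ^ 2 + (p.2 : ℝ) ^ 2) ≤ x) →
    ∑ p ∈ s, Real.exp (2 * (x / ((p.1 : ℝ) ^ 2 + (p.2 : ℝ) ^ 2))) ≤ C * Real.exp (2 * x / N) := by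
  classical
  have hN0 : (0 : ℝ) < N := by exact_mod_cast hN
  set δ : ℝ := 2 / N - 2 / (N + 1) with hδ
  have hδ0 : 0 < δ := by
    rw [hδ, sub_pos]
    apply div_lt_div_of_pos_left (by norm_num) hN0
    linarith
  obtain ⟨C5, hC50, hC5⟩ := poly_exp (2 / c0) δ (by positivity) hδ0
  refine ⟨(2 * N + 1) ^ 2 + C5, by positivity, ?_⟩
  intro x hx s hs
  rw [← Finset.sum_filter_add_sum_filter_not s (fun p => p.1 ^ 2 + p.2 ^ 2 = (N : ℤ))]
  have habs : ∀ m n : ℤ, |m| ≤ m ^ 2 + n ^ 2 := by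
    intro m n
    have h1 : |m| ≤ m ^ 2 := by
      rcases eq_or_ne m 0 with rfl | hm
      · simp
      · have : 1 ≤ |m| := Int.one_le_abs hm
        rw [← sq_abs m]
        nlinarith
    nlinarith [sq_nonneg n]
  have hcardbox : ∀ (L : ℕ) (t : Finset (ℤ × ℤ)), (∀ p ∈ t, |p.1| ≤ L ∧ |p.2| ≤ L) →
      (t.card : ℝ) ≤ (2 * L + 1) ^ 2 := by
    intro L t ht
    have h1 : t ⊆ (Finset.Icc (-(L : ℤ)) L) ×ˢ (Finset.Icc (-(L : ℤ)) L) := by
      intro p hp
      rw [Finset.mem_product, Finset.mem_Icc, Finset.mem_Icc, ← abs_le, ← abs_le]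
      exact ht p hp
    have h2 := Finset.card_le_card h1
    rw [Finset.card_product, Int.card_Icc] at h2
    have h3 : ((L : ℤ) + 1 - -(L : ℤ)).toNat = 2 * L + 1 := by omega
    rw [h3] at h2
    calc (t.card : ℝ) ≤ (((2 * L + 1) * (2 * L + 1) : ℕ) : ℝ) := by exact_mod_cast h2
      _ = _ := by push_cast; ring
  have h1 : ∑ p ∈ s.filter (fun p => p.1 ^ 2 + p.2 ^ 2 = (N : ℤ)),
      Real.exp (2 * (x / ((p.1 : ℝ) ^ 2 + (p.2 : ℝ) ^ 2))) ≤ (2 * N + 1) ^ 2 * Real.exp (2 * x / N) := by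
    have e : ∀ p ∈ s.filter (fun p => p.1 ^ 2 + p.2 ^ 2 = (N : ℤ)),
        Real.exp (2 * (x / ((p.1 : ℝ) ^ 2 + (p.2 : ℝ) ^ 2))) = Real.exp (2 * x / N) := by
      intro p hp
      have h2 := (Finset.mem_filter.mp hp).2
      have h3 : ((p.1 : ℝ) ^ 2 + (p.2 : ℝ) ^ 2) = N := by exact_mod_cast h2
      rw [h3]
      congr 1
      ring
    rw [Finset.sum_congr rfl e, Finset.sum_const, nsmul_eq_mul]
    apply mul_le_mul_of_nonneg_right _ (Real.exp_nonneg _)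
    apply hcardbox N
    intro p hp
    have h2 := (Finset.mem_filter.mp hp).2
    have h3 := habs p.1 p.2
    have h4 := habs p.2 p.1
    constructor
    · linarith
    · linarith
  have h2 : ∑ p ∈ s.filter (fun p => ¬ p.1 ^ 2 + p.2 ^ 2 = (N : ℤ)),
      Real.exp (2 * (x / ((p.1 : ℝ) ^ 2 + (p.2 : ℝ) ^ 2))) ≤ C5 * Real.exp (2 * x / N) := by
    have e : ∀ p ∈ s.filter (fun p => ¬ p.1 ^ 2 + p.2 ^ 2 = (N : ℤ)),
        Real.exp (2 * (x / ((p.1 : ℝ) ^ 2 + (p.2 : ℝ) ^ 2))) ≤ Real.exp (2 * x / (N + 1)) := by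
      intro p hp
      obtain ⟨hp1, hp2⟩ := Finset.mem_filter.mp hp
      have h3 := (hs p hp1).1
      have h4 : (N : ℤ) + 1 ≤ p.1 ^ 2 + p.2 ^ 2 := by omega
      have h5 : (N : ℝ) + 1 ≤ ((p.1 : ℝ) ^ 2 + (p.2 : ℝ) ^ 2) := by exact_mod_cast h4
      apply Real.exp_le_exp.mpr
      rw [mul_div_assoc]
      apply mul_le_mul_of_nonneg_left _ (by norm_num)
      exact div_le_div_of_nonneg_left hx (by positivity) h5
    set L : ℕ := ⌊x / c0⌋₊ with hL
    have hcard := hcardbox L (s.filter (fun p => ¬ p.1 ^ 2 + p.2 ^ 2 = (N : ℤ))) (by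
      intro p hp
      obtain ⟨hp1, hp2⟩ := Finset.mem_filter.mp hp
      have h3 := (hs p hp1).2
      have h4 : (((p.1 ^ 2 + p.2 ^ 2).toNat : ℕ) : ℝ) ≤ x / c0 := by
        rw [le_div_iff₀ hc0]
        have h5 : (((p.1 ^ 2 + p.2 ^ 2).toNat : ℤ) : ℝ) = (p.1 : ℝ) ^ 2 + (p.2 : ℝ) ^ 2 := by
          rw [Int.toNat_of_nonneg (by positivity)]
          push_cast
          rfl
        have h6 : (((p.1 ^ 2 + p.2 ^ 2).toNat : ℕ) : ℝ) = (p.1 : ℝ) ^ 2 + (p.2 : ℝ) ^ 2 := by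
          rw [← h5]
          norm_cast
        rw [h6]
        linarith
      have h5 := Nat.le_floor h4
      have h6 := habs p.1 p.2
      have h7 := habs p.2 p.1
      have h8 : p.1 ^ 2 + p.2 ^ 2 ≤ (L : ℤ) := by
        have := Int.self_le_toNat (p.1 ^ 2 + p.2 ^ 2)
        omega
      constructor
      · linarith
      · linarith)
    have hLle : (L : ℝ) ≤ x / c0 := Nat.floor_le (by positivity)
    calc _ ≤ ∑ p ∈ s.filter (fun p => ¬ p.1 ^ 2 + p.2 ^ 2 = (N : ℤ)), Real.exp (2 * x / (N + 1)) :=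
          Finset.sum_le_sum e
      _ = ((s.filter (fun p => ¬ p.1 ^ 2 + p.2 ^ 2 = (N : ℤ))).card : ℝ) * Real.exp (2 * x / (N + 1)) := by
          rw [Finset.sum_const, nsmul_eq_mul]
      _ ≤ (2 * L + 1) ^ 2 * Real.exp (2 * x / (N + 1)) :=
          mul_le_mul_of_nonneg_right hcard (Real.exp_nonneg _)
      _ ≤ (2 / c0 * x + 1) ^ 2 * Real.exp (2 * x / (N + 1)) := by
          apply mul_le_mul_of_nonneg_right _ (Real.exp_nonneg _)
          apply pow_le_pow_left₀ (by positivity)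
          have : 2 / c0 * x = 2 * (x / c0) := by ring
          rw [this]
          linarith
      _ ≤ (C5 * Real.exp (δ * x)) * Real.exp (2 * x / (N + 1)) :=
          mul_le_mul_of_nonneg_right (hC5 x hx) (Real.exp_nonneg _)
      _ = C5 * Real.exp (2 * x / N) := by
          rw [mul_assoc, ← Real.exp_add]
          congr 2
          rw [hδ]
          ring
  rw [add_mul]
  exact add_le_add h1 h2

/-- The bound for dependent pairs all of whose relations have norm at least `N`. -/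
theorem dep_upper [DecidableEq K] {a b : K} (hd : 4 * a ^ 3 + 27 * b ^ 2 ≠ 0) (N : ℕ)
    (hN : 1 ≤ N) : ∃ C' : ℝ, 0 ≤ C' ∧ ∀ B : ℝ, 1 ≤ B → ∀ s : Finset (K × K × K),
      (∀ p ∈ s, p.2.2 ^ 2 = fc a b p.1 * fc a b p.2.1 ∧ p.2.2 ≠ 0 ∧
        mulHeight₁ p.1 * mulHeight₁ p.2.1 ≤ B ∧
        ∃ P Q, IsPair a b p.1 p.2.1 p.2.2 P Q ∧ ¬ LinearIndependent ℤ ![P, Q] ∧
          (¬ IsTors P → ¬ IsTors Q → ∀ m n : ℤ, IsCoprime m n → 2 • (m • P + n • Q) = 0 →
            (N : ℤ) ≤ m ^ 2 + n ^ 2)) →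
      (s.card : ℝ) ≤ C' * B ^ ((2 : ℝ) / N) := by
  classical
  obtain ⟨C, hC⟩ := exists_pack hd
  have hC0 := hC.nonneg
  set c0 : ℝ := 1 / ((nb K (1 + C) : ℝ) + 1) ^ 2 with hc0
  have hc00 : 0 < c0 := by positivity
  obtain ⟨C2, hC20, hC2⟩ := card_nset (K := K)
  obtain ⟨C3, hC30, hC3⟩ := sum_pairs N hN c0 hc00
  have hN0 : (0 : ℝ) < N := by exact_mod_cast hN
  obtain ⟨C4, hC40, hC4⟩ := exc_count hd ((2 : ℝ) / N) (by positivity)
  set nbC : ℝ := (nb K C : ℝ) with hnbC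
  refine ⟨((nset K C).card : ℝ) * C4 +
    4 * nbC ^ 2 * (C2 * Real.exp (2 * C) * (C3 * Real.exp (4 * C / N))), by positivity, ?_⟩
  intro B hB s hs
  set H : ℝ := Real.log B with hH
  have hH0 : 0 ≤ H := Real.log_nonneg hB
  have hBexp : ∀ η : ℝ, Real.exp (η * H) = B ^ η := by
    intro η
    rw [Real.rpow_def_of_pos (by linarith), mul_comm]
  have hheights : ∀ p ∈ s, 0 ≤ logHeight₁ p.1 ∧ 0 ≤ logHeight₁ p.2.1 ∧
      logHeight₁ p.1 + logHeight₁ p.2.1 ≤ H := by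
    intro p hp
    obtain ⟨_, _, h3, _⟩ := hs p hp
    have h1 := one_le_mulHeight₁ p.1
    have h2 := one_le_mulHeight₁ p.2.1
    rw [logHeight₁_eq_log_mulHeight₁, logHeight₁_eq_log_mulHeight₁]
    refine ⟨Real.log_nonneg h1, Real.log_nonneg h2, ?_⟩
    rw [← Real.log_mul (by linarith) (by linarith)]
    exact Real.log_le_log (by positivity) h3
  -- exceptional points
  let Exc : K × K × K → K → Prop := fun p τ => fc a b τ ≠ 0 ∧
    ∃ (D : K) (P Q R : (tw a b D).Point), D ≠ 0 ∧ xi D P = some p.1 ∧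
        xi D Q = some p.2.1 ∧ xi D R = some τ
  let s1 := s.filter (fun p => ∃ τ ∈ nset K C, Exc p τ)
  let s2 := s.filter (fun p => ¬ ∃ τ ∈ nset K C, Exc p τ)
  have hsplit : (s.card : ℝ) = s1.card + s2.card := by
    have := Finset.card_filter_add_card_filter_not (s := s) (fun p => ∃ τ ∈ nset K C, Exc p τ)
    exact_mod_cast this.symm
  have hs1 : (s1.card : ℝ) ≤ ((nset K C).card : ℝ) * C4 * B ^ ((2 : ℝ) / N) := by
    have h1 : s1 ⊆ (nset K C).biUnion (fun τ => s.filter (fun p => Exc p τ)) := by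
      intro p hp
      obtain ⟨hp1, τ, hτ, hE⟩ := Finset.mem_filter.mp hp
      rw [Finset.mem_biUnion]
      exact ⟨τ, hτ, Finset.mem_filter.mpr ⟨hp1, hE⟩⟩
    have h2 : (s1.card : ℝ) ≤ ∑ τ ∈ nset K C, ((s.filter (fun p => Exc p τ)).card : ℝ) := by
      have := (Finset.card_le_card h1).trans Finset.card_biUnion_le
      exact_mod_cast this
    have h3 : ∀ τ ∈ nset K C, ((s.filter (fun p => Exc p τ)).card : ℝ) ≤ C4 * B ^ ((2 : ℝ) / N) := by
      intro τ _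
      by_cases hτ : fc a b τ = 0
      · have : s.filter (fun p => Exc p τ) = ∅ := by
          apply Finset.filter_eq_empty_iff.mpr
          intro p _ hE
          exact hE.1 hτ
        rw [this, Finset.card_empty]
        push_cast
        positivity
      · have := hC4 τ hτ H hH0 (s.filter (fun p => Exc p τ)) (by
          intro p hp
          obtain ⟨hp1, hp2, D, P, Q, R, hD, hP, hQ, hR⟩ := Finset.mem_filter.mp hp
          have h4 := hheights p hp1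
          exact ⟨(hs p hp1).1, D, P, Q, R, hD, hP, hQ, hR, by linarith, by linarith⟩)
        rw [hBexp] at this
        exact this
    calc (s1.card : ℝ) ≤ _ := h2
      _ ≤ ∑ τ ∈ nset K C, C4 * B ^ ((2 : ℝ) / N) := Finset.sum_le_sum h3
      _ = _ := by rw [Finset.sum_const, nsmul_eq_mul, mul_assoc]
  -- main points
  let Good : K × K × K → (ℤ × ℤ) × K → Prop := fun p i =>
    fc a b i.2 ≠ 0 ∧ (N : ℤ) ≤ i.1.1 ^ 2 + i.1.2 ^ 2 ∧
      c0 * ((i.1.1 : ℝ) ^ 2 + (i.1.2 : ℝ) ^ 2) ≤ H + 2 * C ∧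
      logHeight₁ i.2 ≤ (H + 2 * C) / ((i.1.1 : ℝ) ^ 2 + (i.1.2 : ℝ) ^ 2) + C ∧
      ∃ (D : K) (P Q R T₁ T₂ : (tw a b D).Point), D ≠ 0 ∧ xi D P = some p.1 ∧
        xi D Q = some p.2.1 ∧ xi D R = some i.2 ∧ IsTors T₁ ∧ IsTors T₂ ∧
        P = i.1.2 • R + T₁ ∧ Q = (-i.1.1) • R + T₂
  have hgood : ∀ p ∈ s2, ∃ i, Good p i := by
    intro p hp
    obtain ⟨hps, hnE⟩ := Finset.mem_filter.mp hp
    obtain ⟨hsurf, hw, hB', P, Q, hpair, hdep, hrel⟩ := hs p hps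
    obtain ⟨hx, hz⟩ := fc_ne_of_w hsurf hw
    obtain ⟨hxiP, hxiQ⟩ := pair_xi hx hpair
    obtain ⟨q, hq, hqC⟩ := hC.ex _ hx
    obtain ⟨hh1, hh2, hh3⟩ := hheights p hps
    have htP : ht (fc a b p.1) P = logHeight₁ p.1 := by rw [ht_eq_oh, hxiP]; rfl
    have htQ : ht (fc a b p.1) Q = logHeight₁ p.2.1 := by rw [ht_eq_oh, hxiQ]; rfl
    have hPt : ¬ IsTors P := by
      intro h
      apply hnE
      refine ⟨p.1, ?_, hx, fc a b p.1, P, Q, P, hx, hxiP, hxiQ, hxiP⟩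
      rw [mem_nset, ← htP]
      exact tors_ht_le hq hqC h
    have hQt : ¬ IsTors Q := by
      intro h
      apply hnE
      refine ⟨p.2.1, ?_, hz, fc a b p.1, P, Q, Q, hx, hxiP, hxiQ, hxiQ⟩
      rw [mem_nset, ← htQ]
      exact tors_ht_le hq hqC h
    obtain ⟨m, n, u, v, R, T, hmn, hm0, hn0, hTe, hT, hPe, hQe, hRt⟩ := dep_structure hPt hQt hdep
    have h2T : 2 • T = 0 := by
      by_contra h2T
      apply hnE
      have hT0 : T ≠ 0 := by
        rintro rfl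
        exact h2T (smul_zero 2)
      obtain ⟨τ, hτ⟩ := xi_ne_none (D := fc a b p.1) hT0
      refine ⟨τ, ?_, ?_, fc a b p.1, P, Q, T, hx, hxiP, hxiQ, hτ⟩
      · have := tors_ht_le hq hqC hT
        rw [ht_eq_oh, hτ] at this
        rw [mem_nset]
        exact this
      · intro h
        exact h2T (two_smul_of_fc hx hτ h)
    have hmnN := hrel hPt hQt m n hmn (by rw [← hTe]; exact h2T)
    have hR0 : R ≠ 0 := by
      rintro rfl
      exact hRt ⟨1, one_ne_zero, by simp⟩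
    obtain ⟨ρ, hρ⟩ := xi_ne_none (D := fc a b p.1) hR0
    have hfρ : fc a b ρ ≠ 0 := by
      intro h
      exact hRt ⟨2, two_ne_zero, two_smul_of_fc hx hρ h⟩
    have hTz : ∀ k : ℤ, IsTors (k • T) := by
      intro k
      obtain ⟨r, hr, h⟩ := hT
      exact ⟨r, hr, by rw [smul_comm, h, smul_zero]⟩
    have hqP : q P = (n : ℝ) ^ 2 * q R := by
      obtain ⟨r, hr, h⟩ := hTz u
      rw [hPe, hq.add_torsion hr h, hq.zsmul]
    have hqQ : q Q = (m : ℝ) ^ 2 * q R := by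
      obtain ⟨r, hr, h⟩ := hTz v
      rw [hQe, hq.add_torsion hr h, hq.zsmul]
      push_cast
      ring
    have hqR := nontors_lower hx hq hqC hRt
    have hPC := hqC P
    have hQC := hqC Q
    have hRC := hqC R
    rw [htP, abs_le] at hPC
    rw [htQ, abs_le] at hQC
    rw [abs_le] at hRC
    have hsum : ((m : ℝ) ^ 2 + (n : ℝ) ^ 2) * q R ≤ H + 2 * C := by
      have : ((m : ℝ) ^ 2 + (n : ℝ) ^ 2) * q R = q P + q Q := by rw [hqP, hqQ]; ring
      rw [this]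
      linarith [hPC.2, hQC.2]
    have hmn1 : (1 : ℝ) ≤ (m : ℝ) ^ 2 + (n : ℝ) ^ 2 := by
      have h1 : (1 : ℤ) ≤ m ^ 2 + n ^ 2 := by
        have : (1 : ℤ) ≤ N := by exact_mod_cast hN
        linarith
      exact_mod_cast h1
    refine ⟨((m, n), ρ), hfρ, hmnN, ?_, ?_, fc a b p.1, P, Q, R, u • T, v • T, hx, hxiP, hxiQ, hρ,
      hTz u, hTz v, hPe, hQe⟩
    · calc c0 * ((m : ℝ) ^ 2 + (n : ℝ) ^ 2) = ((m : ℝ) ^ 2 + (n : ℝ) ^ 2) * c0 := mul_comm _ _
        _ ≤ ((m : ℝ) ^ 2 + (n : ℝ) ^ 2) * q R := mul_le_mul_of_nonneg_left hqR (by linarith)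
        _ ≤ _ := hsum
    · have h1 : ht (fc a b p.1) R = logHeight₁ ρ := by rw [ht_eq_oh, hρ]; rfl
      rw [h1] at hRC
      have h2 : q R ≤ (H + 2 * C) / ((m : ℝ) ^ 2 + (n : ℝ) ^ 2) := by
        rw [le_div_iff₀ (by linarith)]
        linarith
      show logHeight₁ ρ ≤ (H + 2 * C) / ((m : ℝ) ^ 2 + (n : ℝ) ^ 2) + C
      linarith [hRC.1]
  choose! idx hidx using hgood
  have hx0 : 0 ≤ H + 2 * C := by linarith
  have hs2a : s2.card ≤ (4 * (nb K C) ^ 2) * (s2.image idx).card := by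
    apply Finset.card_le_mul_card_image
    intro i hi
    obtain ⟨p0, hp0, rfl⟩ := Finset.mem_image.mp hi
    apply fiber_main hd hC (hidx p0 hp0).1 (idx p0).1.1 (idx p0).1.2
    intro p hp
    obtain ⟨hp1, hp2⟩ := Finset.mem_filter.mp hp
    have h1 := hidx p hp1
    rw [hp2] at h1
    exact ⟨(hs p (Finset.mem_filter.mp hp1).1).1, h1.2.2.2.2⟩
  have hs2b : ((s2.image idx).card : ℝ) ≤
      C2 * Real.exp (2 * C) * (C3 * Real.exp (2 * (H + 2 * C) / N)) := by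
    set J := (s2.image idx).image Prod.fst with hJ
    have h1 : (s2.image idx).card ≤ ∑ j ∈ J, ((s2.image idx).filter (fun i => i.1 = j)).card := by
      rw [Finset.card_eq_sum_card_image Prod.fst]
    have h2 : ∀ j ∈ J, (((s2.image idx).filter (fun i => i.1 = j)).card : ℝ) ≤
        C2 * Real.exp (2 * C) * Real.exp (2 * ((H + 2 * C) / ((j.1 : ℝ) ^ 2 + (j.2 : ℝ) ^ 2))) := by
      intro j hj
      have h3 : ((s2.image idx).filter (fun i => i.1 = j)).card ≤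
          (nset K ((H + 2 * C) / ((j.1 : ℝ) ^ 2 + (j.2 : ℝ) ^ 2) + C)).card := by
        apply Finset.card_le_card_of_injOn (fun i => i.2)
        · intro i hi
          obtain ⟨hi1, hi2⟩ := Finset.mem_filter.mp hi
          obtain ⟨p, hp, rfl⟩ := Finset.mem_image.mp hi1
          have := (hidx p hp).2.2.2.1
          rw [hi2] at this
          exact mem_nset.mpr this
        · intro i hi i' hi' h
          have e1 := (Finset.mem_filter.mp hi).2
          have e2 := (Finset.mem_filter.mp hi').2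
          exact Prod.ext (e1.trans e2.symm) h
      have h4 := hC2 ((H + 2 * C) / ((j.1 : ℝ) ^ 2 + (j.2 : ℝ) ^ 2) + C) (by positivity)
      calc _ ≤ ((nset K ((H + 2 * C) / ((j.1 : ℝ) ^ 2 + (j.2 : ℝ) ^ 2) + C)).card : ℝ) := by
            exact_mod_cast h3
        _ ≤ _ := h4
        _ = _ := by rw [mul_add, Real.exp_add]; ring
    have h5 := hC3 (H + 2 * C) hx0 J (by
      intro j hj
      obtain ⟨i, hi, rfl⟩ := Finset.mem_image.mp hj
      obtain ⟨p, hp, rfl⟩ := Finset.mem_image.mp hi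
      exact ⟨(hidx p hp).2.1, (hidx p hp).2.2.1⟩)
    calc ((s2.image idx).card : ℝ) ≤ ∑ j ∈ J, (((s2.image idx).filter (fun i => i.1 = j)).card : ℝ) := by
          exact_mod_cast h1
      _ ≤ ∑ j ∈ J, C2 * Real.exp (2 * C) *
          Real.exp (2 * ((H + 2 * C) / ((j.1 : ℝ) ^ 2 + (j.2 : ℝ) ^ 2))) := Finset.sum_le_sum h2
      _ = C2 * Real.exp (2 * C) *
          ∑ j ∈ J, Real.exp (2 * ((H + 2 * C) / ((j.1 : ℝ) ^ 2 + (j.2 : ℝ) ^ 2))) := by
          rw [Finset.mul_sum]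
      _ ≤ _ := mul_le_mul_of_nonneg_left h5 (by positivity)
  have hs2 : (s2.card : ℝ) ≤ 4 * nbC ^ 2 * (C2 * Real.exp (2 * C) * (C3 * Real.exp (4 * C / N))) *
      B ^ ((2 : ℝ) / N) := by
    have h1 : (s2.card : ℝ) ≤ 4 * nbC ^ 2 * ((s2.image idx).card : ℝ) := by
      rw [hnbC]
      exact_mod_cast hs2a
    have h2 : Real.exp (2 * (H + 2 * C) / N) = Real.exp (4 * C / N) * B ^ ((2 : ℝ) / N) := by
      rw [← hBexp, ← Real.exp_add]
      congr 1
      ring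
    calc (s2.card : ℝ) ≤ _ := h1
      _ ≤ 4 * nbC ^ 2 * (C2 * Real.exp (2 * C) * (C3 * Real.exp (2 * (H + 2 * C) / N))) :=
          mul_le_mul_of_nonneg_left hs2b (by positivity)
      _ = _ := by rw [h2]; ring
  rw [hsplit, add_mul]
  exact add_le_add hs1 hs2

end

end Pool.Agent.K3H
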