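import Pool.Agent.K3H.Kum

/-!
Upper bounds for rational points of the Kummer surface attached to dependent pairs.
-/

namespace Pool.Agent.K3H

open WeierstrassCurve WeierstrassCurve.Affine Height Polynomial

variable {K : Type*} [Field K] [DecidableEq K]

lemma card_triples (a b : K) (s : Finset (K × K × K))
    (hs : ∀ p ∈ s, p.2.2 ^ 2 = fc a b p.1 * fc a b p.2.1) :
    s.card ≤ 2 * (s.image (fun p : K × K × K => (p.1, p.2.1))).card := by
  apply Finset.card_le_mul_card_image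
  intro xz hxz
  obtain ⟨p, hp, rfl⟩ := Finset.mem_image.mp hxz
  calc _ ≤ ({p, (p.1, p.2.1, -p.2.2)} : Finset (K × K × K)).card := by
        apply Finset.card_le_card
        intro q hq
        rw [Finset.mem_filter] at hq
        obtain ⟨hq1, hq2⟩ := hq
        simp only [Prod.mk.injEq] at hq2
        have h1 := hs p hp
        have h2 := hs q hq1
        rw [hq2.1, hq2.2, ← h1, sq_eq_sq_iff_eq_or_eq_neg] at h2
        rw [Finset.mem_insert, Finset.mem_singleton]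
        rcases h2 with h2 | h2
        · left; exact Prod.ext hq2.1 (Prod.ext hq2.2 h2)
        · right; exact Prod.ext hq2.1 (Prod.ext hq2.2 h2)
    _ ≤ 2 := Finset.card_le_two

lemma transport {a b D ρ : K} (hD : D ≠ 0) {R : (tw a b D).Point} (hR : xi D R = some ρ)
    (hρ : fc a b ρ ≠ 0) :
    ∃ φ : (tw a b D).Point →+ (tw a b (fc a b ρ)).Point, Function.Injective φ ∧
      ∀ S, xi (fc a b ρ) (φ S) = xi D S := by
  obtain ⟨X, Y, hn, hPe, hX⟩ := xi_eq_some hR
  have hY := pt_y hD hn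
  rw [hX] at hY
  have hY0 : Y ≠ 0 := by
    intro h
    rw [h] at hY
    have : D ^ 3 * fc a b ρ = 0 := by rw [← hY]; ring
    exact (mul_ne_zero (pow_ne_zero 3 hD) hρ) this
  have hl : Y / D ^ 2 ≠ 0 := div_ne_zero hY0 (pow_ne_zero 2 hD)
  have hDl : fc a b ρ = D * (Y / D ^ 2) ^ 2 := by
    rw [div_pow, hY]
    field_simp
  exact exists_scale a b hl hDl

section

variable [CharZero K] [AdmissibleAbsValues K] [Northcott (mulHeight₁ (K := K))]

lemma fiber_main {a b : K} (hd : 4 * a ^ 3 + 27 * b ^ 2 ≠ 0) {C : ℝ} (hC : Pack a b C) {ρ : K}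
    (hρ : fc a b ρ ≠ 0) (m n : ℤ) (s : Finset (K × K × K))
    (hs : ∀ p ∈ s, p.2.2 ^ 2 = fc a b p.1 * fc a b p.2.1 ∧
      ∃ (D : K) (P Q R T₁ T₂ : (tw a b D).Point), D ≠ 0 ∧ xi D P = some p.1 ∧
        xi D Q = some p.2.1 ∧ xi D R = some ρ ∧ IsTors T₁ ∧ IsTors T₂ ∧
        P = n • R + T₁ ∧ Q = (-m) • R + T₂) : s.card ≤ 4 * (nb K C) ^ 2 := by
  classical
  obtain ⟨R0, hR0⟩ := std_point hd hρ
  obtain ⟨q, hq, hqC⟩ := hC.ex _ hρ
  let TT : Finset (tw a b (fc a b ρ)).Point := (finite_ht_le hρ (tw a b (fc a b ρ)) C).toFinset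
  have hTT : TT.card ≤ nb K C := card_le_nb hρ TT (fun P hP => by simpa [TT] using hP)
  let g : Bool × ((tw a b (fc a b ρ)).Point × (tw a b (fc a b ρ)).Point) → K × K := fun t =>
    ((xi (fc a b ρ) (n • (if t.1 then R0 else -R0) + t.2.1)).getD 0,
      (xi (fc a b ρ) ((-m) • (if t.1 then R0 else -R0) + t.2.2)).getD 0)
  have hsub : s.image (fun p : K × K × K => (p.1, p.2.1)) ⊆
      ((Finset.univ : Finset Bool) ×ˢ (TT ×ˢ TT)).image g := by
    intro xz hxz
    obtain ⟨p, hp, rfl⟩ := Finset.mem_image.mp hxz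
    obtain ⟨_, D, P, Q, R, T₁, T₂, hD, hP, hQ, hR, hT₁, hT₂, hPe, hQe⟩ := hs p hp
    obtain ⟨φ, hφ, hφx⟩ := transport hD hR hρ
    have htors : ∀ T : (tw a b D).Point, IsTors T → φ T ∈ TT := by
      intro T hT
      simp only [TT, Set.Finite.mem_toFinset, Set.mem_ofPred_eq]
      apply tors_ht_le hq hqC
      obtain ⟨k, hk, h⟩ := hT
      exact ⟨k, hk, by rw [← map_nsmul, h, map_zero]⟩
    have hR' : xi (fc a b ρ) (φ R) = xi (fc a b ρ) R0 := by rw [hφx, hR, hR0]
    rw [Finset.mem_image]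
    have hP2 : xi (fc a b ρ) (n • φ R + φ T₁) = some p.1 := by
      rw [← hP, ← hφx, hPe, map_add, map_zsmul]
    have hQ2 : xi (fc a b ρ) ((-m) • φ R + φ T₂) = some p.2.1 := by
      rw [← hQ, ← hφx, hQe, map_add, map_zsmul]
    rcases eq_or_neg_of_xi hρ hR' with h | h
    · refine ⟨(true, (φ T₁, φ T₂)), ?_, ?_⟩
      · simp only [Finset.mem_product, Finset.mem_univ, true_and]
        exact ⟨htors _ hT₁, htors _ hT₂⟩
      · simp only [g, if_true]
        rw [h, hP2, hQ2]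
        rfl
    · refine ⟨(false, (φ T₁, φ T₂)), ?_, ?_⟩
      · simp only [Finset.mem_product, Finset.mem_univ, true_and]
        exact ⟨htors _ hT₁, htors _ hT₂⟩
      · simp only [g, Bool.false_eq_true, if_false]
        have h' : -R0 = φ R := by rw [h, neg_neg]
        rw [h', hP2, hQ2]
        rfl
  have h1 := card_triples a b s (fun p hp => (hs p hp).1)
  have h2 := (Finset.card_le_card hsub).trans Finset.card_image_le
  rw [Finset.card_product, Finset.card_product, Finset.card_univ, Fintype.card_bool] at h2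
  calc s.card ≤ 2 * (s.image (fun p : K × K × K => (p.1, p.2.1))).card := h1
    _ ≤ 2 * (2 * (TT.card * TT.card)) := Nat.mul_le_mul_left 2 h2
    _ ≤ 2 * (2 * (nb K C * nb K C)) := by gcongr
    _ = 4 * (nb K C) ^ 2 := by ring

end

section

variable [NumberField K]

lemma exc_count {a b : K} (hd : 4 * a ^ 3 + 27 * b ^ 2 ≠ 0) (η : ℝ) (hη : 0 < η) :
    ∃ Cη : ℝ, 0 ≤ Cη ∧ ∀ τ : K, fc a b τ ≠ 0 → ∀ H : ℝ, 0 ≤ H → ∀ s : Finset (K × K × K),
      (∀ p ∈ s, p.2.2 ^ 2 = fc a b p.1 * fc a b p.2.1 ∧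
        ∃ (D : K) (P Q R : (tw a b D).Point), D ≠ 0 ∧ xi D P = some p.1 ∧
        xi D Q = some p.2.1 ∧ xi D R = some τ ∧ logHeight₁ p.1 ≤ H ∧ logHeight₁ p.2.1 ≤ H) →
      (s.card : ℝ) ≤ Cη * Real.exp (η * H) := by
  classical
  obtain ⟨C1, hC10, hC1⟩ := count_points hd (η / 2) (by positivity)
  refine ⟨2 * C1 ^ 2, by positivity, ?_⟩
  intro τ hτ H hH s hs
  let PP : Finset (tw a b (fc a b τ)).Point := (finite_ht_le hτ (tw a b (fc a b τ)) H).toFinset
  have hPP := hC1 (fc a b τ) hτ H hH PP (fun P hP => by simpa [PP] using hP)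
  let g : (tw a b (fc a b τ)).Point × (tw a b (fc a b τ)).Point → K × K := fun t =>
    ((xi (fc a b τ) t.1).getD 0, (xi (fc a b τ) t.2).getD 0)
  have hsub : s.image (fun p : K × K × K => (p.1, p.2.1)) ⊆ (PP ×ˢ PP).image g := by
    intro xz hxz
    obtain ⟨p, hp, rfl⟩ := Finset.mem_image.mp hxz
    obtain ⟨_, D, P, Q, R, hD, hP, hQ, hR, hx, hz⟩ := hs p hp
    obtain ⟨φ, hφ, hφx⟩ := transport hD hR hτ
    rw [Finset.mem_image]
    refine ⟨(φ P, φ Q), ?_, ?_⟩
    · rw [Finset.mem_product]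
      simp only [PP, Set.Finite.mem_toFinset, Set.mem_ofPred_eq]
      refine ⟨?_, ?_⟩
      · rw [ht_eq_oh, hφx, hP]; exact hx
      · rw [ht_eq_oh, hφx, hQ]; exact hz
    · simp only [g]
      rw [hφx, hφx, hP, hQ]
      rfl
  have h1 := card_triples a b s (fun p hp => (hs p hp).1)
  have h2 := (Finset.card_le_card hsub).trans Finset.card_image_le
  rw [Finset.card_product] at h2
  have h3 : (s.card : ℝ) ≤ 2 * ((PP.card : ℝ) * PP.card) := by
    have : s.card ≤ 2 * (PP.card * PP.card) := h1.trans (Nat.mul_le_mul_left 2 h2)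
    exact_mod_cast this
  calc (s.card : ℝ) ≤ 2 * ((PP.card : ℝ) * PP.card) := h3
    _ ≤ 2 * ((C1 * Real.exp (η / 2 * H)) * (C1 * Real.exp (η / 2 * H))) := by
        gcongr
    _ = 2 * C1 ^ 2 * (Real.exp (η / 2 * H) * Real.exp (η / 2 * H)) := by ring
    _ = 2 * C1 ^ 2 * Real.exp (η * H) := by rw [← Real.exp_add]; ring_nf

end

end Pool.Agent.K3H
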