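import Pool.Agent.K3H.Kum

/-!
A nonzero polynomial vanishing on all special curves of small norm.
-/

namespace Pool.Agent.K3H

open WeierstrassCurve WeierstrassCurve.Affine Height Polynomial

variable {K : Type*} [Field K] [NumberField K] [DecidableEq K]

omit [NumberField K] [DecidableEq K] in
lemma mv_eval (A : K[X]) (i : Fin 2) (f : Fin 2 → K) :
    MvPolynomial.eval f (Polynomial.aeval (MvPolynomial.X i : MvPolynomial (Fin 2) K) A) =
      A.eval (f i) := by
  rw [Polynomial.aeval_def, Polynomial.hom_eval₂, MvPolynomial.eval_X]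
  have : (MvPolynomial.eval f).comp (algebraMap K (MvPolynomial (Fin 2) K)) = RingHom.id K := by
    ext c
    simp
  rw [this]
  rfl

/-- The polynomial expressing `k P = ± l Q`. -/
noncomputable def relPoly (A B A' B' : K[X]) : MvPolynomial (Fin 2) K :=
  Polynomial.aeval (MvPolynomial.X 0 : MvPolynomial (Fin 2) K) A *
    Polynomial.aeval (MvPolynomial.X 1 : MvPolynomial (Fin 2) K) B' -
  Polynomial.aeval (MvPolynomial.X 1 : MvPolynomial (Fin 2) K) A' *
    Polynomial.aeval (MvPolynomial.X 0 : MvPolynomial (Fin 2) K) B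

omit [NumberField K] [DecidableEq K] in
lemma relPoly_eval (A B A' B' : K[X]) (x z : K) :
    MvPolynomial.eval ![x, z] (relPoly A B A' B') =
      A.eval x * B'.eval z - A'.eval z * B.eval x := by
  rw [relPoly, map_sub, map_mul, map_mul, mv_eval, mv_eval, mv_eval, mv_eval]
  rfl

lemma relPoly_ne {a b : K} (hd : 4 * a ^ 3 + 27 * b ^ 2 ≠ 0) {k l : ℕ} (hk : 1 ≤ k)
    {A B A' B' : K[X]} (h : MulG a b k A B) (h' : MulG a b l A' B') :
    relPoly A B A' B' ≠ 0 := by
  obtain ⟨C, hC⟩ := exists_pack hd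
  have hC0 := hC.nonneg
  obtain ⟨z, hz1, hz2⟩ := exists_large (fp a b) (fp_ne_zero a b) C
  rw [fp_eval] at hz1
  obtain ⟨Q, hQ⟩ := std_point hd hz1
  obtain ⟨q', hq', hqC'⟩ := hC.ex _ hz1
  have hQt : ¬ IsTors Q := by
    intro ht
    have := tors_ht_le hq' hqC' ht
    rw [ht_eq_oh, hQ] at this
    exact absurd this (not_le.mpr hz2)
  have hB' := h'.2 _ hz1 Q z hQt hQ
  set v : K := A'.eval z / B'.eval z with hv
  obtain ⟨x, hx1, hx2⟩ := exists_large (fp a b) (fp_ne_zero a b) (logHeight₁ v + 2 * C)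
  rw [fp_eval] at hx1
  have hv0 : 0 ≤ logHeight₁ v := by
    rw [logHeight₁_eq_log_mulHeight₁]
    exact Real.log_nonneg (one_le_mulHeight₁ v)
  obtain ⟨P, hP⟩ := std_point hd hx1
  obtain ⟨q, hq, hqC⟩ := hC.ex _ hx1
  have hPh : ht (fc a b x) P = logHeight₁ x := by rw [ht_eq_oh, hP]; rfl
  have hPt : ¬ IsTors P := by
    intro ht
    have := tors_ht_le hq hqC ht
    rw [hPh] at this
    linarith
  have hB := h.2 _ hx1 P x hPt hP
  have hk2 := h.1.2 _ hx1 P x hP hB
  have hkh : ht (fc a b x) (k • P) = logHeight₁ (A.eval x / B.eval x) := by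
    rw [ht_eq_oh, hk2]; rfl
  have h1 := hqC P
  have h2 := hqC (k • P)
  rw [hPh, abs_le] at h1
  rw [hkh, hq.nsmul, abs_le] at h2
  have h3 : (1 : ℝ) ≤ (k : ℝ) ^ 2 := by
    have : (1 : ℝ) ≤ k := by exact_mod_cast hk
    nlinarith
  have h4 : q P ≤ (k : ℝ) ^ 2 * q P := by
    have : 0 ≤ q P := q_nonneg hq hqC P
    nlinarith
  have h5 : logHeight₁ v < logHeight₁ (A.eval x / B.eval x) := by linarith [h1.1, h2.2]
  have h6 : A.eval x / B.eval x ≠ v := by
    intro h7
    rw [h7] at h5
    exact lt_irrefl _ h5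
  intro h7
  have h8 := relPoly_eval A B A' B' x z
  rw [h7, map_zero] at h8
  apply h6
  rw [hv, div_eq_div_iff hB hB']
  linear_combination -h8

/-- A nonzero polynomial vanishing at all pairs with a small relation. -/
theorem exists_van {a b : K} (hd : 4 * a ^ 3 + 27 * b ^ 2 ≠ 0) (M : ℕ) :
    ∃ F : MvPolynomial (Fin 2) K, F ≠ 0 ∧ ∀ x z w : K, w ^ 2 = fc a b x * fc a b z → w ≠ 0 →
      ∀ P Q, IsPair a b x z w P Q → ¬ IsTors P → ¬ IsTors Q → ∀ m n : ℤ, IsCoprime m n →
        m ^ 2 + n ^ 2 < M → 2 • (m • P + n • Q) = 0 → MvPolynomial.eval ![x, z] F = 0 := by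
  classical
  have hex : ∀ k : ℕ, ∃ AB : K[X] × K[X], MulG a b (2 * (k + 1)) AB.1 AB.2 := by
    intro k
    obtain ⟨A, B, h⟩ := exists_mulG hd (2 * (k + 1)) (by omega)
    exact ⟨(A, B), h⟩
  choose AB hAB using hex
  refine ⟨∏ k ∈ Finset.range M, ∏ l ∈ Finset.range M,
    relPoly (AB k).1 (AB k).2 (AB l).1 (AB l).2, ?_, ?_⟩
  · rw [Finset.prod_ne_zero_iff]
    intro k _
    rw [Finset.prod_ne_zero_iff]
    intro l _
    exact relPoly_ne hd (by omega) (hAB k) (hAB l)
  · intro x z w hs hw P Q hpair hPt hQt m n hmn hlt hrel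
    obtain ⟨hx, hz⟩ := fc_ne_of_w hs hw
    obtain ⟨hxiP, hxiQ⟩ := pair_xi hx hpair
    have hm0 : m ≠ 0 := by
      intro h
      have hu : IsUnit n := by
        rw [h, isCoprime_zero_left] at hmn
        exact hmn
      apply hQt
      refine ⟨2, two_ne_zero, ?_⟩
      rw [h, zero_smul, zero_add] at hrel
      rcases Int.isUnit_iff.mp hu with h1 | h1
      · rwa [h1, one_smul] at hrel
      · rwa [h1, neg_smul, one_smul, smul_neg, neg_eq_zero] at hrel
    have hn0 : n ≠ 0 := by
      intro h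
      have hu : IsUnit m := by
        rw [h, isCoprime_zero_right] at hmn
        exact hmn
      apply hPt
      refine ⟨2, two_ne_zero, ?_⟩
      rw [h, zero_smul, add_zero] at hrel
      rcases Int.isUnit_iff.mp hu with h1 | h1
      · rwa [h1, one_smul] at hrel
      · rwa [h1, neg_smul, one_smul, smul_neg, neg_eq_zero] at hrel
    obtain ⟨k, hk⟩ : ∃ k : ℕ, m.natAbs = k + 1 := ⟨m.natAbs - 1, by have := Int.natAbs_pos.mpr hm0; omega⟩
    obtain ⟨l, hl⟩ : ∃ l : ℕ, n.natAbs = l + 1 := ⟨n.natAbs - 1, by have := Int.natAbs_pos.mpr hn0; omega⟩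
    have hle : ∀ t : ℤ, (t.natAbs : ℤ) ≤ t ^ 2 := by
      intro t
      rw [Int.natCast_natAbs, ← sq_abs]
      rcases eq_or_ne t 0 with rfl | ht
      · simp
      · have : 1 ≤ |t| := Int.one_le_abs ht
        nlinarith
    have hkM : k < M := by
      have h1 := hle m
      rw [hk] at h1
      push_cast at h1
      have : (k : ℤ) < M := by nlinarith [sq_nonneg n]
      exact_mod_cast this
    have hlM : l < M := by
      have h1 := hle n
      rw [hl] at h1
      push_cast at h1
      have : (l : ℤ) < M := by nlinarith [sq_nonneg m]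
      exact_mod_cast this
    rw [map_prod]
    apply Finset.prod_eq_zero (Finset.mem_range.mpr hkM)
    rw [map_prod]
    apply Finset.prod_eq_zero (Finset.mem_range.mpr hlM)
    rw [relPoly_eval]
    have hB := (hAB k).2 _ hx P x hPt hxiP
    have hB' := (hAB l).2 _ hx Q z hQt hxiQ
    have h1 := (hAB k).1.2 _ hx P x hxiP hB
    have h2 := (hAB l).1.2 _ hx Q z hxiQ hB'
    have hnat : ∀ (t : ℤ) (S : (tw a b (fc a b x)).Point),
        xi (fc a b x) ((2 * t.natAbs) • S) = xi (fc a b x) ((2 * t) • S) := by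
      intro t S
      rcases t.natAbs_eq with h | h
      · nth_rewrite 2 [h]
        rw [← natCast_zsmul]
        push_cast
        rfl
      · nth_rewrite 2 [h]
        rw [mul_neg, neg_smul, xi_neg, ← natCast_zsmul]
        push_cast
        rfl
    have h3 : (2 * m) • P = -((2 * n) • Q) := by
      rw [eq_neg_iff_add_eq_zero]
      have : (2 * m) • P + (2 * n) • Q = ((2 : ℕ) : ℤ) • (m • P + n • Q) := by
        push_cast
        module
      rw [this, natCast_zsmul]
      exact hrel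
    have h4 : xi (fc a b x) ((2 * (k + 1)) • P) = xi (fc a b x) ((2 * (l + 1)) • Q) := by
      rw [← hk, ← hl, hnat, hnat, h3, xi_neg]
    rw [h1, h2, Option.some.injEq, div_eq_div_iff hB hB'] at h4
    rw [h4]
    ring

end Pool.Agent.K3H
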