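import Pool.Agent.K3H.Mult

/-!
Multiplication by `k` followed by translation by a point of order two, on normalised
x-coordinates: rational functions, independent of the twist, without poles at points of
infinite order.
-/

namespace Pool.Agent.K3H

open WeierstrassCurve WeierstrassCurve.Affine Height Polynomial

variable {K : Type*} [Field K]

lemma pt_y {a b D X Y : K} (hD : D ≠ 0) (h : (tw a b D).Nonsingular X Y) :
    Y ^ 2 = D ^ 3 * fc a b (X / D) := by
  have h1 := h.1
  rw [Affine.equation_iff] at h1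
  simp only [sw_a1, sw_a2, sw_a3, sw_a4, sw_a6, zero_mul, add_zero] at h1
  rw [h1, fc]
  field_simp

variable [DecidableEq K]

lemma two_smul_of_fc {a b D : K} (hD : D ≠ 0) {P : (tw a b D).Point} {x : K}
    (hP : xi D P = some x) (hx : fc a b x = 0) : 2 • P = 0 := by
  obtain ⟨X, Y, hn, rfl, hX⟩ := xi_eq_some hP
  have h1 := pt_y hD hn
  rw [hX, hx, mul_zero] at h1
  have hY : Y = 0 := by simpa using h1
  rw [two_nsmul]
  apply Point.add_of_Y_eq rfl
  rw [sw_negY, hY, neg_zero]

lemma fc_of_two_smul [CharZero K] {a b D : K} (hD : D ≠ 0) {P : (tw a b D).Point} {x : K}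
    (hP : xi D P = some x) (h2 : 2 • P = 0) : fc a b x = 0 := by
  obtain ⟨X, Y, hn, rfl, hX⟩ := xi_eq_some hP
  have h1 := pt_y hD hn
  rw [hX] at h1
  rw [two_nsmul] at h2
  have h3 : Point.some X Y hn = -Point.some X Y hn := eq_neg_of_add_eq_zero_left h2
  rw [Point.neg_some, Point.some.injEq] at h3
  have h4 := h3.2
  rw [sw_negY] at h4
  have hY : Y = 0 := by
    have : (2 : K) * Y = 0 := by linear_combination h4
    rcases mul_eq_zero.mp this with h | h
    · exact absurd h two_ne_zero
    · exact h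
  rw [hY] at h1
  have : D ^ 3 * fc a b x = 0 := by rw [← h1]; ring
  rcases mul_eq_zero.mp this with h | h
  · exact absurd h (pow_ne_zero 3 hD)
  · exact h

lemma tors_of_xi {a b D : K} (hD : D ≠ 0) {k l : ℕ} (hkl : k ≠ l) {P : (tw a b D).Point}
    (h : xi D (k • P) = xi D (l • P)) : IsTors P := by
  rcases eq_or_neg_of_xi hD h with h1 | h1
  · rcases Nat.lt_or_gt_of_ne hkl with h2 | h2
    · refine ⟨l - k, by omega, ?_⟩
      have : l • P = k • P + (l - k) • P := by rw [← add_smul]; congr 1; omega
      rw [h1] at this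
      exact (left_eq_add.mp this)
    · refine ⟨k - l, by omega, ?_⟩
      have : k • P = l • P + (k - l) • P := by rw [← add_smul]; congr 1; omega
      rw [h1] at this
      exact (left_eq_add.mp this)
  · refine ⟨l + k, by omega, ?_⟩
    rw [add_smul, h1]
    abel

lemma nontors_add {A : Type*} [AddCommGroup A] {P T : A} (hP : ¬ IsTors P) (hT : 2 • T = 0) :
    ¬ IsTors (P + T) := by
  rintro ⟨k, hk, h⟩
  apply hP
  refine ⟨2 * k, by omega, ?_⟩
  have h1 : (2 * k) • (P + T) = 0 := by rw [mul_smul, h, smul_zero]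
  rw [smul_add, mul_comm, mul_smul _ _ T, hT, smul_zero, add_zero, mul_comm] at h1
  exact h1

lemma nontors_smul {A : Type*} [AddCommGroup A] {P : A} (hP : ¬ IsTors P) {k : ℕ} (hk : k ≠ 0) :
    ¬ IsTors (k • P) := by
  rintro ⟨l, hl, h⟩
  exact hP ⟨l * k, Nat.mul_ne_zero hl hk, by rw [mul_smul, h]⟩

section

variable [AdmissibleAbsValues K] [Northcott (mulHeight₁ (K := K))]

/-- Multiplication by `k`, with no pole at points of infinite order. -/
def MulG (a b : K) (k : ℕ) (A B : K[X]) : Prop :=
  Mul a b k A B ∧ ∀ D : K, D ≠ 0 → ∀ (P : (tw a b D).Point) (x : K), ¬ IsTors P →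
    xi D P = some x → B.eval x ≠ 0

theorem exists_mulG [CharZero K] {a b : K} (hd : 4 * a ^ 3 + 27 * b ^ 2 ≠ 0) (k : ℕ)
    (hk : 1 ≤ k) : ∃ A B : K[X], MulG a b k A B := by
  have key : ∀ k : ℕ, 1 ≤ k → (∃ A B : K[X], MulG a b k A B) ∧
      (∃ A B : K[X], MulG a b (k + 1) A B) := by
    intro k hk
    induction k, hk using Nat.le_induction with
    | base =>
      refine ⟨⟨X, 1, ⟨one_ne_zero, ?_⟩, ?_⟩, ⟨X ^ 4 - C (2 * a) * X ^ 2 - C (8 * b) * X + C (a ^ 2),
        C 4 * fp a b, ⟨mul_ne_zero ?_ (fp_ne_zero a b), ?_⟩, ?_⟩⟩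
      · intro D hD P x hP _
        rw [one_smul, hP]; simp
      · intro D hD P x _ _
        simp
      · simp
      · intro D hD P x hP hx
        rw [eval_mul, eval_C, fp_eval] at hx
        have := xi_dbl hD hP hx
        rw [show (1 + 1 : ℕ) = 2 from rfl, this]
        simp [fp_eval]
      · intro D hD P x hnt hP
        rw [eval_mul, eval_C, fp_eval]
        intro h0
        rcases mul_eq_zero.mp h0 with h | h
        · have h4 : (4 : K) ≠ 0 := by norm_num
          exact h4 h
        · exact hnt ⟨2, two_ne_zero, two_smul_of_fc hD hP h⟩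
    | succ k hk ih =>
      refine ⟨ih.2, ?_⟩
      obtain ⟨⟨A', B', hAB'⟩, ⟨A, B, hAB⟩⟩ := ih
      have hne := mul_ne hd (by omega) hAB.1
      refine ⟨B * (C 2 * ((A * X + C a * B) * (A + X * B) + C (2 * b) * B ^ 2) * B' -
        A' * (A - X * B) ^ 2), B * (A - X * B) ^ 2 * B', ⟨?_, ?_⟩, ?_⟩
      · exact mul_ne_zero (mul_ne_zero hAB.1.1 (pow_ne_zero 2 hne)) hAB'.1.1
      · intro D hD P x hP hx
        have hx0 := hx
        rw [eval_mul, eval_mul, eval_pow] at hx
        have hB' := right_ne_zero_of_mul hx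
        have hB := left_ne_zero_of_mul (left_ne_zero_of_mul hx)
        have hAX : (A - X * B).eval x ≠ 0 := by
          have := right_ne_zero_of_mul (left_ne_zero_of_mul hx)
          intro h; apply this; rw [h]; ring
        have h1 := hAB.1.2 D hD P x hP hB
        have h2 := hAB'.1.2 D hD P x hP hB'
        have huv : A.eval x / B.eval x ≠ x := by
          intro h
          apply hAX
          rw [div_eq_iff hB] at h
          simp [h]
        obtain ⟨s, t, hs, ht, hst⟩ := xi_sum hD h1 hP huv
        rw [show (k + 1) • P + P = (k + 1 + 1) • P by rw [← succ_nsmul]] at hs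
        rw [show (k + 1) • P - P = k • P by rw [succ_nsmul, add_sub_cancel_right], h2] at ht
        rw [hs]
        congr 1
        have htt := Option.some.inj ht
        rw [← htt] at hst
        have hAX' : A.eval x - x * B.eval x ≠ 0 := by simpa using hAX
        have hd1 : (A.eval x / B.eval x - x) ≠ 0 := sub_ne_zero.mpr huv
        rw [eq_div_iff hx0]
        simp only [eval_mul, eval_sub, eval_add, eval_pow, eval_C, eval_X]
        set α := A.eval x
        set β := B.eval x
        set α' := A'.eval x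
        set β' := B'.eval x
        have h5 : (α - x * β) ^ 2 * (s * β' + α') = β' * (2 * ((α * x + a * β) * (α + x * β) + 2 * b * β ^ 2)) := by
          field_simp at hst
          linear_combination hst
        linear_combination β * h5
      · intro D hD P x hnt hP
        have hB := hAB.2 D hD P x hnt hP
        have hB' := hAB'.2 D hD P x hnt hP
        rw [eval_mul, eval_mul, eval_pow]
        refine mul_ne_zero (mul_ne_zero hB (pow_ne_zero 2 ?_)) hB'
        intro h0
        have h1 := hAB.1.2 D hD P x hP hB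
        have hA : A.eval x = x * B.eval x := by
          simp at h0
          linear_combination h0
        rw [hA, mul_div_cancel_right₀ _ hB, ← hP] at h1
        nth_rewrite 2 [← one_smul ℕ P] at h1
        exact hnt (tors_of_xi hD (by omega) h1)
  exact (key k hk).1

/-- Multiplication by `k` followed by translation by the point of order dividing two with
normalised x-coordinate `τ`. -/
def MulT (a b : K) (k : ℕ) (τ : Option K) (A B : K[X]) : Prop :=
  ∀ D : K, D ≠ 0 → ∀ (P T : (tw a b D).Point) (x : K), ¬ IsTors P → xi D P = some x →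
    2 • T = 0 → xi D T = τ → B.eval x ≠ 0 ∧ xi D (k • P + T) = some (A.eval x / B.eval x)

theorem exists_mulT [CharZero K] {a b : K} (hd : 4 * a ^ 3 + 27 * b ^ 2 ≠ 0) (k : ℕ)
    (hk : 1 ≤ k) (τ : Option K) : ∃ A B : K[X], MulT a b k τ A B := by
  obtain ⟨A, B, hAB⟩ := exists_mulG hd k hk
  cases τ with
  | none =>
    refine ⟨A, B, ?_⟩
    intro D hD P T x hnt hP hT hτ
    have hT0 : T = 0 := by
      cases T with
      | zero => rfl
      | some X Y hn => simp at hτ
    have hB := hAB.2 D hD P x hnt hP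
    refine ⟨hB, ?_⟩
    rw [hT0, add_zero]
    exact hAB.1.2 D hD P x hP hB
  | some e =>
    refine ⟨C e * A + C (2 * e ^ 2 + a) * B, A - C e * B, ?_⟩
    intro D hD P T x hnt hP hT hτ
    have hB := hAB.2 D hD P x hnt hP
    have h1 := hAB.1.2 D hD P x hP hB
    have hfe := fc_of_two_smul hD hτ hT
    set u : K := A.eval x / B.eval x with hu
    have hue : u ≠ e := by
      intro h
      apply nontors_smul hnt (show k ≠ 0 by omega)
      refine ⟨2, two_ne_zero, ?_⟩
      rw [h] at h1
      exact two_smul_of_fc hD h1 hfe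
    have hAe : A.eval x = u * B.eval x := by rw [hu, div_mul_cancel₀ _ hB]
    have hB2 : (A - C e * B).eval x = (u - e) * B.eval x := by
      simp only [eval_sub, eval_mul, eval_C]
      rw [hAe]; ring
    have hA2 : (C e * A + C (2 * e ^ 2 + a) * B).eval x = (e * u + 2 * e ^ 2 + a) * B.eval x := by
      simp only [eval_add, eval_mul, eval_C]
      rw [hAe]; ring
    refine ⟨by rw [hB2]; exact mul_ne_zero (sub_ne_zero.mpr hue) hB, ?_⟩
    obtain ⟨s, t, hs, ht, hst⟩ := xi_sum hD h1 hτ hue
    have hst2 : t = s := by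
      have h2 : k • P - T = k • P + T := by
        have : -T = T := by
          rw [two_nsmul] at hT
          exact (eq_neg_of_add_eq_zero_left hT).symm
        rw [sub_eq_add_neg, this]
      rw [h2, hs] at ht
      exact (Option.some.inj ht).symm
    rw [hs, hA2, hB2, mul_div_mul_right _ _ hB]
    congr 1
    rw [eq_div_iff (sub_ne_zero.mpr hue)]
    rw [hst2] at hst
    rw [fc] at hfe
    apply mul_left_cancel₀ (sub_ne_zero.mpr hue)
    have h2 : (2 : K) ≠ 0 := two_ne_zero
    apply mul_left_cancel₀ h2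
    linear_combination hst + 4 * hfe

end

omit [DecidableEq K] in
/-- Homogenisation of a polynomial in two rational functions. -/
lemma exists_homog (F : MvPolynomial (Fin 2) K) (A₁ B₁ A₂ B₂ : K[X]) :
    ∃ (G : K[X]) (N : ℕ), ∀ x : K, B₁.eval x ≠ 0 → B₂.eval x ≠ 0 →
      G.eval x = (B₁.eval x * B₂.eval x) ^ N *
        MvPolynomial.eval ![A₁.eval x / B₁.eval x, A₂.eval x / B₂.eval x] F := by
  induction F using MvPolynomial.induction_on with
  | C c => exact ⟨C c, 0, fun x _ _ => by simp⟩
  | add p q hp hq =>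
    obtain ⟨G₁, N₁, h₁⟩ := hp
    obtain ⟨G₂, N₂, h₂⟩ := hq
    refine ⟨G₁ * (B₁ * B₂) ^ N₂ + G₂ * (B₁ * B₂) ^ N₁, N₁ + N₂, ?_⟩
    intro x hx₁ hx₂
    rw [eval_add, eval_mul, eval_mul, eval_pow, eval_pow, eval_mul, h₁ x hx₁ hx₂, h₂ x hx₁ hx₂,
      map_add]
    ring
  | mul_X p i hp =>
    obtain ⟨G, N, h⟩ := hp
    fin_cases i
    · refine ⟨G * (A₁ * B₂), N + 1, ?_⟩
      intro x hx₁ hx₂
      rw [eval_mul, eval_mul, h x hx₁ hx₂, map_mul, MvPolynomial.eval_X]
      simp only [Fin.zero_eta, Matrix.cons_val_zero]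
      field_simp
      ring
    · refine ⟨G * (B₁ * A₂), N + 1, ?_⟩
      intro x hx₁ hx₂
      rw [eval_mul, eval_mul, h x hx₁ hx₂, map_mul, MvPolynomial.eval_X]
      simp only [Fin.mk_one, Matrix.cons_val_one, Matrix.cons_val_fin_one]
      field_simp
      ring

end Pool.Agent.K3H
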