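import Pool.Agent.K3H.Scale

/-!
Multiplication by `k` on normalised x-coordinates is given by rational functions that do not
depend on the twist.
-/

namespace Pool.Agent.K3H

open WeierstrassCurve WeierstrassCurve.Affine Height Polynomial

variable {K : Type*} [Field K]

/-- The cubic `x^3 + a x + b`. -/
def fc (a b x : K) : K := x ^ 3 + a * x + b

variable [DecidableEq K]

lemma xi_eq_some {D : K} {W : WeierstrassCurve.Affine K} {P : W.Point} {u : K}
    (h : xi D P = some u) : ∃ x y hn, P = Point.some x y hn ∧ x / D = u := by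
  cases P with
  | zero => simp [xi] at h
  | some x y hn => exact ⟨x, y, hn, rfl, by simpa using h⟩

lemma xi_ne_none {D : K} {W : WeierstrassCurve.Affine K} {P : W.Point} (h : P ≠ 0) :
    ∃ u, xi D P = some u := by
  cases P with
  | zero => exact absurd rfl h
  | some x y hn => exact ⟨_, rfl⟩

lemma xi_sum {a b D : K} (hD : D ≠ 0) {P Q : (tw a b D).Point} {u v : K}
    (hP : xi D P = some u) (hQ : xi D Q = some v) (huv : u ≠ v) :
    ∃ s t, xi D (P + Q) = some s ∧ xi D (P - Q) = some t ∧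
      (u - v) ^ 2 * (s + t) = 2 * ((u * v + a) * (u + v) + 2 * b) := by
  have h1 : P + Q ≠ 0 := by
    intro h
    have : P = -Q := eq_neg_of_add_eq_zero_left h
    rw [this, xi_neg, hQ] at hP
    exact huv (Option.some.inj hP).symm
  have h2 : P - Q ≠ 0 := by
    intro h
    have : P = Q := sub_eq_zero.mp h
    rw [this, hQ] at hP
    exact huv (Option.some.inj hP).symm
  obtain ⟨s, hs⟩ := xi_ne_none (D := D) h1
  obtain ⟨t, ht⟩ := xi_ne_none (D := D) h2
  refine ⟨s, t, hs, ht, ?_⟩
  obtain ⟨c, hc, h⟩ := sy_addSub a b D P Q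
  obtain ⟨x₁, y₁, n₁, e₁, hu⟩ := xi_eq_some hP
  obtain ⟨x₂, y₂, n₂, e₂, hv⟩ := xi_eq_some hQ
  obtain ⟨x₃, y₃, n₃, e₃, hs'⟩ := xi_eq_some hs
  obtain ⟨x₄, y₄, n₄, e₄, ht'⟩ := xi_eq_some ht
  have k1 := congrFun h 1
  have k2 := congrFun h 2
  simp only [sy, e₃, e₄, xr_some, asm, Pi.smul_apply, smul_eq_mul] at k1 k2
  rw [e₁, e₂] at k1 k2
  simp only [xr_some] at k1 k2
  simp at k1 k2
  have E1 : x₁ = u * D := by rw [← hu]; field_simp
  have E2 : x₂ = v * D := by rw [← hv]; field_simp
  have E3 : x₃ = s * D := by rw [← hs']; field_simp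
  have E4 : x₄ = t * D := by rw [← ht']; field_simp
  rw [E1, E2] at k1 k2
  rw [E3, E4] at k1
  have hD4 : D ^ 4 ≠ 0 := pow_ne_zero 4 hD
  have hD2 : D ^ 2 ≠ 0 := pow_ne_zero 2 hD
  have k2' : 1 = c * D ^ 2 * (u - v) ^ 2 := by
    apply mul_left_cancel₀ hD2
    linear_combination k2
  have k1' : s + t = c * D ^ 2 * (2 * ((u * v + a) * (u + v) + 2 * b)) := by
    apply mul_left_cancel₀ hD2
    linear_combination k1
  calc (u - v) ^ 2 * (s + t) = (c * D ^ 2 * (u - v) ^ 2) * (2 * ((u * v + a) * (u + v) + 2 * b)) := by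
        rw [k1']; ring
    _ = _ := by rw [← k2', one_mul]

lemma xi_dbl {a b D : K} (hD : D ≠ 0) {P : (tw a b D).Point} {u : K}
    (hP : xi D P = some u) (hu : 4 * fc a b u ≠ 0) :
    xi D (2 • P) = some ((u ^ 4 - 2 * a * u ^ 2 - 8 * b * u + a ^ 2) / (4 * fc a b u)) := by
  obtain ⟨c, hc, h⟩ := sy_addSub a b D P P
  obtain ⟨x₁, y₁, n₁, e₁, hu'⟩ := xi_eq_some hP
  have E1 : x₁ = u * D := by rw [← hu']; field_simp
  rw [sub_self, ← two_nsmul] at h
  have hD4 : D ^ 4 ≠ 0 := pow_ne_zero 4 hD
  by_cases h0 : 2 • P = 0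
  · exfalso
    rw [h0] at h
    have k1 := congrFun h 1
    simp only [sy, xr_zero, asm, Pi.smul_apply, smul_eq_mul, e₁, xr_some] at k1
    simp at k1
    rcases k1 with k1 | k1
    · exact hc k1
    · apply hu
      apply mul_left_cancel₀ hD4
      rw [E1] at k1
      rw [fc, mul_zero]
      linear_combination k1
  · obtain ⟨s, hs⟩ := xi_ne_none (D := D) h0
    rw [hs]
    obtain ⟨x₃, y₃, n₃, e₃, hs'⟩ := xi_eq_some hs
    have E3 : x₃ = s * D := by rw [← hs']; field_simp
    rw [e₃] at h
    have k0 := congrFun h 0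
    have k1 := congrFun h 1
    simp only [sy, xr_zero, asm, Pi.smul_apply, smul_eq_mul, e₁, xr_some] at k0 k1
    simp at k0 k1
    rw [E1] at k0 k1
    rw [E3] at k0
    congr 1
    rw [eq_div_iff hu]
    have k1' : D = c * D ^ 4 * (4 * fc a b u) := by rw [fc]; linear_combination k1
    have k0' : s * D = c * D ^ 4 * (u ^ 4 - 2 * a * u ^ 2 - 8 * b * u + a ^ 2) := by
      linear_combination k0
    have hcD : c * D ^ 4 ≠ 0 := mul_ne_zero hc hD4
    apply mul_left_cancel₀ hcD
    calc c * D ^ 4 * (s * (4 * fc a b u)) = s * (c * D ^ 4 * (4 * fc a b u)) := by ring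
      _ = s * D := by rw [← k1']
      _ = _ := k0'

lemma std_point [CharZero K] {a b : K} (hd : 4 * a ^ 3 + 27 * b ^ 2 ≠ 0) {x : K}
    (hx : fc a b x ≠ 0) : ∃ P : (tw a b (fc a b x)).Point, xi (fc a b x) P = some x := by
  have hn : (tw a b (fc a b x)).Nonsingular (fc a b x * x) (fc a b x ^ 2) := by
    rw [sw_ns_iff (tw_disc hd hx)]
    simp only [fc]; ring
  refine ⟨Point.some _ _ hn, ?_⟩
  rw [xi_some]
  congr 1
  field_simp

section

variable [AdmissibleAbsValues K] [Northcott (mulHeight₁ (K := K))]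

omit [DecidableEq K] in
lemma exists_large [CharZero K] (g : K[X]) (hg : g ≠ 0) (c : ℝ) :
    ∃ x : K, g.eval x ≠ 0 ∧ c < logHeight₁ x := by
  classical
  obtain ⟨x, hx⟩ := Infinite.exists_notMem_finset (g.roots.toFinset ∪ nset K c)
  rw [Finset.mem_union, not_or, mem_nset, not_le, Multiset.mem_toFinset, mem_roots hg] at hx
  exact ⟨x, hx.1, hx.2⟩

/-- The cubic as a polynomial. -/
noncomputable def fp (a b : K) : K[X] := X ^ 3 + C a * X + C b

omit [DecidableEq K] [AdmissibleAbsValues K] [Northcott (mulHeight₁ (K := K))] in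
lemma fp_eval (a b x : K) : (fp a b).eval x = fc a b x := by simp [fp, fc]

omit [DecidableEq K] [AdmissibleAbsValues K] [Northcott (mulHeight₁ (K := K))] in
lemma fp_ne_zero (a b : K) : fp a b ≠ 0 := by
  intro h
  have := congrArg (fun p => p.coeff 3) h
  simp [fp, coeff_X, coeff_C] at this

/-- The statement that `(A, B)` describes multiplication by `k`. -/
def Mul (a b : K) (k : ℕ) (A B : K[X]) : Prop :=
  B ≠ 0 ∧ ∀ D : K, D ≠ 0 → ∀ (P : (tw a b D).Point) (x : K), xi D P = some x →
    B.eval x ≠ 0 → xi D (k • P) = some (A.eval x / B.eval x)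

lemma mul_ne [CharZero K] {a b : K} (hd : 4 * a ^ 3 + 27 * b ^ 2 ≠ 0) {k : ℕ} (hk : 2 ≤ k)
    {A B : K[X]} (h : Mul a b k A B) : A - X * B ≠ 0 := by
  intro h0
  obtain ⟨C, hC⟩ := exists_pack hd
  obtain ⟨x, hx1, hx2⟩ := exists_large (B * fp a b) (mul_ne_zero h.1 (fp_ne_zero a b)) C
  rw [eval_mul, fp_eval] at hx1
  have hB := left_ne_zero_of_mul hx1
  have hf := right_ne_zero_of_mul hx1
  obtain ⟨P, hP⟩ := std_point hd hf
  have h1 := h.2 _ hf P x hP hB
  have hA : A.eval x = x * B.eval x := by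
    have := congrArg (fun p => p.eval x) h0
    simp at this
    linear_combination this
  rw [hA, mul_div_cancel_right₀ _ hB, ← hP] at h1
  obtain ⟨q, hq, hqC⟩ := hC.ex _ hf
  have htors : IsTors P := by
    rcases eq_or_neg_of_xi hf h1 with h2 | h2
    · refine ⟨k - 1, by omega, ?_⟩
      have : k • P = (k - 1) • P + P := by
        rw [← succ_nsmul]; congr 1; omega
      rw [this] at h2
      exact (right_eq_add.mp h2)
    · refine ⟨k + 1, by omega, ?_⟩
      rw [succ_nsmul]
      nth_rewrite 2 [h2]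
      abel
  have := tors_ht_le hq hqC htors
  rw [ht_eq_oh, hP] at this
  exact absurd this (not_le.mpr hx2)

theorem exists_mul [CharZero K] {a b : K} (hd : 4 * a ^ 3 + 27 * b ^ 2 ≠ 0) (k : ℕ) (hk : 1 ≤ k) :
    ∃ A B : K[X], Mul a b k A B := by
  have key : ∀ k : ℕ, 1 ≤ k → (∃ A B : K[X], Mul a b k A B) ∧ (∃ A B : K[X], Mul a b (k + 1) A B) := by
    intro k hk
    induction k, hk using Nat.le_induction with
    | base =>
      refine ⟨⟨X, 1, one_ne_zero, ?_⟩, ⟨X ^ 4 - C (2 * a) * X ^ 2 - C (8 * b) * X + C (a ^ 2),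
        C 4 * fp a b, mul_ne_zero ?_ (fp_ne_zero a b), ?_⟩⟩
      · intro D hD P x hP _
        rw [one_smul, hP]; simp
      · simp
      · intro D hD P x hP hx
        rw [eval_mul, eval_C, fp_eval] at hx
        have := xi_dbl hD hP hx
        rw [show (1 + 1 : ℕ) = 2 from rfl, this]
        simp [fp_eval]
    | succ k hk ih =>
      refine ⟨ih.2, ?_⟩
      obtain ⟨⟨A', B', hAB'⟩, ⟨A, B, hAB⟩⟩ := ih
      have hne := mul_ne hd (by omega) hAB
      refine ⟨B * (C 2 * ((A * X + C a * B) * (A + X * B) + C (2 * b) * B ^ 2) * B' -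
        A' * (A - X * B) ^ 2), B * (A - X * B) ^ 2 * B', ?_, ?_⟩
      · exact mul_ne_zero (mul_ne_zero hAB.1 (pow_ne_zero 2 hne)) hAB'.1
      · intro D hD P x hP hx
        have hx0 := hx
        rw [eval_mul, eval_mul, eval_pow] at hx
        have hB' := right_ne_zero_of_mul hx
        have hB := left_ne_zero_of_mul (left_ne_zero_of_mul hx)
        have hAX : (A - X * B).eval x ≠ 0 := by
          have := right_ne_zero_of_mul (left_ne_zero_of_mul hx)
          intro h; apply this; rw [h]; ring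
        have h1 := hAB.2 D hD P x hP hB
        have h2 := hAB'.2 D hD P x hP hB'
        have huv : A.eval x / B.eval x ≠ x := by
          intro h
          apply hAX
          rw [div_eq_iff hB] at h
          simp [h]
        obtain ⟨s, t, hs, ht, hst⟩ := xi_sum hD h1 hP huv
        rw [show (k + 1) • P + P = (k + 1 + 1) • P by rw [← succ_nsmul]] at hs
        rw [show (k + 1) • P - P = k • P by rw [succ_nsmul, add_sub_cancel_right], h2] at ht
        rw [hs]
        congr 1
        have htt := Option.some.inj ht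
        rw [← htt] at hst
        have hAX' : A.eval x - x * B.eval x ≠ 0 := by simpa using hAX
        have hd1 : (A.eval x / B.eval x - x) ≠ 0 := sub_ne_zero.mpr huv
        rw [eq_div_iff hx0]
        simp only [eval_mul, eval_sub, eval_add, eval_pow, eval_C, eval_X]
        set α := A.eval x
        set β := B.eval x
        set α' := A'.eval x
        set β' := B'.eval x
        have h5 : (α - x * β) ^ 2 * (s * β' + α') = β' * (2 * ((α * x + a * β) * (α + x * β) + 2 * b * β ^ 2)) := by
          field_simp at hst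
          linear_combination hst
        linear_combination β * h5
  exact (key k hk).1

end

end Pool.Agent.K3H
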