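import Pool.Agent.K3H.AddSub

/-!
The approximate parallelogram law for heights on all quadratic twists of an elliptic curve,
with a constant that does not depend on the twist.
-/

namespace Pool.Agent.K3H

open WeierstrassCurve WeierstrassCurve.Affine Height

variable {K : Type*} [Field K]

/-- The quadratic twist of `y^2 = x^3 + a x + b` by `D`, written as
`y^2 = x^3 + a D^2 x + b D^3`. -/
abbrev tw (a b D : K) : WeierstrassCurve.Affine K := sw (a * D ^ 2) (b * D ^ 3)

/-- Homogeneous coordinates of the normalised x-coordinate `x / D` of a point on the twist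
by `D` (`![1, 0]` for the point at infinity). -/
noncomputable def xr (D : K) {W : WeierstrassCurve.Affine K} (P : W.Point) : Fin 2 → K :=
  ![P.xRep 0, D * P.xRep 1]

lemma xr_zero (D : K) {W : WeierstrassCurve.Affine K} : xr D (0 : W.Point) = ![1, 0] := by
  simp [xr]

lemma xr_some (D : K) {W : WeierstrassCurve.Affine K} {x y : K} (h : W.Nonsingular x y) :
    xr D (Point.some x y h) = ![x, D] := by
  simp [xr]

lemma xr_neg (D : K) {W : WeierstrassCurve.Affine K} (P : W.Point) : xr D (-P) = xr D P := by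
  simp [xr]

lemma xr_ne_zero {D : K} (hD : D ≠ 0) {W : WeierstrassCurve.Affine K} (P : W.Point) :
    xr D P ≠ 0 := by
  cases P with
  | zero => rw [← Point.zero_def, xr_zero]; simp
  | some x y h => rw [xr_some]; simp [hD]

/-- The scaled symmetric square. -/
noncomputable def sy (D : K) {W : WeierstrassCurve.Affine K} (P Q : W.Point) : Fin 3 → K :=
  ![xr D P 0 * xr D Q 0, xr D P 0 * xr D Q 1 + xr D P 1 * xr D Q 0, xr D P 1 * xr D Q 1]

lemma sy_eq (D : K) {W : WeierstrassCurve.Affine K} (P Q : W.Point) :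
    sy D P Q = ![P.sym2x Q 0, D * P.sym2x Q 1, D ^ 2 * P.sym2x Q 2] := by
  funext i
  fin_cases i
  · simp [sy, xr, Point.sym2x]
  · simp [sy, xr, Point.sym2x]; ring
  · simp [sy, xr, Point.sym2x]; ring

lemma asm_scale (a b D : K) (v : Fin 3 → K) :
    asm a b ![v 0, D * v 1, D ^ 2 * v 2] =
      ![asm (a * D ^ 2) (b * D ^ 3) v 0, D * asm (a * D ^ 2) (b * D ^ 3) v 1,
        D ^ 2 * asm (a * D ^ 2) (b * D ^ 3) v 2] := by
  funext i
  fin_cases i
  · simp [asm]; ring
  · simp [asm]; ring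
  · simp [asm]; ring

lemma sy_addSub [DecidableEq K] (a b D : K) (P Q : (tw a b D).Point) :
    ∃ c : K, c ≠ 0 ∧ sy D (P + Q) (P - Q) = c • asm a b (sy D P Q) := by
  obtain ⟨c, hc, h⟩ := addSub P Q
  refine ⟨c, hc, ?_⟩
  rw [sy_eq, sy_eq, asm_scale, h]
  funext i
  fin_cases i
  · simp
  · simp; ring
  · simp; ring

lemma sw_delta (a b : K) : (sw a b).Δ = -16 * (4 * a ^ 3 + 27 * b ^ 2) := by
  rw [WeierstrassCurve.Δ, sw_b2, sw_b4, sw_b6, sw_b8]
  ring

lemma sw_elliptic [CharZero K] {a b : K} (h : 4 * a ^ 3 + 27 * b ^ 2 ≠ 0) :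
    (sw a b).IsElliptic := by
  constructor
  rw [sw_delta]
  have : (-16 : K) ≠ 0 := by norm_num
  exact (mul_ne_zero this h).isUnit

lemma tw_disc {a b D : K} (h : 4 * a ^ 3 + 27 * b ^ 2 ≠ 0) (hD : D ≠ 0) :
    4 * (a * D ^ 2) ^ 3 + 27 * (b * D ^ 3) ^ 2 ≠ 0 := by
  have : 4 * (a * D ^ 2) ^ 3 + 27 * (b * D ^ 3) ^ 2 = D ^ 6 * (4 * a ^ 3 + 27 * b ^ 2) := by ring
  rw [this]
  exact mul_ne_zero (pow_ne_zero 6 hD) h

section heights

variable [AdmissibleAbsValues K]

/-- The naive logarithmic height of the normalised x-coordinate. -/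
noncomputable def ht (D : K) {W : WeierstrassCurve.Affine K} (P : W.Point) : ℝ :=
  logHeight (xr D P)

lemma ht_nonneg (D : K) {W : WeierstrassCurve.Affine K} (P : W.Point) : 0 ≤ ht D P :=
  logHeight_nonneg _

lemma ht_neg (D : K) {W : WeierstrassCurve.Affine K} (P : W.Point) : ht D (-P) = ht D P := by
  rw [ht, xr_neg, ht]

lemma ht_zero (D : K) {W : WeierstrassCurve.Affine K} : ht D (0 : W.Point) = 0 := by
  rw [ht, xr_zero]
  have := logHeight₁_eq_logHeight (0 : K)
  rw [logHeight_swap, ← this, logHeight₁_zero]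

lemma ht_some {D : K} {W : WeierstrassCurve.Affine K} {x y : K} (h : W.Nonsingular x y) :
    ht D (Point.some x y h) = logHeight₁ (x / D) := by
  rw [ht, xr_some, logHeight₁_div_eq_logHeight]

theorem para [CharZero K] [DecidableEq K] {a b : K} (hd : 4 * a ^ 3 + 27 * b ^ 2 ≠ 0) :
    ∃ C : ℝ, 0 ≤ C ∧ ∀ D : K, D ≠ 0 → ∀ P Q : (tw a b D).Point,
      |ht D (P + Q) + ht D (P - Q) - 2 * ht D P - 2 * ht D Q| ≤ C := by
  have := sw_elliptic hd
  obtain ⟨C₁, h₁⟩ := WeierstrassCurve.abs_logHeight_addSubMap_sub_two_mul_logHeight_le (sw a b)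
  obtain ⟨C₂, h₂⟩ := abs_logHeight_sym2_sub_le K
  have key : ∀ D : K, D ≠ 0 → ∀ P Q : (tw a b D).Point,
      |ht D (P + Q) + ht D (P - Q) - 2 * ht D P - 2 * ht D Q| ≤ C₂ + C₁ + 2 * C₂ := by
    intro D hD P Q
    obtain ⟨c, hc, hs⟩ := sy_addSub a b D P Q
    have e1 : ∀ P Q : (tw a b D).Point, |logHeight (sy D P Q) - (ht D P + ht D Q)| ≤ C₂ := by
      intro P Q
      have eP : ![xr D P 0, xr D P 1] = xr D P := by
        funext i; fin_cases i <;> rfl
      have eQ : ![xr D Q 0, xr D Q 1] = xr D Q := by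
        funext i; fin_cases i <;> rfl
      have := @h₂ (xr D P 0) (xr D P 1) (xr D Q 0) (xr D Q 1)
        (by rw [eP]; exact xr_ne_zero hD P) (by rw [eQ]; exact xr_ne_zero hD Q)
      rw [eP, eQ] at this
      exact this
    have e2 := e1 (P + Q) (P - Q)
    have e3 := e1 P Q
    have e4 := h₁ (sy D P Q)
    rw [asm_eq] at e4
    rw [hs, logHeight_smul_eq_logHeight _ hc] at e2
    rw [abs_le] at e2 e3 e4 ⊢
    constructor <;> linarith [e2.1, e2.2, e3.1, e3.2, e4.1, e4.2]
  refine ⟨C₂ + C₁ + 2 * C₂, ?_, key⟩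
  exact (abs_nonneg _).trans (key 1 one_ne_zero 0 0)

end heights

end Pool.Agent.K3H
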