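import Pool.Agent.K3H.Count

/-!
The primes where an element of a number field is not a unit, in terms of its height.
-/

namespace Pool.Agent.K3H

open IsDedekindDomain NumberField Height WithZero

variable {K : Type*} [Field K] [NumberField K]

/-- The absolute norm of a prime, as a real number. -/
noncomputable def nm (v : HeightOneSpectrum (𝓞 K)) : ℝ := (Ideal.absNorm v.asIdeal : ℝ)

lemma two_le_nm (v : HeightOneSpectrum (𝓞 K)) : 2 ≤ nm v := by
  have h := NumberField.HeightOneSpectrum.one_lt_absNorm v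
  unfold nm
  exact_mod_cast h

lemma nm_le_of_valuation {v : HeightOneSpectrum (𝓞 K)} {x : K} (h : 1 < v.valuation K x) :
    nm v ≤ FinitePlace.mk v x := by
  have e1 : FinitePlace.mk v x = NumberField.HeightOneSpectrum.adicAbv K v x := by
    rw [FinitePlace.mk_apply, FinitePlace.norm_embedding]
  rw [e1, NumberField.HeightOneSpectrum.adicAbv_def]
  have hne : v.valuation K x ≠ 0 := by
    intro h0
    rw [h0] at h
    exact absurd h not_lt_zero
  have h1 : WithZero.exp (1 : ℤ) ≤ v.valuation K x := by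
    rw [← WithZero.exp_log hne] at h ⊢
    rw [← WithZero.exp_zero, WithZero.exp_lt_exp] at h
    rw [WithZero.exp_le_exp]
    omega
  have h2 := (WithZeroMulInt.toNNReal_strictMono
    (NumberField.HeightOneSpectrum.one_lt_absNorm_nnreal v)).monotone h1
  have h3 : WithZeroMulInt.toNNReal (NumberField.HeightOneSpectrum.absNorm_ne_zero v)
      (WithZero.exp (1 : ℤ)) = (Ideal.absNorm v.asIdeal : NNReal) := by
    rw [WithZeroMulInt.toNNReal_neg_apply _ (WithZero.exp_ne_zero)]
    simp [WithZero.exp]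
  rw [h3] at h2
  unfold nm
  exact_mod_cast h2

lemma prod_le_finprod {ι : Type*} {f : ι → ℝ} (hf : ∀ i, 1 ≤ f i)
    (hfin : (Function.mulSupport f).Finite) (s : Finset ι) : ∏ i ∈ s, f i ≤ ∏ᶠ i, f i := by
  classical
  rw [finprod_eq_prod_of_mulSupport_subset (s := s ∪ hfin.toFinset) f (by
    intro i hi
    simp only [Finset.coe_union, Set.Finite.coe_toFinset]
    exact Or.inr hi)]
  rw [← Finset.prod_sdiff (Finset.subset_union_left (s₁ := s) (s₂ := hfin.toFinset))]
  have h1 : 1 ≤ ∏ i ∈ (s ∪ hfin.toFinset) \ s, f i := by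
    calc (1 : ℝ) = ∏ i ∈ (s ∪ hfin.toFinset) \ s, (1 : ℝ) := by rw [Finset.prod_const_one]
      _ ≤ _ := Finset.prod_le_prod (fun _ _ => zero_le_one) (fun i _ => hf i)
  have h2 : 0 ≤ ∏ i ∈ s, f i := Finset.prod_nonneg (fun i _ => zero_le_one.trans (hf i))
  nlinarith

/-- Product of norms of the primes where `x` has valuation bigger than one. -/
lemma prod_nm_le {x : K} (hx : x ≠ 0) (s : Finset (HeightOneSpectrum (𝓞 K)))
    (hs : ∀ v ∈ s, 1 < v.valuation K x) : ∏ v ∈ s, nm v ≤ mulHeight₁ x := by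
  classical
  rw [NumberField.mulHeight₁_eq]
  have h1 : ∏ v ∈ s, nm v ≤ ∏ᶠ v : FinitePlace K, max (v x) 1 := by
    have hfin : (Function.mulSupport (fun v : FinitePlace K => max (v x) 1)).Finite := by
      apply (FinitePlace.hasFiniteMulSupport hx).subset
      intro v hv h0
      apply hv
      simp only at h0 ⊢
      rw [h0, max_self]
    have h2 := prod_le_finprod (f := fun v : FinitePlace K => max (v x) 1)
      (fun v => le_max_right _ _) hfin (s.image FinitePlace.mk)
    refine le_trans ?_ h2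
    rw [Finset.prod_image (by
      intro v _ w _ hvw
      exact FinitePlace.mk_eq_iff.mp hvw)]
    apply Finset.prod_le_prod
    · intro v _
      linarith [two_le_nm v]
    · intro v hv
      exact (nm_le_of_valuation (hs v hv)).trans (le_max_left _ _)
  have h3 : 1 ≤ ∏ v : InfinitePlace K, max (v x) 1 ^ v.mult := by
    calc (1 : ℝ) = ∏ v : InfinitePlace K, (1 : ℝ) := by rw [Finset.prod_const_one]
      _ ≤ _ := Finset.prod_le_prod (fun _ _ => zero_le_one)
        (fun w _ => one_le_pow₀ (le_max_right _ _))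
  calc ∏ v ∈ s, nm v ≤ ∏ᶠ v : FinitePlace K, max (v x) 1 := h1
    _ = 1 * ∏ᶠ v : FinitePlace K, max (v x) 1 := by rw [one_mul]
    _ ≤ _ := mul_le_mul_of_nonneg_right h3 (le_trans zero_le_one (one_le_finpart K x))

lemma sum_log_nm_le {x : K} (hx : x ≠ 0) (s : Finset (HeightOneSpectrum (𝓞 K)))
    (hs : ∀ v ∈ s, v.valuation K x ≠ 1) : ∑ v ∈ s, Real.log (nm v) ≤ 2 * logHeight₁ x := by
  classical
  have hx' : x⁻¹ ≠ 0 := inv_ne_zero hx
  have key : ∀ {y : K}, y ≠ 0 → ∀ t : Finset (HeightOneSpectrum (𝓞 K)),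
      (∀ v ∈ t, 1 < v.valuation K y) → ∑ v ∈ t, Real.log (nm v) ≤ logHeight₁ y := by
    intro y hy t ht
    have h1 := prod_nm_le hy t ht
    rw [logHeight₁_eq_log_mulHeight₁, ← Real.log_prod (fun v _ => by linarith [two_le_nm v])]
    exact Real.log_le_log (Finset.prod_pos (fun v _ => by linarith [two_le_nm v])) h1
  rw [← Finset.sum_filter_add_sum_filter_not s (fun v => 1 < v.valuation K x)]
  have h1 := key hx (s.filter (fun v => 1 < v.valuation K x)) (by
    intro v hv; exact (Finset.mem_filter.mp hv).2)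
  have h2 := key hx' (s.filter (fun v => ¬ 1 < v.valuation K x)) (by
    intro v hv
    obtain ⟨h3, h4⟩ := Finset.mem_filter.mp hv
    rw [map_inv₀]
    have h5 : v.valuation K x < 1 := lt_of_le_of_ne (not_lt.mp h4) (hs v h3)
    exact (one_lt_inv₀ (zero_lt_iff.mpr ((Valuation.ne_zero_iff _).mpr hx))).mpr h5)
  rw [logHeight₁_inv] at h2
  linarith

variable (K)

/-- There are finitely many primes of bounded norm. -/
lemma finite_nm_le (Y : ℝ) : {v : HeightOneSpectrum (𝓞 K) | nm v ≤ Y}.Finite := by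
  have h := Ideal.finite_setOfPred_absNorm_le (S := 𝓞 K) ⌊Y⌋₊
  have h2 : Set.InjOn (fun v : HeightOneSpectrum (𝓞 K) => v.asIdeal) {v | nm v ≤ Y} := by
    intro v _ w _ hvw
    exact HeightOneSpectrum.ext hvw
  refine Set.Finite.of_finite_image (h.subset ?_) h2
  rintro _ ⟨v, hv, rfl⟩
  exact Nat.le_floor hv

/-- The number of primes where `x` is not a unit is `o(h(x))`, with explicit uniformity. -/
theorem card_primes_le (η : ℝ) (hη : 0 < η) : ∃ n : ℕ, ∀ (x : K), x ≠ 0 →
    ∀ s : Finset (HeightOneSpectrum (𝓞 K)), (∀ v ∈ s, v.valuation K x ≠ 1) →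
    (s.card : ℝ) ≤ η * logHeight₁ x + n := by
  classical
  set Y := Real.exp (2 / η) with hY
  have hY1 : 1 < Y := Real.one_lt_exp_iff.mpr (by positivity)
  set F := (finite_nm_le K Y).toFinset with hF
  refine ⟨F.card, ?_⟩
  intro x hx s hs
  have h1 := sum_log_nm_le hx (s \ F) (by
    intro v hv; exact hs v (Finset.mem_sdiff.mp hv).1)
  have h2 : ((s \ F).card : ℝ) * (2 / η) ≤ ∑ v ∈ s \ F, Real.log (nm v) := by
    rw [← nsmul_eq_mul, ← Finset.sum_const]
    apply Finset.sum_le_sum
    intro v hv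
    have h3 : Y < nm v := by
      by_contra h4
      apply (Finset.mem_sdiff.mp hv).2
      rw [hF, Set.Finite.mem_toFinset]
      exact not_lt.mp h4
    have h5 : Real.log Y = 2 / η := by rw [hY, Real.log_exp]
    rw [← h5]
    exact Real.log_le_log (by positivity) h3.le
  have h3 : (s.card : ℝ) ≤ (s \ F).card + F.card := by
    have : s.card ≤ (s \ F).card + F.card := by
      calc s.card ≤ ((s \ F) ∪ F).card := Finset.card_le_card (by
            intro v hv
            rw [Finset.mem_union, Finset.mem_sdiff]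
            by_cases h : v ∈ F
            · exact Or.inr h
            · exact Or.inl ⟨hv, h⟩)
        _ ≤ _ := Finset.card_union_le _ _
    exact_mod_cast this
  have h4 : ((s \ F).card : ℝ) ≤ η * logHeight₁ x := by
    have h5 : ((s \ F).card : ℝ) * (2 / η) ≤ 2 * logHeight₁ x := h2.trans h1
    have h6 : ((s \ F).card : ℝ) * (2 / η) * (η / 2) ≤ 2 * logHeight₁ x * (η / 2) :=
      mul_le_mul_of_nonneg_right h5 (by positivity)
    have h7 : ((s \ F).card : ℝ) * (2 / η) * (η / 2) = (s \ F).card := by field_simp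
    rw [h7] at h6
    linarith
  linarith

end Pool.Agent.K3H
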