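import Pool.Agent.K3H.Unif

/-!
Twists by `D` and by `D l^2` are isomorphic, compatibly with normalised x-coordinates.
-/

namespace Pool.Agent.K3H

open WeierstrassCurve WeierstrassCurve.Affine

variable {K : Type*} [Field K] [DecidableEq K]

lemma sw_ns_iff {A B x y : K} (h : 4 * A ^ 3 + 27 * B ^ 2 ≠ 0) [CharZero K] :
    (sw A B).Nonsingular x y ↔ y ^ 2 = x ^ 3 + A * x + B := by
  have := sw_elliptic h
  rw [← equation_iff_nonsingular, Affine.equation_iff]
  simp

lemma ns_scale {A B A' B' l x y : K} (hl : l ≠ 0) (hA : A' = A * l ^ 4) (hB : B' = B * l ^ 6)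
    (h : (sw A B).Nonsingular x y) : (sw A' B').Nonsingular (l ^ 2 * x) (l ^ 3 * y) := by
  rw [Affine.nonsingular_iff] at h ⊢
  obtain ⟨h1, h2⟩ := h
  rw [Affine.equation_iff] at h1 ⊢
  simp only [sw_a1, sw_a2, sw_a3, sw_a4, sw_a6, zero_mul, mul_zero, add_zero, sub_zero] at h1 h2 ⊢
  refine ⟨?_, ?_⟩
  · rw [hA, hB]; linear_combination l ^ 6 * h1
  · rcases h2 with h2 | h2
    · left
      intro h0
      apply h2
      have h3 : l ^ 4 * (3 * x ^ 2 + A) = 0 := by rw [hA] at h0; linear_combination -h0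
      rcases mul_eq_zero.mp h3 with h4 | h4
      · exact absurd h4 (pow_ne_zero 4 hl)
      · rw [h4]
    · right
      intro h0
      apply h2
      have h3 : l ^ 3 * (y + y) = 0 := by linear_combination h0
      rcases mul_eq_zero.mp h3 with h4 | h4
      · exact absurd h4 (pow_ne_zero 3 hl)
      · linear_combination h4

/-- The scaling map on points. -/
def scaleFun {A B A' B' l : K} (hl : l ≠ 0) (hA : A' = A * l ^ 4) (hB : B' = B * l ^ 6) :
    (sw A B).Point → (sw A' B').Point
  | .zero => 0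
  | .some x y h => .some (l ^ 2 * x) (l ^ 3 * y) (ns_scale hl hA hB h)

lemma scale_add {A B A' B' l : K} (hl : l ≠ 0) (hA : A' = A * l ^ 4) (hB : B' = B * l ^ 6)
    (P Q : (sw A B).Point) :
    scaleFun hl hA hB (P + Q) = scaleFun hl hA hB P + scaleFun hl hA hB Q := by
  have hl2 : l ^ 2 ≠ 0 := pow_ne_zero 2 hl
  have hl3 : l ^ 3 ≠ 0 := pow_ne_zero 3 hl
  cases P with
  | zero =>
    rw [← Point.zero_def, zero_add]
    show _ = (0 : (sw A' B').Point) + _
    rw [zero_add]
  | some x₁ y₁ h₁ =>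
    cases Q with
    | zero =>
      rw [← Point.zero_def, add_zero]
      show _ = _ + (0 : (sw A' B').Point)
      rw [add_zero]
    | some x₂ y₂ h₂ =>
      by_cases hxy : x₁ = x₂ ∧ y₁ = (sw A B).negY x₂ y₂
      · rw [Point.add_of_Y_eq hxy.1 hxy.2]
        show (0 : (sw A' B').Point) = Point.some _ _ _ + Point.some _ _ _
        rw [Point.add_of_Y_eq]
        · rw [hxy.1]
        · rw [hxy.2, sw_negY, sw_negY]; ring
      · have hxy' : ¬ (l ^ 2 * x₁ = l ^ 2 * x₂ ∧ l ^ 3 * y₁ = (sw A' B').negY (l ^ 2 * x₂) (l ^ 3 * y₂)) := by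
          rintro ⟨h3, h4⟩
          apply hxy
          refine ⟨mul_left_cancel₀ hl2 h3, ?_⟩
          rw [sw_negY] at h4 ⊢
          apply mul_left_cancel₀ hl3
          rw [h4]; ring
        rw [Point.add_some hxy]
        show Point.some _ _ _ = Point.some _ _ _ + Point.some _ _ _
        rw [Point.add_some hxy']
        have hsl : (sw A' B').slope (l ^ 2 * x₁) (l ^ 2 * x₂) (l ^ 3 * y₁) (l ^ 3 * y₂) =
            l * (sw A B).slope x₁ x₂ y₁ y₂ := by
          by_cases hx : x₁ = x₂
          · have hy : y₁ ≠ (sw A B).negY x₂ y₂ := fun h => hxy ⟨hx, h⟩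
            have hy' : l ^ 3 * y₁ ≠ (sw A' B').negY (l ^ 2 * x₂) (l ^ 3 * y₂) :=
              fun h => hxy' ⟨by rw [hx], h⟩
            rw [slope_of_Y_ne hx hy, slope_of_Y_ne (by rw [hx]) hy']
            have hyy : y₁ = y₂ := Y_eq_of_Y_ne h₁.1 h₂.1 hx hy
            rw [sw_negY, ← hyy] at hy
            have h2y : y₁ + y₁ ≠ 0 := fun h => hy (by linear_combination h)
            simp only [sw_a1, sw_a2, sw_a4, sw_negY, mul_zero, zero_mul, add_zero, sub_zero]
            have e1 : l ^ 3 * y₁ - -(l ^ 3 * y₁) = l ^ 3 * (y₁ + y₁) := by ring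
            have e2 : y₁ - -y₁ = y₁ + y₁ := by ring
            rw [e1, e2, hA, ← mul_div_assoc, div_eq_div_iff (mul_ne_zero hl3 h2y) h2y]
            ring
          · have hx' : l ^ 2 * x₁ ≠ l ^ 2 * x₂ := fun h => hx (mul_left_cancel₀ hl2 h)
            rw [slope_of_X_ne hx, slope_of_X_ne hx']
            have h5 : x₁ - x₂ ≠ 0 := sub_ne_zero.mpr hx
            rw [← mul_sub, ← mul_sub, ← mul_div_assoc, div_eq_div_iff (mul_ne_zero hl2 h5) h5]
            ring
        congr 1
        · rw [hsl]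
          simp only [Affine.addX, sw_a1, sw_a2]
          ring
        · rw [hsl]
          simp only [Affine.addY, Affine.negAddY, Affine.addX, sw_a1, sw_a2, sw_negY]
          ring

/-- The twists by `D` and `D'` are isomorphic if `D' = D l^2`. -/
theorem exists_scale (a b : K) {D D' l : K} (hl : l ≠ 0) (hD : D' = D * l ^ 2) :
    ∃ φ : (tw a b D).Point →+ (tw a b D').Point, Function.Injective φ ∧
      ∀ P, xi D' (φ P) = xi D P := by
  have hA : a * D' ^ 2 = a * D ^ 2 * l ^ 4 := by rw [hD]; ring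
  have hB : b * D' ^ 3 = b * D ^ 3 * l ^ 6 := by rw [hD]; ring
  refine ⟨⟨⟨scaleFun hl hA hB, rfl⟩, scale_add hl hA hB⟩, ?_, ?_⟩
  · intro P Q h
    have h' : scaleFun hl hA hB P = scaleFun hl hA hB Q := h
    cases P with
    | zero =>
      cases Q with
      | zero => rfl
      | some x y h2 => simp [scaleFun, Point.zero_def] at h'
    | some x y h1 =>
      cases Q with
      | zero => simp [scaleFun, Point.zero_def] at h'
      | some x₂ y₂ h2 =>
        simp only [scaleFun, Point.some.injEq] at h'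
        have e1 := mul_left_cancel₀ (pow_ne_zero 2 hl) h'.1
        have e2 := mul_left_cancel₀ (pow_ne_zero 3 hl) h'.2
        simp [e1, e2]
  · intro P
    cases P with
    | zero => rfl
    | some x y h1 =>
      show xi D' (Point.some _ _ _) = _
      rw [xi_some, xi_some, hD]
      congr 1
      have h2 : l ^ 2 ≠ 0 := pow_ne_zero 2 hl
      rw [mul_comm D, mul_div_mul_left _ _ h2]

end Pool.Agent.K3H
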