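import Pool.Agent.K3H.Count

/-!
Sharp upper bound, of order the square of the bound, for the number of elements of a number
field of bounded relative height.
-/

namespace Pool.Agent.K3H

open NumberField Height Module

variable (K : Type*) [Field K] [NumberField K]

/-- Positive real vectors indexed by the infinite places can be balanced by a unit. -/
lemma unit_scale : ∃ C : ℝ, 0 < C ∧ ∀ m : InfinitePlace K → ℝ, (∀ v, 0 < m v) →
    ∃ u : (𝓞 K)ˣ, ∀ v : InfinitePlace K,
      v (u : K) * m v ≤ C * (∏ v, m v ^ v.mult) ^ ((finrank ℚ K : ℝ)⁻¹) := by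
  classical
  obtain ⟨C, hC⟩ := (mixedEmbedding.fundamentalCone.isBounded_normLeOne K).exists_norm_le
  refine ⟨max C 1, by positivity, ?_⟩
  intro m hm
  set N : ℝ := ∏ v, m v ^ v.mult with hN
  have hN0 : 0 < N := Finset.prod_pos (fun v _ => pow_pos (hm v) _)
  set x : mixedEmbedding.mixedSpace K := mixedEmbedding.mixedSpaceOfRealSpace m with hx
  have hxv : ∀ v, mixedEmbedding.normAtPlace v x = m v := fun v =>
    mixedEmbedding.normAtPlace_mixedSpaceOfRealSpace (hm v).le
  have hxN : mixedEmbedding.norm x = N := by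
    rw [mixedEmbedding.norm_apply]
    exact Finset.prod_congr rfl (fun v _ => by rw [hxv v])
  obtain ⟨u, hu⟩ := mixedEmbedding.fundamentalCone.exists_unit_smul_mem (x := x)
    (by rw [hxN]; exact hN0.ne')
  set d : ℝ := (finrank ℚ K : ℝ) with hd
  have hd0 : 0 < d := by
    rw [hd]
    exact_mod_cast finrank_pos
  set r : ℝ := N ^ (d⁻¹) with hr
  have hr0 : 0 < r := Real.rpow_pos_of_pos hN0 _
  refine ⟨u, fun v => ?_⟩
  have h1 : r⁻¹ • (u • x) ∈ mixedEmbedding.fundamentalCone.normLeOne K := by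
    rw [mixedEmbedding.fundamentalCone.mem_normLeOne]
    refine ⟨mixedEmbedding.fundamentalCone.smul_mem_of_mem hu (inv_ne_zero hr0.ne'), ?_⟩
    rw [mixedEmbedding.norm_smul, mixedEmbedding.norm_unit_smul, hxN,
      abs_of_pos (inv_pos.mpr hr0), inv_pow]
    have : r ^ finrank ℚ K = N := by
      rw [hr, ← Real.rpow_natCast, ← Real.rpow_mul hN0.le]
      rw [← hd, inv_mul_cancel₀ hd0.ne', Real.rpow_one]
    rw [this, inv_mul_cancel₀ hN0.ne']
  have h2 := hC _ h1
  rw [mixedEmbedding.norm_eq_sup'_normAtPlace] at h2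
  have h3 : mixedEmbedding.normAtPlace v (r⁻¹ • (u • x)) ≤ C :=
    (Finset.le_sup' (fun w => mixedEmbedding.normAtPlace w (r⁻¹ • (u • x))) (Finset.mem_univ v)).trans h2
  rw [mixedEmbedding.normAtPlace_smul, mixedEmbedding.unitSMul_smul, map_mul, hxv,
    mixedEmbedding.normAtPlace_apply, abs_of_pos (inv_pos.mpr hr0)] at h3
  have h4 : v (u : K) * m v ≤ C * r := by
    rw [inv_mul_le_iff₀ hr0] at h3
    linarith
  exact h4.trans (mul_le_mul_of_nonneg_right (le_max_left _ _) hr0.le)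

open scoped nonZeroDivisors in
/-- Every element is a quotient of integers generating an ideal of bounded norm. -/
lemma exists_rep_frac : ∃ N0 : ℝ, 1 ≤ N0 ∧ ∀ x : K, ∃ α β : 𝓞 K, β ≠ 0 ∧
    x = (α : K) / (β : K) ∧ ((Ideal.span (Set.range ![α, β])).absNorm : ℝ) ≤ N0 := by
  classical
  choose J hJ using (ClassGroup.mk0_surjective (R := 𝓞 K))
  refine ⟨1 + ∑ c, ((Ideal.absNorm (J c : Ideal (𝓞 K)) : ℕ) : ℝ), ?_, ?_⟩
  · have : 0 ≤ ∑ c, ((Ideal.absNorm (J c : Ideal (𝓞 K)) : ℕ) : ℝ) :=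
      Finset.sum_nonneg (fun _ _ => Nat.cast_nonneg _)
    linarith
  intro x
  obtain ⟨a, b, hb, hx⟩ := IsFractionRing.div_surjective (A := 𝓞 K) x
  have hb0 : b ≠ 0 := nonZeroDivisors.ne_zero hb
  have hI : Ideal.span (Set.range ![a, b]) ∈ (Ideal (𝓞 K))⁰ := by
    rw [mem_nonZeroDivisors_iff_ne_zero]
    intro h
    apply hb0
    have : b ∈ Ideal.span (Set.range ![a, b]) := Ideal.subset_span ⟨1, rfl⟩
    rw [h] at this
    simpa using this
  set I : (Ideal (𝓞 K))⁰ := ⟨_, hI⟩ with hIdef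
  set c := ClassGroup.mk0 I with hc
  obtain ⟨y, z, hy, hz, h⟩ := ClassGroup.mk0_eq_mk0_iff.mp (hc.symm.trans (hJ c).symm)
  have hmem : ∀ t ∈ Ideal.span (Set.range ![a, b]), ∃ α ∈ (J c : Ideal (𝓞 K)), z * α = y * t := by
    intro t ht
    have h1 : y * t ∈ Ideal.span {y} * (I : Ideal (𝓞 K)) :=
      Ideal.mul_mem_mul (Ideal.mem_span_singleton_self y) ht
    rw [h, Ideal.mem_span_singleton_mul] at h1
    exact h1
  obtain ⟨α, hα, hα2⟩ := hmem a (Ideal.subset_span ⟨0, rfl⟩)
  obtain ⟨β, hβ, hβ2⟩ := hmem b (Ideal.subset_span ⟨1, rfl⟩)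
  have hβ0 : β ≠ 0 := by
    intro h0
    rw [h0, mul_zero] at hβ2
    exact (mul_ne_zero hy hb0) hβ2.symm
  refine ⟨α, β, hβ0, ?_, ?_⟩
  · rw [← hx]
    have hbK : (b : K) ≠ 0 := by exact_mod_cast hb0
    have hβK : (β : K) ≠ 0 := by exact_mod_cast hβ0
    have hzK : (z : K) ≠ 0 := by exact_mod_cast hz
    have hyK : (y : K) ≠ 0 := by exact_mod_cast hy
    have e1 : (z : K) * α = y * a := by exact_mod_cast congrArg (algebraMap (𝓞 K) K) hα2
    have e2 : (z : K) * β = y * b := by exact_mod_cast congrArg (algebraMap (𝓞 K) K) hβ2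
    change (a : K) / (b : K) = (α : K) / (β : K)
    rw [div_eq_div_iff hbK hβK]
    have : (z : K) * y * ((a : K) * β) = z * y * (α * b) := by
      calc (z : K) * y * ((a : K) * β) = (y * a) * (z * β) := by ring
        _ = (z * α) * (y * b) := by rw [← e1, e2]
        _ = _ := by ring
    exact mul_left_cancel₀ (mul_ne_zero hzK hyK) this
  · have hspan : Ideal.span (Set.range ![α, β]) = (J c : Ideal (𝓞 K)) := by
      have hz' : Ideal.span {z} ≠ (⊥ : Ideal (𝓞 K)) := by
        rw [Ne, Ideal.span_singleton_eq_bot]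
        exact hz
      apply mul_left_cancel₀ (a := Ideal.span {z}) hz'
      rw [← h]
      have hr : ∀ p q : 𝓞 K, Set.range ![p, q] = {p, q} := by
        intro p q
        ext t
        simp [eq_comm, or_comm]
      show _ = Ideal.span {y} * Ideal.span (Set.range ![a, b])
      rw [hr, hr, Ideal.span_mul_span', Ideal.span_mul_span']
      congr 1
      simp only [Set.singleton_mul, Set.image_insert_eq, Set.image_singleton]
      rw [hα2, hβ2]
    rw [hspan]
    have h1 : ((Ideal.absNorm (J c : Ideal (𝓞 K)) : ℕ) : ℝ) ≤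
        ∑ c, ((Ideal.absNorm (J c : Ideal (𝓞 K)) : ℕ) : ℝ) :=
      Finset.single_le_sum (f := fun c => ((Ideal.absNorm (J c : Ideal (𝓞 K)) : ℕ) : ℝ))
        (fun _ _ => Nat.cast_nonneg _) (Finset.mem_univ c)
    linarith

lemma arch_part {α β : 𝓞 K} (hβ : β ≠ 0) :
    ∏ v : InfinitePlace K, (max (v (α : K)) (v (β : K))) ^ v.mult =
      mulHeight₁ ((α : K) / (β : K)) * (Ideal.span (Set.range ![α, β])).absNorm := by
  have hβK : (β : K) ≠ 0 := by exact_mod_cast hβ
  have h1 := absNorm_mul_finprod_finitePlace_eq_one (x := ![α, β]) (by simp [hβ])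
  have hv (i : Fin 2) : ((![α, β] i : 𝓞 K) : K) = ![(α : K), (β : K)] i := by fin_cases i <;> rfl
  simp only [hv] at h1
  rw [mulHeight₁_div_eq_mulHeight, NumberField.mulHeight_eq (by simp [hβK]), mul_assoc,
    mul_comm (∏ᶠ v : FinitePlace K, _) _, h1, mul_one]
  apply Finset.prod_congr rfl
  intro v _
  congr 1
  apply le_antisymm
  · apply max_le
    · exact Finite.le_ciSup_of_le (f := fun i => v (![(α : K), (β : K)] i)) 0 le_rfl
    · exact Finite.le_ciSup_of_le (f := fun i => v (![(α : K), (β : K)] i)) 1 le_rfl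
  · apply ciSup_le
    intro i
    fin_cases i
    · exact le_max_left _ _
    · exact le_max_right _ _

/-- Upper bound of the order of Schanuel's theorem: at most `C T^2` elements of relative
height at most `T`. -/
theorem count_height2 : ∃ C : ℝ, 0 ≤ C ∧ ∀ T : ℝ, 1 ≤ T → ∀ s : Finset K,
    (∀ x ∈ s, mulHeight₁ x ≤ T) → (s.card : ℝ) ≤ C * T ^ 2 := by
  classical
  obtain ⟨c, hc0, hc⟩ := coord_bound K
  obtain ⟨C1, hC1, hU⟩ := unit_scale K
  obtain ⟨N0, hN0, hR⟩ := exists_rep_frac K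
  set ι := Free.ChooseBasisIndex ℤ (𝓞 K)
  have hcard : Fintype.card ι = finrank ℚ K := by
    rw [← RingOfIntegers.rank K, finrank_eq_card_chooseBasisIndex]
  set d := finrank ℚ K with hd
  have hdpos : (0 : ℝ) < d := by exact_mod_cast (finrank_pos (R := ℚ) (M := K))
  set e : ℝ := (d : ℝ)⁻¹ with he
  have he0 : 0 < e := inv_pos.mpr hdpos
  set A : ℝ := 2 * c * C1 * N0 ^ e + 1 with hA
  have hA0 : 0 < A := by positivity
  refine ⟨A ^ (2 * d), by positivity, ?_⟩
  intro T hT s hs
  set R : ℝ := C1 * (N0 * T) ^ e with hRdef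
  have hR0 : 0 ≤ R := by positivity
  set M : ℕ := ⌊c * R⌋₊ with hM
  let box : Finset (ι → ℤ) := Fintype.piFinset (fun _ => Finset.Icc (-(M : ℤ)) M)
  let g1 : (ι → ℤ) → K := fun p => ∑ i, (p i : K) * (RingOfIntegers.basis K i : K)
  let g : (ι → ℤ) × (ι → ℤ) → K := fun p => g1 p.1 / g1 p.2
  have hrepr : ∀ a : 𝓞 K, g1 (fun i => (RingOfIntegers.basis K).repr a i) = (a : K) := by
    intro a
    have := (RingOfIntegers.basis K).sum_repr a
    conv_rhs => rw [← this]
    rw [show ((∑ i, (RingOfIntegers.basis K).repr a i • (RingOfIntegers.basis K) i : 𝓞 K) : K) =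
      algebraMap (𝓞 K) K (∑ i, (RingOfIntegers.basis K).repr a i • (RingOfIntegers.basis K) i) from rfl,
      map_sum]
    apply Finset.sum_congr rfl
    intro i _
    rw [zsmul_eq_mul, map_mul, map_intCast]
  have hmulc : ∀ p q : 𝓞 K, ((p * q : 𝓞 K) : K) = (algebraMap (𝓞 K) K p) * (q : K) :=
    fun p q => map_mul (algebraMap (𝓞 K) K) p q
  have hbox : ∀ a : 𝓞 K, (∀ φ : K →+* ℂ, ‖φ a‖ ≤ R) →
      (fun i => (RingOfIntegers.basis K).repr a i) ∈ box := by
    intro a ha
    rw [Fintype.mem_piFinset]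
    intro i
    have h1 := hc a R ha i
    rw [Finset.mem_Icc, ← abs_le]
    have h2 : ((|(RingOfIntegers.basis K).repr a i|).toNat : ℝ) ≤ c * R := by
      have h3 : (((|(RingOfIntegers.basis K).repr a i|).toNat : ℤ) : ℝ) =
          |(((RingOfIntegers.basis K).repr a i : ℤ) : ℝ)| := by
        rw [Int.toNat_of_nonneg (abs_nonneg _)]
        push_cast
        rfl
      rw [← h3] at h1
      exact_mod_cast h1
    have h4 := Nat.le_floor h2
    show |(RingOfIntegers.basis K).repr a i| ≤ (M : ℤ)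
    omega
  have hsub : s ⊆ (box ×ˢ box).image g := by
    intro x hx
    obtain ⟨α, β, hβ, hxe, hN⟩ := hR x
    have hβK : (β : K) ≠ 0 := by exact_mod_cast hβ
    have hm : ∀ v : InfinitePlace K, 0 < max (v (α : K)) (v (β : K)) := fun v =>
      lt_max_of_lt_right (v.pos_iff.mpr hβK)
    obtain ⟨u, hu⟩ := hU _ hm
    have hprod := arch_part K (α := α) hβ
    rw [← hxe] at hprod
    have hle : (∏ v : InfinitePlace K, (max (v (α : K)) (v (β : K))) ^ v.mult) ^ e ≤ (N0 * T) ^ e := by
      apply Real.rpow_le_rpow (Finset.prod_nonneg (fun v _ => pow_nonneg (hm v).le _)) _ he0.le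
      rw [hprod, mul_comm N0 T]
      exact mul_le_mul (hs x hx) hN (Nat.cast_nonneg _) (by linarith)
    have hu2 : ∀ v : InfinitePlace K, v (u : K) * max (v (α : K)) (v (β : K)) ≤ R := fun v =>
      (hu v).trans (mul_le_mul_of_nonneg_left hle hC1.le)
    rw [Finset.mem_image]
    refine ⟨(fun i => (RingOfIntegers.basis K).repr ((u : 𝓞 K) * α) i,
      fun i => (RingOfIntegers.basis K).repr ((u : 𝓞 K) * β) i), ?_, ?_⟩
    · rw [Finset.mem_product]
      refine ⟨hbox _ ?_, hbox _ ?_⟩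
      · intro φ
        have := hu2 (InfinitePlace.mk φ)
        rw [← InfinitePlace.apply φ, hmulc, map_mul]
        exact (mul_le_mul_of_nonneg_left (le_max_left _ _) (apply_nonneg _ _)).trans this
      · intro φ
        have := hu2 (InfinitePlace.mk φ)
        rw [← InfinitePlace.apply φ, hmulc, map_mul]
        exact (mul_le_mul_of_nonneg_left (le_max_right _ _) (apply_nonneg _ _)).trans this
    · show g1 _ / g1 _ = x
      rw [hrepr, hrepr, hxe, hmulc, hmulc]
      have huK : (algebraMap (𝓞 K) K (u : 𝓞 K)) ≠ 0 := by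
        have := (u.isUnit.map (algebraMap (𝓞 K) K)).ne_zero
        exact this
      exact mul_div_mul_left _ _ huK
  have h1 := Finset.card_le_card hsub
  have h2 := h1.trans Finset.card_image_le
  rw [Finset.card_product, Fintype.card_piFinset] at h2
  simp only [Finset.prod_const, Finset.card_univ, Int.card_Icc] at h2
  have h3 : ((M : ℤ) + 1 - -(M : ℤ)).toNat = 2 * M + 1 := by omega
  rw [h3, hcard, ← pow_add, ← two_mul] at h2
  have h4 : (s.card : ℝ) ≤ (2 * M + 1) ^ (2 * d) := by exact_mod_cast h2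
  have h6 : (M : ℝ) ≤ c * R := Nat.floor_le (by positivity)
  have hTe : 1 ≤ T ^ e := Real.one_le_rpow hT he0.le
  have h7 : (2 * (M : ℝ) + 1) ≤ A * T ^ e := by
    have : c * R = c * C1 * N0 ^ e * T ^ e := by
      rw [hRdef, Real.mul_rpow (by linarith) (by linarith)]
      ring
    rw [this] at h6
    rw [hA]
    nlinarith
  calc (s.card : ℝ) ≤ (2 * M + 1) ^ (2 * d) := h4
    _ ≤ (A * T ^ e) ^ (2 * d) := pow_le_pow_left₀ (by positivity) h7 _
    _ = A ^ (2 * d) * T ^ 2 := by
        rw [mul_pow, ← Real.rpow_natCast (T ^ e), ← Real.rpow_mul (by linarith)]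
        congr 1
        rw [he]
        push_cast
        rw [show (d : ℝ)⁻¹ * (2 * d) = 2 by field_simp]
        norm_cast

end Pool.Agent.K3H
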