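import Mathlib

/-!
Classification of square classes in a number field with even valuations outside a finite set.
-/

namespace Pool.Agent.K3H

open IsDedekindDomain NumberField WithZero

section valuegroup

lemma isSquare_exp_iff (n : ℤ) : IsSquare (WithZero.exp n : WithZero (Multiplicative ℤ)) ↔ Even n := by
  constructor
  · rintro ⟨a, ha⟩
    have ha0 : a ≠ 0 := by
      rintro rfl
      simp at ha
    rw [← WithZero.exp_log ha0, ← WithZero.exp_add, WithZero.exp_inj] at ha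
    exact ⟨_, ha⟩
  · rintro ⟨m, rfl⟩
    exact ⟨WithZero.exp m, by rw [WithZero.exp_add]⟩

lemma isSquare_mul_of_not {a b : WithZero (Multiplicative ℤ)} (ha : a ≠ 0) (hb : b ≠ 0)
    (h1 : ¬ IsSquare a) (h2 : ¬ IsSquare b) : IsSquare (a * b) := by
  rw [← WithZero.exp_log ha] at h1 ⊢
  rw [← WithZero.exp_log hb] at h2 ⊢
  rw [isSquare_exp_iff, Int.not_even_iff_odd] at h1 h2
  rw [← WithZero.exp_add, isSquare_exp_iff]
  exact h1.add_odd h2

end valuegroup

variable (K : Type*) [Field K] [NumberField K]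

/-- All valuations of `x` outside `S` are even. -/
def EvenOutside {K : Type*} [Field K] [NumberField K] (S : Set (HeightOneSpectrum (𝓞 K)))
    (x : K) : Prop := ∀ v : HeightOneSpectrum (𝓞 K), v ∉ S → IsSquare (v.valuation K x)

/-- Units modulo squares: a finite classification. -/
lemma units_class : ∃ (N : ℕ) (κ : (𝓞 K)ˣ → Fin N), ∀ u u' : (𝓞 K)ˣ, κ u = κ u' →
    IsSquare (u * u') := by
  obtain ⟨n, s, hs⟩ := Module.Finite.exists_fin (R := ℤ) (M := Additive (𝓞 K)ˣ)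
  have h1 : ∀ u : Additive (𝓞 K)ˣ, ∃ c : Fin n → ℤ, ∑ i, c i • s i = u := by
    intro u
    have : u ∈ Submodule.span ℤ (Set.range s) := by rw [hs]; trivial
    exact (Submodule.mem_span_range_iff_exists_fun ℤ).mp this
  choose c hc using h1
  let e : (Fin n → ZMod 2) ≃ Fin (Fintype.card (Fin n → ZMod 2)) := Fintype.equivFin _
  refine ⟨_, fun u => e (fun i => (c (Additive.ofMul u) i : ZMod 2)), ?_⟩
  intro u u' h
  have h2 := e.injective h
  have h3 : ∀ i, Even (c (Additive.ofMul u) i + c (Additive.ofMul u') i) := by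
    intro i
    have h4 := congrFun h2 i
    rw [ZMod.intCast_eq_intCast_iff_dvd_sub] at h4
    obtain ⟨m, hm⟩ := h4
    refine ⟨m + c (Additive.ofMul u) i, ?_⟩
    push_cast at hm
    linarith
  choose d hd using h3
  refine ⟨Additive.toMul (∑ i, d i • s i), ?_⟩
  have h5 : Additive.ofMul (u * u') = (∑ i, d i • s i) + (∑ i, d i • s i) := by
    rw [ofMul_mul, ← hc (Additive.ofMul u), ← hc (Additive.ofMul u'), ← Finset.sum_add_distrib,
      ← Finset.sum_add_distrib]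
    apply Finset.sum_congr rfl
    intro i _
    rw [← add_zsmul, hd i, add_zsmul]
  have h6 := congrArg Additive.toMul h5
  rw [toMul_add] at h6
  exact h6

/-- An ideal all of whose multiplicities are even is a square. -/
lemma ideal_sq {I : Ideal (𝓞 K)} (hI : I ≠ ⊥)
    (h : ∀ v : HeightOneSpectrum (𝓞 K), Even (multiplicity v.asIdeal I)) :
    ∃ J : Ideal (𝓞 K), J ≠ ⊥ ∧ J ^ 2 = I := by
  classical
  let m := UniqueFactorizationMonoid.normalizedFactors I
  have hm : ∀ p ∈ m.toFinset, Even (m.count p) := by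
    intro p hp
    rw [Multiset.mem_toFinset] at hp
    have hprime : Prime p := UniqueFactorizationMonoid.prime_of_normalized_factor p hp
    have hp0 : p ≠ ⊥ := hprime.ne_zero
    let v : HeightOneSpectrum (𝓞 K) := ⟨p, Ideal.isPrime_of_prime hprime, hp0⟩
    have := h v
    rwa [← IsDedekindDomain.HeightOneSpectrum.count_normalizedFactors_eq_multiplicity hI v] at this
  refine ⟨∏ p ∈ m.toFinset, p ^ (m.count p / 2), ?_, ?_⟩
  · rw [Ne, ← Ideal.zero_eq_bot, Finset.prod_eq_zero_iff]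
    rintro ⟨p, hp, h0⟩
    rw [Multiset.mem_toFinset] at hp
    have hprime : Prime p := UniqueFactorizationMonoid.prime_of_normalized_factor p hp
    exact pow_ne_zero _ hprime.ne_zero h0
  · rw [← Finset.prod_pow]
    have h1 : ∏ p ∈ m.toFinset, (p ^ (m.count p / 2)) ^ 2 = ∏ p ∈ m.toFinset, p ^ m.count p := by
      apply Finset.prod_congr rfl
      intro p hp
      rw [← pow_mul, Nat.div_mul_cancel (hm p hp).two_dvd]
    rw [h1, ← Finset.prod_multiset_count]
    exact Ideal.prod_normalizedFactors_eq_self hI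

lemma exists_int_rep {x : K} (hx : x ≠ 0) : ∃ (r : 𝓞 K) (t : K), r ≠ 0 ∧ t ≠ 0 ∧
    x * t ^ 2 = algebraMap (𝓞 K) K r := by
  obtain ⟨a, b, hb, hab⟩ := IsFractionRing.div_surjective (A := 𝓞 K) x
  have hb0 : b ≠ 0 := nonZeroDivisors.ne_zero hb
  have hb0' : algebraMap (𝓞 K) K b ≠ 0 := by
    rw [Ne, FaithfulSMul.algebraMap_eq_zero_iff]; exact hb0
  have ha0 : a ≠ 0 := by
    rintro rfl
    rw [map_zero, zero_div] at hab
    exact hx hab.symm
  refine ⟨a * b, algebraMap (𝓞 K) K b, mul_ne_zero ha0 hb0, hb0', ?_⟩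
  rw [map_mul, ← hab]
  field_simp

/-- Elements with all valuations even: finitely many square classes. -/
theorem sel0 : ∃ (N : ℕ) (κ : K → Fin N), ∀ x y : K, x ≠ 0 → y ≠ 0 →
    EvenOutside ∅ x → EvenOutside ∅ y → κ x = κ y → IsSquare (x * y) := by
  classical
  obtain ⟨N₁, κ₁, h₁⟩ := units_class K
  -- the ideal attached to x
  have hJ : ∀ x : K, ∃ (r : 𝓞 K) (t : K) (J : Ideal (𝓞 K)), r ≠ 0 ∧ t ≠ 0 ∧ J ≠ ⊥ ∧
      (x ≠ 0 → EvenOutside ∅ x → x * t ^ 2 = algebraMap (𝓞 K) K r ∧ J ^ 2 = Ideal.span {r}) := by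
    intro x
    by_cases hx : x ≠ 0 ∧ EvenOutside ∅ x
    · obtain ⟨r, t, hr, ht, hrt⟩ := exists_int_rep K hx.1
      have hI : Ideal.span {r} ≠ ⊥ := by rwa [Ne, Ideal.span_singleton_eq_bot]
      obtain ⟨J, hJ0, hJ⟩ := ideal_sq K hI (by
        intro v
        have h2 : IsSquare (v.valuation K (algebraMap (𝓞 K) K r)) := by
          rw [← hrt, map_mul, map_pow]
          exact (hx.2 v (Set.notMem_empty v)).mul (IsSquare.sq _)
        rw [HeightOneSpectrum.valuation_of_algebraMap,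
          HeightOneSpectrum.intValuation_eq_exp_neg_multiplicity v hr, isSquare_exp_iff,
          even_neg] at h2
        exact_mod_cast h2)
      exact ⟨r, t, J, hr, ht, hJ0, fun _ _ => ⟨hrt, hJ⟩⟩
    · exact ⟨1, 1, ⊤, one_ne_zero, one_ne_zero, top_ne_bot, fun h1 h2 => absurd ⟨h1, h2⟩ hx⟩
  choose r t J hr ht hJ0 hJ using hJ
  let cl : K → ClassGroup (𝓞 K) := fun x =>
    ClassGroup.mk0 ⟨J x, mem_nonZeroDivisors_iff_ne_zero.mpr (hJ0 x)⟩
  -- representatives
  let rep : ClassGroup (𝓞 K) → K := fun c =>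
    if h : ∃ x : K, x ≠ 0 ∧ EvenOutside ∅ x ∧ cl x = c then h.choose else 1
  have hrep : ∀ x : K, x ≠ 0 → EvenOutside ∅ x →
      rep (cl x) ≠ 0 ∧ EvenOutside ∅ (rep (cl x)) ∧ cl (rep (cl x)) = cl x := by
    intro x hx hx2
    have h : ∃ y : K, y ≠ 0 ∧ EvenOutside ∅ y ∧ cl y = cl x := ⟨x, hx, hx2, rfl⟩
    simp only [rep, dif_pos h]
    exact h.choose_spec
  have hunit : ∀ x : K, ∃ (u : (𝓞 K)ˣ) (α β : 𝓞 K), x ≠ 0 → EvenOutside ∅ x →
      α ≠ 0 ∧ β ≠ 0 ∧ α ^ 2 * r x * u = β ^ 2 * r (rep (cl x)) := by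
    intro x
    by_cases hx : x ≠ 0 ∧ EvenOutside ∅ x
    · obtain ⟨g1, g2, g3⟩ := hrep x hx.1 hx.2
      obtain ⟨α, β, hα, hβ, hαβ⟩ := ClassGroup.mk0_eq_mk0_iff.mp g3.symm
      simp only at hαβ
      have e1 := (hJ x hx.1 hx.2).2
      have e2 := (hJ _ g1 g2).2
      have e3 : Ideal.span {α ^ 2 * r x} = Ideal.span {β ^ 2 * r (rep (cl x))} := by
        have h5 := congrArg (fun I => I ^ 2) hαβ
        simp only [mul_pow] at h5
        rw [e1, e2, Ideal.span_singleton_pow, Ideal.span_singleton_pow,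
          Ideal.span_singleton_mul_span_singleton, Ideal.span_singleton_mul_span_singleton] at h5
        exact h5
      rw [Ideal.span_singleton_eq_span_singleton] at e3
      obtain ⟨u, hu⟩ := e3
      exact ⟨u, α, β, fun _ _ => ⟨hα, hβ, hu⟩⟩
    · exact ⟨1, 1, 1, fun h1 h2 => absurd ⟨h1, h2⟩ hx⟩
  choose u α β hu using hunit
  let e : (ClassGroup (𝓞 K) × Fin N₁) ≃ Fin (Fintype.card (ClassGroup (𝓞 K) × Fin N₁)) :=
    Fintype.equivFin _
  refine ⟨_, fun x => e (cl x, κ₁ (u x)), ?_⟩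
  intro x y hx hy hx2 hy2 hxy
  have h2 := e.injective hxy
  rw [Prod.mk.injEq] at h2
  obtain ⟨w, hw⟩ := h₁ _ _ h2.2
  obtain ⟨a1, a2, a3⟩ := hu x hx hx2
  obtain ⟨b1, b2, b3⟩ := hu y hy hy2
  rw [← h2.1] at b3
  have c1 := (hJ x hx hx2).1
  have c2 := (hJ y hy hy2).1
  -- transfer to K
  have A3 := congrArg (algebraMap (𝓞 K) K) a3
  have B3 := congrArg (algebraMap (𝓞 K) K) b3
  simp only [map_mul, map_pow] at A3 B3
  rw [← c1] at A3
  rw [← c2] at B3
  have W : algebraMap (𝓞 K) K (u x) * algebraMap (𝓞 K) K (u y) = algebraMap (𝓞 K) K w ^ 2 := by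
    rw [← map_mul, ← Units.val_mul, hw, Units.val_mul, map_mul, sq]
  set ax := algebraMap (𝓞 K) K (α x)
  set ay := algebraMap (𝓞 K) K (α y)
  set bx := algebraMap (𝓞 K) K (β x)
  set bY := algebraMap (𝓞 K) K (β y)
  set ρ := algebraMap (𝓞 K) K (r (rep (cl x)))
  have hax : ax ≠ 0 := by rw [Ne, FaithfulSMul.algebraMap_eq_zero_iff]; exact a1
  have hay : ay ≠ 0 := by rw [Ne, FaithfulSMul.algebraMap_eq_zero_iff]; exact b1
  have hw0 : algebraMap (𝓞 K) K (w : 𝓞 K) ≠ 0 := by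
    rw [Ne, FaithfulSMul.algebraMap_eq_zero_iff]; exact w.ne_zero
  have htx := ht x
  have hty := ht y
  refine ⟨bx * bY * ρ / (ax * ay * t x * t y * algebraMap (𝓞 K) K w), ?_⟩
  have key : (ax * ay * t x * t y * algebraMap (𝓞 K) K w) ^ 2 * (x * y) = (bx * bY * ρ) ^ 2 := by
    calc _ = (ax ^ 2 * (x * t x ^ 2)) * (ay ^ 2 * (y * t y ^ 2)) * (algebraMap (𝓞 K) K w ^ 2) := by ring
      _ = (ax ^ 2 * (x * t x ^ 2) * algebraMap (𝓞 K) K (u x)) *
          (ay ^ 2 * (y * t y ^ 2) * algebraMap (𝓞 K) K (u y)) := by rw [← W]; ring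
      _ = _ := by rw [A3, B3]; ring
  field_simp
  linear_combination key

end Pool.Agent.K3H
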