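import Pool.Agent.K3H.KumMain

/-!
Counting rational points of `w^2 = f(x) g(z)` on twists having a point of small height.
-/

namespace Pool.Agent.K3H

open WeierstrassCurve WeierstrassCurve.Affine Height Polynomial

section

variable {K : Type*} [Field K] [DecidableEq K]

omit [DecidableEq K] in
lemma card_triples' (f g : K → K) (s : Finset (K × K × K)) [DecidableEq (K × K)]
    (hs : ∀ p ∈ s, p.2.2 ^ 2 = f p.1 * g p.2.1) :
    s.card ≤ 2 * (s.image (fun p : K × K × K => (p.1, p.2.1))).card := by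
  classical
  apply Finset.card_le_mul_card_image
  intro xz hxz
  obtain ⟨p, hp, rfl⟩ := Finset.mem_image.mp hxz
  calc _ ≤ ({p, (p.1, p.2.1, -p.2.2)} : Finset (K × K × K)).card := by
        apply Finset.card_le_card
        intro q hq
        rw [Finset.mem_filter] at hq
        obtain ⟨hq1, hq2⟩ := hq
        simp only [Prod.mk.injEq] at hq2
        have h1 := hs p hp
        have h2 := hs q hq1
        rw [hq2.1, hq2.2, ← h1, sq_eq_sq_iff_eq_or_eq_neg] at h2
        rw [Finset.mem_insert, Finset.mem_singleton]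
        rcases h2 with h2 | h2
        · left; exact Prod.ext hq2.1 (Prod.ext hq2.2 h2)
        · right; exact Prod.ext hq2.1 (Prod.ext hq2.2 h2)
    _ ≤ 2 := Finset.card_le_two

end

section

variable {K : Type*} [Field K] [NumberField K] [DecidableEq K]

lemma class_count {a b a' b' : K} (hd : 4 * a ^ 3 + 27 * b ^ 2 ≠ 0)
    (hd' : 4 * a' ^ 3 + 27 * b' ^ 2 ≠ 0) (η : ℝ) (hη : 0 < η) :
    ∃ Cη : ℝ, 0 ≤ Cη ∧ ∀ D' : K, D' ≠ 0 → ∀ H : ℝ, 0 ≤ H → ∀ s : Finset (K × K × K),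
      (∀ p ∈ s, p.2.2 ^ 2 = fc a b p.1 * fc a' b' p.2.1 ∧ p.2.2 ≠ 0 ∧
        (∃ l : K, l ≠ 0 ∧ D' = fc a b p.1 * l ^ 2) ∧
        logHeight₁ p.1 ≤ H ∧ logHeight₁ p.2.1 ≤ H) →
      (s.card : ℝ) ≤ Cη * Real.exp (η * H) := by
  classical
  obtain ⟨C1, hC10, hC1⟩ := count_points hd (η / 2) (by positivity)
  obtain ⟨C2, hC20, hC2⟩ := count_points hd' (η / 2) (by positivity)
  refine ⟨2 * (C1 * C2), by positivity, ?_⟩
  intro D' hD' H hH s hs
  let PP : Finset (tw a b D').Point := (finite_ht_le hD' (tw a b D') H).toFinset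
  let QQ : Finset (tw a' b' D').Point := (finite_ht_le hD' (tw a' b' D') H).toFinset
  have hPP := hC1 D' hD' H hH PP (fun P hP => by simpa [PP] using hP)
  have hQQ := hC2 D' hD' H hH QQ (fun P hP => by simpa [QQ] using hP)
  let g : (tw a b D').Point × (tw a' b' D').Point → K × K := fun t =>
    ((xi D' t.1).getD 0, (xi D' t.2).getD 0)
  have hsub : s.image (fun p : K × K × K => (p.1, p.2.1)) ⊆ (PP ×ˢ QQ).image g := by
    intro xz hxz
    obtain ⟨p, hp, rfl⟩ := Finset.mem_image.mp hxz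
    obtain ⟨hw2, hw, ⟨l, hl, hDl⟩, hx, hz⟩ := hs p hp
    have hne : fc a b p.1 * fc a' b' p.2.1 ≠ 0 := by
      rw [← hw2]
      exact pow_ne_zero 2 hw
    have hfx : fc a b p.1 ≠ 0 := left_ne_zero_of_mul hne
    obtain ⟨P, hP⟩ := std_point hd hfx
    have hn : (tw a' b' (fc a b p.1)).Nonsingular (fc a b p.1 * p.2.1) (fc a b p.1 * p.2.2) := by
      rw [sw_ns_iff (tw_disc hd' hfx), mul_pow, hw2]
      simp only [fc]
      ring
    have hQ : xi (fc a b p.1) (Point.some _ _ hn) = some p.2.1 := by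
      rw [xi_some]
      congr 1
      field_simp
    obtain ⟨φ, _, hφx⟩ := exists_scale a b hl hDl
    obtain ⟨ψ, _, hψx⟩ := exists_scale a' b' hl hDl
    rw [Finset.mem_image]
    refine ⟨(φ P, ψ (Point.some _ _ hn)), ?_, ?_⟩
    · rw [Finset.mem_product]
      simp only [PP, QQ, Set.Finite.mem_toFinset, Set.mem_ofPred_eq]
      refine ⟨?_, ?_⟩
      · rw [ht_eq_oh, hφx, hP]; exact hx
      · rw [ht_eq_oh, hψx, hQ]; exact hz
    · simp only [g]
      rw [hφx, hψx, hP, hQ]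
      rfl
  have h1 := card_triples' (fc a b) (fc a' b') s (fun p hp => (hs p hp).1)
  have h2 := (Finset.card_le_card hsub).trans Finset.card_image_le
  rw [Finset.card_product] at h2
  have h3 : (s.card : ℝ) ≤ 2 * ((PP.card : ℝ) * QQ.card) := by
    have : s.card ≤ 2 * (PP.card * QQ.card) := h1.trans (Nat.mul_le_mul_left 2 h2)
    exact_mod_cast this
  calc (s.card : ℝ) ≤ 2 * ((PP.card : ℝ) * QQ.card) := h3
    _ ≤ 2 * ((C1 * Real.exp (η / 2 * H)) * (C2 * Real.exp (η / 2 * H))) := by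
        gcongr
    _ = 2 * (C1 * C2) * (Real.exp (η / 2 * H) * Real.exp (η / 2 * H)) := by ring
    _ = 2 * (C1 * C2) * Real.exp (η * H) := by rw [← Real.exp_add]; ring_nf

/-- Points whose twist has a point of small height. -/
theorem small_count {a b a' b' : K} (hd : 4 * a ^ 3 + 27 * b ^ 2 ≠ 0)
    (hd' : 4 * a' ^ 3 + 27 * b' ^ 2 ≠ 0) (θ ε : ℝ) (hθ : 0 ≤ θ) (hε : 0 < ε) :
    ∃ C' : ℝ, 0 ≤ C' ∧ ∀ B : ℝ, 1 ≤ B → ∀ s : Finset (K × K × K),
      (∀ p ∈ s, p.2.2 ^ 2 = fc a b p.1 * fc a' b' p.2.1 ∧ p.2.2 ≠ 0 ∧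
        mulHeight₁ p.1 * mulHeight₁ p.2.1 ≤ B ∧
        ((∃ ρ y : K, y ≠ 0 ∧ fc a b p.1 * y ^ 2 = fc a b ρ ∧ mulHeight₁ ρ ≤ B ^ θ) ∨
          (∃ ρ y : K, y ≠ 0 ∧ fc a b p.1 * y ^ 2 = fc a' b' ρ ∧ mulHeight₁ ρ ≤ B ^ θ))) →
      (s.card : ℝ) ≤ C' * B ^ (2 * θ + ε) := by
  classical
  obtain ⟨C2, hC20, hC2⟩ := card_nset (K := K)
  obtain ⟨C4, hC40, hC4⟩ := class_count hd hd' ε hε
  refine ⟨2 * C2 * C4, by positivity, ?_⟩
  intro B hB s hs
  set H : ℝ := Real.log B with hH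
  have hH0 : 0 ≤ H := Real.log_nonneg hB
  have hBexp : ∀ η : ℝ, Real.exp (η * H) = B ^ η := by
    intro η
    rw [Real.rpow_def_of_pos (by linarith), mul_comm]
  have hheights : ∀ p ∈ s, logHeight₁ p.1 ≤ H ∧ logHeight₁ p.2.1 ≤ H := by
    intro p hp
    obtain ⟨_, _, h3, _⟩ := hs p hp
    have h1 := one_le_mulHeight₁ p.1
    have h2 := one_le_mulHeight₁ p.2.1
    rw [logHeight₁_eq_log_mulHeight₁, logHeight₁_eq_log_mulHeight₁]
    have h4 := Real.log_nonneg h1
    have h5 := Real.log_nonneg h2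
    have h6 : Real.log (mulHeight₁ p.1) + Real.log (mulHeight₁ p.2.1) ≤ H := by
      rw [← Real.log_mul (by linarith) (by linarith)]
      exact Real.log_le_log (by positivity) h3
    constructor <;> linarith
  let Z : Finset K := nset K (θ * H)
  have hZ : (Z.card : ℝ) ≤ C2 * B ^ (2 * θ) := by
    have := hC2 (θ * H) (by positivity)
    rw [← mul_assoc, hBexp] at this
    exact this
  -- square classes
  let V : K × K × K → K → Prop := fun p D' => D' ≠ 0 ∧ ∃ l : K, l ≠ 0 ∧ D' = fc a b p.1 * l ^ 2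
  have hcov : s ⊆ (Z.biUnion (fun ρ => s.filter (fun p => V p (fc a b ρ)))) ∪
      (Z.biUnion (fun ρ => s.filter (fun p => V p (fc a' b' ρ)))) := by
    intro p hp
    obtain ⟨h1, h2, h3, h4⟩ := hs p hp
    have hne : fc a b p.1 * fc a' b' p.2.1 ≠ 0 := by
      rw [← h1]
      exact pow_ne_zero 2 h2
    have hfx : fc a b p.1 ≠ 0 := left_ne_zero_of_mul hne
    have hmem : ∀ ρ : K, mulHeight₁ ρ ≤ B ^ θ → ρ ∈ Z := by
      intro ρ hρ
      rw [mem_nset, logHeight₁_eq_log_mulHeight₁]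
      have h5 := one_le_mulHeight₁ ρ
      have := Real.log_le_log (by linarith) hρ
      rwa [Real.log_rpow (by linarith)] at this
    rw [Finset.mem_union, Finset.mem_biUnion, Finset.mem_biUnion]
    rcases h4 with ⟨ρ, y, hy, hρ, hle⟩ | ⟨ρ, y, hy, hρ, hle⟩
    · left
      have hfρ : fc a b ρ ≠ 0 := by rw [← hρ]; exact mul_ne_zero hfx (pow_ne_zero 2 hy)
      exact ⟨ρ, hmem ρ hle, Finset.mem_filter.mpr ⟨hp, hfρ, y, hy, hρ.symm⟩⟩
    · right
      have hfρ : fc a' b' ρ ≠ 0 := by rw [← hρ]; exact mul_ne_zero hfx (pow_ne_zero 2 hy)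
      exact ⟨ρ, hmem ρ hle, Finset.mem_filter.mpr ⟨hp, hfρ, y, hy, hρ.symm⟩⟩
  have hone : ∀ F : K → K, ((Z.biUnion (fun ρ => s.filter (fun p => V p (F ρ)))).card : ℝ) ≤
      C2 * C4 * B ^ (2 * θ + ε) := by
    intro F
    have h1 : ((Z.biUnion (fun ρ => s.filter (fun p => V p (F ρ)))).card : ℝ) ≤
        ∑ ρ ∈ Z, ((s.filter (fun p => V p (F ρ))).card : ℝ) := by
      have := Finset.card_biUnion_le (s := Z) (t := fun ρ => s.filter (fun p => V p (F ρ)))
      exact_mod_cast this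
    have h2 : ∀ ρ ∈ Z, ((s.filter (fun p => V p (F ρ))).card : ℝ) ≤ C4 * B ^ ε := by
      intro ρ _
      by_cases hρ : F ρ = 0
      · have : s.filter (fun p => V p (F ρ)) = ∅ := by
          apply Finset.filter_eq_empty_iff.mpr
          intro p _ hE
          exact hE.1 hρ
        rw [this, Finset.card_empty]
        push_cast
        positivity
      · have := hC4 (F ρ) hρ H hH0 (s.filter (fun p => V p (F ρ))) (by
          intro p hp
          obtain ⟨hp1, hp2⟩ := Finset.mem_filter.mp hp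
          obtain ⟨g1, g2, _⟩ := hs p hp1
          exact ⟨g1, g2, hp2.2, (hheights p hp1).1, (hheights p hp1).2⟩)
        rwa [hBexp] at this
    calc _ ≤ _ := h1
      _ ≤ ∑ ρ ∈ Z, C4 * B ^ ε := Finset.sum_le_sum h2
      _ = (Z.card : ℝ) * (C4 * B ^ ε) := by rw [Finset.sum_const, nsmul_eq_mul]
      _ ≤ (C2 * B ^ (2 * θ)) * (C4 * B ^ ε) := mul_le_mul_of_nonneg_right hZ (by positivity)
      _ = C2 * C4 * B ^ (2 * θ + ε) := by rw [Real.rpow_add (by linarith)]; ring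
  have h1 := (Finset.card_le_card hcov).trans (Finset.card_union_le _ _)
  have h2 := hone (fc a b)
  have h3 := hone (fc a' b')
  calc (s.card : ℝ) ≤ ((Z.biUnion (fun ρ => s.filter (fun p => V p (fc a b ρ)))).card : ℝ) +
        ((Z.biUnion (fun ρ => s.filter (fun p => V p (fc a' b' ρ)))).card : ℝ) := by
        exact_mod_cast h1
    _ ≤ _ := add_le_add h2 h3
    _ = _ := by ring

end

end Pool.Agent.K3H
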