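import Pool.Agent.K3H.Desc
import Pool.Agent.K3H.Primes
import Pool.Agent.K3H.Mult

/-!
Uniform bound for the number of points of bounded height on all twists of an elliptic curve
with full rational 2-torsion.
-/

namespace Pool.Agent.K3H

open IsDedekindDomain NumberField Height WithZero WeierstrassCurve WeierstrassCurve.Affine

variable {K : Type*} [Field K] [NumberField K]

lemma finite_val_ne_one {x : K} (hx : x ≠ 0) :
    {v : HeightOneSpectrum (𝓞 K) | v.valuation K x ≠ 1}.Finite := by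
  by_contra hinf
  obtain ⟨n, hn⟩ := card_primes_le K 1 one_pos
  obtain ⟨s, hs, hcard⟩ := Set.Infinite.exists_subset_card_eq hinf
    (⌊logHeight₁ x⌋₊ + n + 2)
  have h1 := hn x hx s (fun v hv => hs hv)
  rw [hcard] at h1
  push_cast at h1
  have h2 := Nat.lt_floor_add_one (logHeight₁ x)
  linarith

lemma height_fc (a b : K) : ∃ c : ℝ, ∀ x : K, logHeight₁ (fc a b x) ≤ 4 * logHeight₁ x + c := by
  refine ⟨logHeight₁ a + logHeight₁ b + 2 * (totalWeight K * Real.log 2), ?_⟩
  intro x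
  unfold fc
  have h1 := logHeight₁_add_le (x ^ 3 + a * x) b
  have h2 := logHeight₁_add_le (x ^ 3) (a * x)
  have h3 := logHeight₁_mul_le a x
  have h4 := logHeight₁_pow x 3
  push_cast at h4
  linarith

/-- Elementary inequality used to absorb powers. -/
lemma nat_le_absorb (j : ℕ) {δ : ℝ} (hδ : 0 < δ) : (j : ℝ) ≤ δ * 4 ^ j + 1 / (4 * δ) := by
  have h1 : (j : ℝ) ≤ 2 ^ j := by
    have := Nat.lt_two_pow_self (n := j)
    exact_mod_cast this.le
  have h2 : (4 : ℝ) ^ j = (2 ^ j) ^ 2 := by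
    rw [← pow_mul, mul_comm, pow_mul]; norm_num
  rw [h2]
  have h3 : 0 ≤ (2 * δ * 2 ^ j - 1) ^ 2 := sq_nonneg _
  have h4 : δ * (2 ^ j) ^ 2 + 1 / (4 * δ) - 2 ^ j = (2 * δ * 2 ^ j - 1) ^ 2 / (4 * δ) := by
    field_simp
    ring
  have h5 : 0 ≤ (2 * δ * (2 : ℝ) ^ j - 1) ^ 2 / (4 * δ) := by positivity
  linarith

variable [DecidableEq K]

theorem count_full {e₁ e₂ e₃ : K} (hs : e₁ + e₂ + e₃ = 0) (h12 : e₁ ≠ e₂) (h13 : e₁ ≠ e₃)
    (h23 : e₂ ≠ e₃) (η : ℝ) (hη : 0 < η) :
    ∃ Cη : ℝ, 0 ≤ Cη ∧ ∀ D : K, D ≠ 0 → ∀ H : ℝ, 0 ≤ H →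
      ∀ s : Finset (tw (e₁ * e₂ + e₁ * e₃ + e₂ * e₃) (-(e₁ * e₂ * e₃)) D).Point,
      (∀ P ∈ s, ht D P ≤ H) → (s.card : ℝ) ≤ Cη * Real.exp (η * H) := by
  classical
  set a := e₁ * e₂ + e₁ * e₃ + e₂ * e₃ with ha
  set b := -(e₁ * e₂ * e₃) with hb
  have hd : 4 * a ^ 3 + 27 * b ^ 2 ≠ 0 := by
    have : 4 * a ^ 3 + 27 * b ^ 2 = -((e₁ - e₂) * (e₁ - e₃) * (e₂ - e₃)) ^ 2 := by
      have h3 : e₃ = -e₁ - e₂ := by linear_combination hs
      rw [ha, hb, h3]; ring
    rw [this]
    exact neg_ne_zero.mpr (pow_ne_zero 2 (mul_ne_zero (mul_ne_zero (sub_ne_zero.mpr h12)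
      (sub_ne_zero.mpr h13)) (sub_ne_zero.mpr h23)))
  obtain ⟨C, hC⟩ := exists_pack hd
  have hC0 := hC.nonneg
  obtain ⟨N, hN⟩ := half_bound (K := K)
  obtain ⟨cf, hcf⟩ := height_fc a b
  set c₀ : ℝ := 1 / ((nb K (1 + C) : ℝ) + 1) ^ 2 with hc₀
  have hc₀pos : 0 < c₀ := by positivity
  set n₀ := nb K C with hn₀
  -- the fixed bad primes
  set Sb : Finset (HeightOneSpectrum (𝓞 K)) :=
    (finite_val_ne_one (sub_ne_zero.mpr h12)).toFinset ∪
    (finite_val_ne_one (sub_ne_zero.mpr h13)).toFinset ∪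
    (finite_val_ne_one (sub_ne_zero.mpr h23)).toFinset with hSb
  -- choice of the small parameters
  set η₂ : ℝ := η / 32 with hη₂
  have hη₂pos : 0 < η₂ := by positivity
  obtain ⟨n₁, hn₁⟩ := card_primes_le K (η₂ / 4) (by positivity)
  -- |T| ≤ η₂ q(R) + c₁
  set c₁ : ℝ := η₂ / 4 * (4 * C + |cf|) + n₁ with hc₁
  have hc₁0 : 0 ≤ c₁ := by positivity
  set K₁ : ℝ := 4 + 4 ^ Sb.card * (N : ℝ) ^ 2 with hK₁
  have hK₁1 : 1 ≤ K₁ := by
    have : (0 : ℝ) ≤ 4 ^ Sb.card * (N : ℝ) ^ 2 := by positivity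
    linarith
  set A : ℝ := Real.log K₁ + c₁ * Real.log 4 with hA
  have hlog4 : 0 < Real.log 4 := Real.log_pos (by norm_num)
  have hA0 : 0 ≤ A := by
    have := Real.log_nonneg hK₁1
    positivity
  set δ : ℝ := η * c₀ / (32 * (A + 1)) with hδ
  have hδpos : 0 < δ := by positivity
  refine ⟨(n₀ : ℝ) * Real.exp (A / (4 * δ) + η * C), by positivity, ?_⟩
  intro D hD H hH s hsH
  obtain ⟨q, hq, hqC⟩ := hC.ex D hD
  have hq0 := q_nonneg hq hqC
  have hexp1 : 1 ≤ Real.exp (A / (4 * δ) + η * C) * Real.exp (η * H) := by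
    rw [← Real.exp_add]
    exact Real.one_le_exp (by positivity)
  have htors : ∀ t : Finset (tw a b D).Point, (∀ P ∈ t, ∃ k : ℕ, k ≠ 0 ∧ k • P = 0) →
      t.card ≤ n₀ := by
    intro t ht'
    exact card_le_nb hD t (fun P hP => tors_ht_le hq hqC (ht' P hP))
  -- the ramified primes of D
  set T : Finset (HeightOneSpectrum (𝓞 K)) :=
    (finite_val_ne_one hD).toFinset.filter (fun v => ¬ IsSquare (v.valuation K D)) with hT
  have hTR : ∀ R : (tw a b D).Point, ¬ IsTors R → (T.card : ℝ) ≤ η₂ * q R + c₁ := by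
    intro R hR
    cases R with
    | zero => exact absurd ⟨1, one_ne_zero, by rw [one_smul]; rfl⟩ hR
    | some x y h =>
      have hy : y ≠ 0 := by
        rintro rfl
        apply hR
        refine ⟨2, two_ne_zero, ?_⟩
        rw [two_nsmul]
        exact Point.add_self_of_Y_eq (by rw [sw_negY]; simp)
      have hE := sw_eq h
      have hfx : D * fc a b (x / D) = (y / D) ^ 2 := by
        unfold fc
        field_simp
        linear_combination -hE
      have hf0 : fc a b (x / D) ≠ 0 := by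
        intro h0
        rw [h0, mul_zero] at hfx
        exact hy (by
          have := pow_eq_zero_iff (two_ne_zero) |>.mp hfx.symm
          rcases div_eq_zero_iff.mp this with h1 | h1
          · exact h1
          · exact absurd h1 hD)
      have h1 := hn₁ _ hf0 T (by
        intro v hv h1
        rw [hT, Finset.mem_filter] at hv
        apply hv.2
        have h2 := congrArg (v.valuation K) hfx
        rw [map_mul, h1, mul_one, map_pow] at h2
        exact ⟨_, by rw [h2, sq]⟩)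
      have h2 := hcf (x / D)
      have h3 := hqC (Point.some x y h)
      rw [ht_some, abs_le] at h3
      have h4 := le_abs_self cf
      have h5 : η₂ / 4 * logHeight₁ (fc a b (x / D)) ≤ η₂ / 4 * (4 * (q (Point.some x y h) + C) + |cf|) := by
        apply mul_le_mul_of_nonneg_left _ (by positivity)
        linarith [h3.1]
      calc (T.card : ℝ) ≤ _ := h1
        _ ≤ η₂ / 4 * (4 * (q (Point.some x y h) + C) + |cf|) + n₁ := by linarith
        _ = _ := by rw [hc₁]; ring
  -- the lower bound for heights of nontorsion points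
  set lam : ℝ := max c₀ ((T.card - c₁) / η₂) with hlam
  have hlampos : 0 < lam := lt_of_lt_of_le hc₀pos (le_max_left _ _)
  have hTlam : (T.card : ℝ) ≤ η₂ * lam + c₁ := by
    have h1 : (T.card - c₁) / η₂ ≤ lam := le_max_right _ _
    rw [div_le_iff₀ hη₂pos] at h1
    linarith
  have hlamR : ∀ P : (tw a b D).Point, q P < lam → ∃ k : ℕ, k ≠ 0 ∧ k • P = 0 := by
    intro P hP
    by_contra hPt
    have h1 : ¬ IsTors P := hPt
    have h2 := nontors_lower hD hq hqC h1
    have h3 := hTR P h1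
    have h4 : lam ≤ q P := by
      apply max_le h2
      rw [div_le_iff₀ hη₂pos]
      linarith
    linarith
  -- the index bound
  have hhalf : HalfBound (tw a b D).Point (4 + (2 ^ (Sb ∪ T).card * N) ^ 2) := by
    apply hN e₁ e₂ e₃ hs h12 h13 h23 D hD
    intro v hv
    rw [Finset.mem_union, not_or, hSb, Finset.mem_union, Finset.mem_union, not_or, not_or,
      Set.Finite.mem_toFinset, Set.Finite.mem_toFinset, Set.Finite.mem_toFinset] at hv
    simp only [Set.mem_ofPred_eq, not_not] at hv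
    refine ⟨?_, hv.1.1.1, hv.1.1.2, hv.1.2⟩
    by_contra hns
    apply hv.2
    rw [hT, Finset.mem_filter, Set.Finite.mem_toFinset]
    refine ⟨?_, hns⟩
    intro h1
    apply hns
    rw [h1]
    exact ⟨1, by simp⟩
  set M := 4 + (2 ^ (Sb ∪ T).card * N) ^ 2 with hM
  have hMle : (M : ℝ) ≤ K₁ * 4 ^ T.card := by
    have h1 : (Sb ∪ T).card ≤ Sb.card + T.card := Finset.card_union_le _ _
    have h2 : (2 : ℝ) ^ (Sb ∪ T).card ≤ 2 ^ (Sb.card + T.card) :=
      pow_le_pow_right₀ (by norm_num) h1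
    have h3 : (M : ℝ) = 4 + (2 ^ (Sb ∪ T).card * N) ^ 2 := by rw [hM]; push_cast; ring
    rw [h3]
    have h4 : (1 : ℝ) ≤ 4 ^ T.card := one_le_pow₀ (by norm_num)
    calc (4 : ℝ) + (2 ^ (Sb ∪ T).card * N) ^ 2 ≤ 4 + (2 ^ (Sb.card + T.card) * N) ^ 2 := by
          gcongr
      _ = 4 + 4 ^ Sb.card * (N : ℝ) ^ 2 * 4 ^ T.card := by
          rw [mul_pow, pow_add, mul_pow, ← pow_mul, ← pow_mul, mul_comm Sb.card, mul_comm T.card,
            pow_mul, pow_mul]
          norm_num
          ring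
      _ ≤ 4 * 4 ^ T.card + 4 ^ Sb.card * (N : ℝ) ^ 2 * 4 ^ T.card := by linarith
      _ = K₁ * 4 ^ T.card := by rw [hK₁]; ring
  have hM1 : (1 : ℝ) ≤ M := by
    have : 1 ≤ M := by rw [hM]; omega
    exact_mod_cast this
  -- choice of j
  have hex : ∃ j : ℕ, 4 * (H + C) < 4 ^ j * lam := by
    obtain ⟨j, hj⟩ := pow_unbounded_of_one_lt (4 * (H + C) / lam) (by norm_num : (1 : ℝ) < 4)
    exact ⟨j, by rwa [div_lt_iff₀ hlampos] at hj⟩
  set j := Nat.find hex with hj
  have hjspec := Nat.find_spec hex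
  rw [← hj] at hjspec
  have hcard := card_le_of_half hq hhalf hlamR htors hq0 hjspec s (by
    intro P hP
    have h1 := hqC P
    rw [abs_le] at h1
    linarith [h1.2, hsH P hP])
  have hcard' : (s.card : ℝ) ≤ n₀ * (M : ℝ) ^ j := by exact_mod_cast hcard
  -- bound M^j
  rcases Nat.eq_zero_or_pos j with hj0 | hjpos
  · rw [hj0, pow_zero, mul_one] at hcard'
    calc (s.card : ℝ) ≤ n₀ * 1 := by linarith
      _ ≤ n₀ * (Real.exp (A / (4 * δ) + η * C) * Real.exp (η * H)) :=
          mul_le_mul_of_nonneg_left hexp1 (by positivity)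
      _ = _ := by ring
  · have hjm : ¬ (4 * (H + C) < 4 ^ (j - 1) * lam) := Nat.find_min hex (by omega)
    push Not at hjm
    have h4j : (4 : ℝ) ^ j * lam ≤ 16 * (H + C) := by
      have : (4 : ℝ) ^ j = 4 * 4 ^ (j - 1) := by
        rw [← pow_succ']; congr 1; omega
      rw [this]
      linarith
    have hHC : 0 < H + C := by
      have : 0 < (4 : ℝ) ^ j * lam := by positivity
      linarith
    -- j * A
    have hjA : (j : ℝ) * A ≤ η / 2 * (H + C) + A / (4 * δ) := by
      have h1 := nat_le_absorb j hδpos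
      have h2 : (4 : ℝ) ^ j * c₀ ≤ 16 * (H + C) := by
        have : (4 : ℝ) ^ j * c₀ ≤ 4 ^ j * lam :=
          mul_le_mul_of_nonneg_left (le_max_left _ _) (by positivity)
        linarith
      have h3 : δ * 4 ^ j * A ≤ η / 2 * (H + C) := by
        have h4 : δ * 4 ^ j * A = η / (32 * (A + 1)) * A * (4 ^ j * c₀) := by
          rw [hδ]; field_simp
        rw [h4]
        have h5 : η / (32 * (A + 1)) * A ≤ η / 32 := by
          rw [div_mul_eq_mul_div, div_le_div_iff₀ (by positivity) (by norm_num)]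
          nlinarith
        calc η / (32 * (A + 1)) * A * (4 ^ j * c₀) ≤ η / 32 * (16 * (H + C)) := by
              apply mul_le_mul h5 h2 (by positivity) (by positivity)
          _ = _ := by ring
      calc (j : ℝ) * A ≤ (δ * 4 ^ j + 1 / (4 * δ)) * A := mul_le_mul_of_nonneg_right h1 hA0
        _ = δ * 4 ^ j * A + A / (4 * δ) := by ring
        _ ≤ _ := by linarith
    -- j * lam * log 4
    have hjl : (j : ℝ) * lam * Real.log 4 ≤ 16 * (H + C) := by
      have h1 : (j : ℝ) * Real.log 4 ≤ 4 ^ j := by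
        have h2 : (j : ℝ) * Real.log 4 = Real.log (4 ^ j) := by rw [Real.log_pow]
        rw [h2]
        have := Real.log_le_sub_one_of_pos (show (0 : ℝ) < 4 ^ j by positivity)
        linarith
      calc (j : ℝ) * lam * Real.log 4 = ((j : ℝ) * Real.log 4) * lam := by ring
        _ ≤ 4 ^ j * lam := mul_le_mul_of_nonneg_right h1 hlampos.le
        _ ≤ _ := h4j
    have hlogM : Real.log ((M : ℝ) ^ j) ≤ A / (4 * δ) + η * (H + C) := by
      rw [Real.log_pow]
      have h1 : Real.log M ≤ A + η₂ * lam * Real.log 4 := by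
        have h2 : Real.log M ≤ Real.log (K₁ * 4 ^ T.card) :=
          Real.log_le_log (by linarith) hMle
        rw [Real.log_mul (by linarith) (by positivity), Real.log_pow] at h2
        have h3 : (T.card : ℝ) * Real.log 4 ≤ (η₂ * lam + c₁) * Real.log 4 :=
          mul_le_mul_of_nonneg_right hTlam hlog4.le
        rw [hA]
        linarith
      calc (j : ℝ) * Real.log M ≤ j * (A + η₂ * lam * Real.log 4) :=
            mul_le_mul_of_nonneg_left h1 (by positivity)
        _ = j * A + η₂ * (j * lam * Real.log 4) := by ring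
        _ ≤ (η / 2 * (H + C) + A / (4 * δ)) + η₂ * (16 * (H + C)) := by
            have := mul_le_mul_of_nonneg_left hjl hη₂pos.le
            linarith
        _ = A / (4 * δ) + η * (H + C) := by rw [hη₂]; ring
    have hMj : (M : ℝ) ^ j ≤ Real.exp (A / (4 * δ) + η * (H + C)) := by
      rw [← Real.log_le_iff_le_exp (by positivity)]
      exact hlogM
    calc (s.card : ℝ) ≤ n₀ * (M : ℝ) ^ j := hcard'
      _ ≤ n₀ * Real.exp (A / (4 * δ) + η * (H + C)) :=
          mul_le_mul_of_nonneg_left hMj (by positivity)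
      _ = _ := by rw [mul_assoc, ← Real.exp_add]; congr 2; ring

end Pool.Agent.K3H
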