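import Pool.Agent.K3H.Para
import Pool.Agent.K3H.Canon

/-!
Uniform finiteness statements for all quadratic twists of one elliptic curve.
-/

namespace Pool.Agent.K3H

open WeierstrassCurve WeierstrassCurve.Affine Height

variable {K : Type*} [Field K]

/-- The normalised x-coordinate (`none` for the point at infinity). -/
noncomputable def xi (D : K) {W : WeierstrassCurve.Affine K} : W.Point → Option K
  | .zero => none
  | .some x _ _ => some (x / D)

@[simp] lemma xi_zero (D : K) {W : WeierstrassCurve.Affine K} : xi D (0 : W.Point) = none := rfl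

@[simp] lemma xi_some (D : K) {W : WeierstrassCurve.Affine K} {x y : K} (h : W.Nonsingular x y) :
    xi D (Point.some x y h) = some (x / D) := rfl

@[simp] lemma xi_neg (D : K) {W : WeierstrassCurve.Affine K} (P : W.Point) :
    xi D (-P) = xi D P := by
  cases P with
  | zero => rfl
  | some x y h => rw [Point.neg_some]; rfl

lemma eq_or_neg_of_xi {D : K} (hD : D ≠ 0) {W : WeierstrassCurve.Affine K} {P Q : W.Point}
    (h : xi D P = xi D Q) : Q = P ∨ Q = -P := by
  cases P with
  | zero =>
    cases Q with
    | zero => left; rfl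
    | some x y h' => simp [xi] at h
  | some x y h' =>
    cases Q with
    | zero => simp [xi] at h
    | some x₂ y₂ h₂ =>
      rw [xi_some, xi_some, Option.some.injEq] at h
      have hx : x₂ = x := by field_simp at h; exact h.symm
      exact Point.X_eq_iff.mp hx

variable [AdmissibleAbsValues K]

/-- Height of an element of the projective line over `K`. -/
noncomputable def oh : Option K → ℝ
  | none => 0
  | some x => logHeight₁ x

lemma ht_eq_oh (D : K) {W : WeierstrassCurve.Affine K} (P : W.Point) :
    ht D P = oh (xi D P) := by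
  cases P with
  | zero => rw [← Point.zero_def, ht_zero, xi_zero, oh]
  | some x y h => rw [ht_some, xi_some, oh]

variable [Northcott (mulHeight₁ (K := K))]

/-- The finite set of elements of `K` of logarithmic height at most `c`. -/
noncomputable def nset (K : Type*) [Field K] [AdmissibleAbsValues K]
    [Northcott (mulHeight₁ (K := K))] (c : ℝ) : Finset K :=
  (Northcott.finite_le (h := logHeight₁ (K := K)) c).toFinset

lemma mem_nset {c : ℝ} {x : K} : x ∈ nset K c ↔ logHeight₁ x ≤ c := by
  simp [nset]

/-- An upper bound for the number of points of height at most `c` on any twist. -/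
noncomputable def nb (K : Type*) [Field K] [AdmissibleAbsValues K]
    [Northcott (mulHeight₁ (K := K))] (c : ℝ) : ℕ := 2 * ((nset K c).card + 1)

lemma card_le_nb [DecidableEq K] {D : K} (hD : D ≠ 0) {W : WeierstrassCurve.Affine K} {c : ℝ}
    (s : Finset W.Point) (hs : ∀ P ∈ s, ht D P ≤ c) : s.card ≤ nb K c := by
  classical
  have h1 : s.card ≤ 2 * (s.image (xi D)).card := by
    apply Finset.card_le_mul_card_image
    intro o ho
    obtain ⟨P, hP, rfl⟩ := Finset.mem_image.mp ho
    calc _ ≤ ({P, -P} : Finset W.Point).card := by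
          apply Finset.card_le_card
          intro Q hQ
          rw [Finset.mem_filter] at hQ
          rcases eq_or_neg_of_xi hD hQ.2.symm with h | h <;> simp [h]
      _ ≤ 2 := Finset.card_le_two
  have h2 : (s.image (xi D)).card ≤ (nset K c).card + 1 := by
    calc _ ≤ (Finset.insertNone (nset K c)).card := by
          apply Finset.card_le_card
          intro o ho
          obtain ⟨P, hP, rfl⟩ := Finset.mem_image.mp ho
          rw [Finset.mem_insertNone]
          intro x hx
          rw [mem_nset]
          have := hs P hP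
          rw [ht_eq_oh] at this
          rw [Option.mem_def] at hx
          rw [hx] at this
          exact this
      _ = _ := Finset.card_insertNone _
  unfold nb
  omega

lemma finite_ht_le [DecidableEq K] {D : K} (hD : D ≠ 0) (W : WeierstrassCurve.Affine K) (c : ℝ) :
    {P : W.Point | ht D P ≤ c}.Finite := by
  by_contra hinf
  obtain ⟨s, hs, hcard⟩ := (Set.Infinite.exists_subset_card_eq hinf (nb K c + 1))
  have := card_le_nb hD s (c := c) (fun P hP => hs hP)
  omega

/-- The uniform canonical-height package for all twists of `y^2 = x^3 + a x + b`. -/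
structure Pack (a b : K) [DecidableEq K] (C : ℝ) : Prop where
  nonneg : 0 ≤ C
  ex : ∀ D : K, D ≠ 0 → ∃ q : (tw a b D).Point → ℝ, IsPara q ∧ ∀ P, |q P - ht D P| ≤ C

omit [Northcott (mulHeight₁ (K := K))] in
theorem exists_pack [CharZero K] [DecidableEq K] {a b : K} (hd : 4 * a ^ 3 + 27 * b ^ 2 ≠ 0) :
    ∃ C : ℝ, Pack a b C := by
  obtain ⟨C, hC0, hC⟩ := para hd
  exact ⟨C, hC0, fun D hD => exists_canon _ C (hC D hD)⟩

section

variable [DecidableEq K] {a b D : K} {C : ℝ} {q : (tw a b D).Point → ℝ}

omit [Northcott (mulHeight₁ (K := K))] in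
lemma q_nonneg (hq : IsPara q) (hqC : ∀ P, |q P - ht D P| ≤ C) (P : (tw a b D).Point) :
    0 ≤ q P := by
  apply hq.nonneg_of_bdd (c := C)
  intro P
  have h1 := hqC P
  have h2 := ht_nonneg D P
  rw [abs_le] at h1
  linarith [h1.1]

/-- Being a torsion point. -/
def IsTors {A : Type*} [AddCommGroup A] (P : A) : Prop := ∃ k : ℕ, k ≠ 0 ∧ k • P = 0

lemma nontors_lower (hD : D ≠ 0) (hq : IsPara q) (hqC : ∀ P, |q P - ht D P| ≤ C)
    {P : (tw a b D).Point} (hP : ¬ IsTors P) : 1 / ((nb K (1 + C) : ℝ) + 1) ^ 2 ≤ q P := by
  classical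
  by_contra hlt
  push Not at hlt
  set n := nb K (1 + C) with hn
  have hinj : Set.InjOn (fun k : ℕ => k • P) (Finset.range (n + 1) : Set ℕ) := by
    intro i _ j _ hij
    by_contra hne
    apply hP
    rcases Nat.lt_or_gt_of_ne hne with h | h
    · refine ⟨j - i, by omega, ?_⟩
      have : j • P = i • P + (j - i) • P := by rw [← add_smul]; congr 1; omega
      simp only at hij
      rw [← hij] at this
      exact (left_eq_add.mp this)
    · refine ⟨i - j, by omega, ?_⟩
      have : i • P = j • P + (i - j) • P := by rw [← add_smul]; congr 1; omega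
      simp only at hij
      rw [hij] at this
      exact (left_eq_add.mp this)
  have h1 := card_le_nb (W := tw a b D) hD ((Finset.range (n + 1)).image (fun k : ℕ => k • P))
    (c := 1 + C) (by
      intro Q hQ
      obtain ⟨k, hk, rfl⟩ := Finset.mem_image.mp hQ
      have hk' : k ≤ n := by rw [Finset.mem_range] at hk; omega
      have h2 := hqC (k • P)
      rw [abs_le] at h2
      have h3 := hq.nsmul k P
      have h4 : (k : ℝ) ^ 2 * q P ≤ 1 := by
        have h5 : (k : ℝ) ≤ (n : ℝ) + 1 := by
          have : (k : ℝ) ≤ n := by exact_mod_cast hk'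
          linarith
        have h6 : 0 ≤ q P := q_nonneg hq hqC P
        have h7 : (0 : ℝ) < ((n : ℝ) + 1) ^ 2 := by positivity
        rw [lt_div_iff₀ h7] at hlt
        have h8 : (k : ℝ) ^ 2 ≤ ((n : ℝ) + 1) ^ 2 := by
          apply pow_le_pow_left₀ (by positivity) h5
        nlinarith
      linarith [h2.1])
  rw [Finset.card_image_of_injOn hinj, Finset.card_range] at h1
  omega

lemma tors_ht_le (hq : IsPara q) (hqC : ∀ P, |q P - ht D P| ≤ C)
    {P : (tw a b D).Point} (hP : IsTors P) : ht D P ≤ C := by
  obtain ⟨k, hk, hkP⟩ := hP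
  have h1 := hq.torsion hk hkP
  have h2 := hqC P
  rw [h1, abs_le] at h2
  linarith [h2.1]

lemma tors_kill (hD : D ≠ 0) (hq : IsPara q) (hqC : ∀ P, |q P - ht D P| ≤ C)
    {P : (tw a b D).Point} (hP : IsTors P) : (nb K C).factorial • P = 0 := by
  classical
  have hT : ∀ k : ℕ, IsTors (k • P) := by
    intro k
    obtain ⟨m, hm, hmP⟩ := hP
    exact ⟨m, hm, by rw [smul_comm, hmP, smul_zero]⟩
  by_cases hinj : Set.InjOn (fun k : ℕ => k • P) (Finset.range (nb K C + 1) : Set ℕ)
  · have h1 := card_le_nb (W := tw a b D) hD
      ((Finset.range (nb K C + 1)).image (fun k : ℕ => k • P)) (c := C) (by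
        intro Q hQ
        obtain ⟨k, hk, rfl⟩ := Finset.mem_image.mp hQ
        exact tors_ht_le hq hqC (hT k))
    rw [Finset.card_image_of_injOn hinj, Finset.card_range] at h1
    omega
  · have key : ∀ i j : ℕ, i < j → j < nb K C + 1 → i • P = j • P →
        (nb K C).factorial • P = 0 := by
      intro i j hij hj h
      have : j • P = i • P + (j - i) • P := by rw [← add_smul]; congr 1; omega
      rw [← h] at this
      have h0 : (j - i) • P = 0 := left_eq_add.mp this
      obtain ⟨c, hc⟩ := Nat.dvd_factorial (show 0 < j - i by omega) (show j - i ≤ nb K C by omega)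
      rw [hc, mul_comm, mul_smul, h0, smul_zero]
    rw [Set.InjOn] at hinj
    push Not at hinj
    obtain ⟨i, hi, j, hj, hij, hne⟩ := hinj
    simp only [Finset.coe_range, Set.mem_Iio] at hi hj
    rcases Nat.lt_or_gt_of_ne hne with h | h
    · exact key i j h hj hij
    · exact key j i h hi hij.symm

end

end Pool.Agent.K3H
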